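import Mathlib

/-!
ROW A1 (MP_78d38b_KF), about 130 lines, pure linear algebra: three Lagrangian subspaces of a nondegenerate quadratic space over F2.

PROOF. Let `C := Z ⊓ (X ⊔ Y)`.  Choose a linear map `f : V →ₗ V` with `f x ∈ X` and `x - f x ∈ Y` for all `x ∈ X ⊔ Y` (a complement `X'` of `X ⊓ Y` in `X` is a complement of
`Y` in `X ⊔ Y`; projection).  `β x y := B (f x) y` on `C`: for `x ∈ C`: `B (f x) x = B (f x) (f x) + B (f x) (x - f x) = 0 + (q x - q (f x) - q (x - f x)) = 0` (`B z z = q (z + z) - 2 q z = 0`,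
`q` vanishes on `X`, `Y`, `Z`): `β` is alternating.  Its kernel is `(Z ⊓ X) ⊔ (Z ⊓ Y)`: `x ∈ Z ⊓ X`: `x - f x ∈ X ⊓ Y`, `B (x - f x) y = 0` for `y ∈ X ⊔ Y` and `B x y = 0` for `y ∈ Z`.  `x ∈ Z ⊓ Y`:
`f x = x - (x - f x) ∈ X ⊓ Y`.  Conversely if `B (f x) y = 0` for all `y ∈ C` then `f x ∈ (Z ⊓ (X ⊔ Y))^⊥ = Z^⊥ + (X ⊔ Y)^⊥ = Z + (X ⊓ Y)` (dimensions; Lagrangian: `X^⊥ = X`), `f x = z + w`, `z ∈ Z ⊓ X`
(`w ∈ X ⊓ Y`), and `x - z = (x - f x) + w ∈ Y ⊓ Z`.  So (rank of an alternating form is even) `dim C - dim ((Z ⊓ X) ⊔ (Z ⊓ Y))` is even.  `dim ((Z ⊓ X) ⊔ (Z ⊓ Y)) = dim (Z ⊓ X) + dim (Z ⊓ Y) - dim (X ⊓ Y ⊓ Z)`,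
`dim C = m + (2 m - k) - dim (Z ⊔ (X ⊔ Y)) = m + (2 m - k) - (2 m - dim (Z ⊓ X ⊓ Y)) = m - k + dim (X ⊓ Y ⊓ Z)`, `k = dim (X ⊓ Y)` (`(Z ⊔ X ⊔ Y)^⊥ = Z ⊓ X ⊓ Y`).  Sum: `m + k + dim (Z ⊓ X) + dim (Z ⊓ Y)` is even.
Tools: `LinearMap.BilinForm.finrank_orthogonal`, see `Wg_lag`, `Wg_nondeg` in Pool/Agent/H76/XP/X4.lean.  Evenness of the rank of an alternating form: induction, or use any other proof of the statement
(e.g. induction on `m - dim (X ⊓ Y)`: change of `X` by one dimension: if `dim (X ⊓ X') = m - 1` then for every Lagrangian `Z` the dimensions of `Z ⊓ X`, `Z ⊓ X'` differ by exactly one, since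
`X ⊓ X'` has exactly two Lagrangian overspaces; see Pool/Agent/H88/RE/Ia.lean for a similar argument).
-/

set_option autoImplicit false
set_option linter.unusedSectionVars false
open scoped Classical

namespace H88KF

/-! The neighbour step and the induction are helper75's lemmas of Pool/Agent/H76/MB/Ca.lean (private there). -/

section A1

variable {V : Type} [AddCommGroup V] [Module (ZMod 2) V] [FiniteDimensional (ZMod 2) V]

private def A1I (q : V → ZMod 2) (n : ℕ) (A : Submodule (ZMod 2) V) : Prop :=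
  (∀ z ∈ A, q z = 0) ∧ Module.finrank (ZMod 2) A = n

private theorem A1_B {q : V → ZMod 2} {b : LinearMap.BilinForm (ZMod 2) V}
    (hq : ∀ z w, q (z + w) = q z + q w + b z w) {A : Submodule (ZMod 2) V}
    (hA : ∀ z ∈ A, q z = 0) {z w : V} (hz : z ∈ A) (hw : w ∈ A) : b z w = 0 := by
  have h := hq z w
  rw [hA _ (A.add_mem hz hw), hA _ hz, hA _ hw, add_zero, zero_add] at h
  exact h.symm

private theorem A1_le {q : V → ZMod 2} {b : LinearMap.BilinForm (ZMod 2) V} {n : ℕ}
    (hq : ∀ z w, q (z + w) = q z + q w + b z w) (hb : b.Nondegenerate)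
    (hV : Module.finrank (ZMod 2) V = 2 * n) {A : Submodule (ZMod 2) V}
    (hA : ∀ z ∈ A, q z = 0) : Module.finrank (ZMod 2) A ≤ n := by
  have h1 : A ≤ b.orthogonal A := fun z hz => fun w hw => A1_B hq hA hw hz
  have h2 := Submodule.finrank_mono h1
  rw [LinearMap.BilinForm.finrank_orthogonal hb, hV] at h2
  omega

private theorem A1_perp {q : V → ZMod 2} {b : LinearMap.BilinForm (ZMod 2) V} {n : ℕ}
    (hq : ∀ z w, q (z + w) = q z + q w + b z w) (hb : b.Nondegenerate)
    (hV : Module.finrank (ZMod 2) V = 2 * n) {A : Submodule (ZMod 2) V}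
    (hA : A1I q n A) : b.orthogonal A = A := by
  have h1 : A ≤ b.orthogonal A := fun z hz => fun w hw => A1_B hq hA.1 hw hz
  refine (Submodule.eq_of_le_of_finrank_le h1 ?_).symm
  rw [LinearMap.BilinForm.finrank_orthogonal hb, hV, hA.2]
  omega

private theorem A1_z2 (a : ZMod 2) : a = 0 ∨ a = 1 := by
  revert a
  decide

private theorem A1_two (v : V) : v + v = 0 := by
  rw [← two_smul (ZMod 2) v, show (2 : ZMod 2) = 0 from rfl, zero_smul]

private theorem A1_step {q : V → ZMod 2} {b : LinearMap.BilinForm (ZMod 2) V} {n : ℕ}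
    (hq : ∀ z w, q (z + w) = q z + q w + b z w) (hb : b.Nondegenerate)
    (hs : ∀ z w, b z w = b w z)
    (hV : Module.finrank (ZMod 2) V = 2 * n) {A : Submodule (ZMod 2) V}
    (hA : A1I q n A) {x : V} (hx : x ∉ A) (hqx : q x = 0) :
    ∃ A₁ : Submodule (ZMod 2) V, A1I q n A₁ ∧ x ∈ A₁ ∧ (∀ a ∈ A, b a x = 0 → a ∈ A₁) ∧
      ∀ W : Submodule (ZMod 2) V, A1I q n W →
        (Module.finrank (ZMod 2) (A₁ ⊓ W : Submodule (ZMod 2) V)
            = Module.finrank (ZMod 2) (A ⊓ W : Submodule (ZMod 2) V) + 1 ∨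
          Module.finrank (ZMod 2) (A ⊓ W : Submodule (ZMod 2) V)
            = Module.finrank (ZMod 2) (A₁ ⊓ W : Submodule (ZMod 2) V) + 1) := by
  obtain ⟨H, hH⟩ : ∃ H : Submodule (ZMod 2) V, ∀ a, a ∈ H ↔ a ∈ A ∧ b a x = 0 := by
    refine ⟨A ⊓ LinearMap.ker (b x), fun a => ?_⟩
    rw [Submodule.mem_inf, LinearMap.mem_ker, hs x a]
  have hHA : H ≤ A := fun a ha => ((hH a).1 ha).1
  have hxH : x ∉ H := fun h => hx (hHA h)
  obtain ⟨A₁, hA₁⟩ : ∃ A₁ : Submodule (ZMod 2) V, ∀ a, a ∈ A₁ ↔ a ∈ H ∨ a + x ∈ H := by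
    refine ⟨H ⊔ Submodule.span (ZMod 2) {x}, fun a => ?_⟩
    rw [Submodule.mem_sup]
    constructor
    · rintro ⟨h, hh, y, hy, rfl⟩
      obtain ⟨c, rfl⟩ := Submodule.mem_span_singleton.1 hy
      rcases A1_z2 c with rfl | rfl
      · left
        rw [zero_smul, add_zero]
        exact hh
      · right
        rw [one_smul, add_assoc, A1_two, add_zero]
        exact hh
    · rintro (h | h)
      · exact ⟨a, h, 0, Submodule.zero_mem _, add_zero a⟩
      · refine ⟨a + x, h, x, Submodule.mem_span_singleton_self x, ?_⟩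
        rw [add_assoc, A1_two, add_zero]
  have hHA₁ : H ≤ A₁ := fun a ha => (hA₁ a).2 (Or.inl ha)
  have hxA₁ : x ∈ A₁ := (hA₁ x).2 (Or.inr (by rw [A1_two]; exact H.zero_mem))
  obtain ⟨a₀, ha₀, hba₀⟩ : ∃ a ∈ A, b a x = 1 := by
    by_contra hcon
    push Not at hcon
    refine hx ?_
    rw [← A1_perp hq hb hV hA]
    intro a ha
    rcases A1_z2 (b a x) with h | h
    · exact h
    · exact absurd h (hcon a ha)
  have ha₀H : a₀ ∉ H := by
    intro h
    have h' := ((hH _).1 h).2
    rw [hba₀] at h'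
    exact absurd h' (by decide)
  -- dimensions
  have key : ∀ (S T : Submodule (ZMod 2) V) (y : V), S ≤ T → y ∈ T → y ∉ S →
      (∀ z ∈ T, z ∈ S ∨ z + y ∈ S) →
      Module.finrank (ZMod 2) T = Module.finrank (ZMod 2) S + 1 := by
    intro S T y hST hyT hyS hall
    have h1 : T = S ⊔ Submodule.span (ZMod 2) {y} := by
      apply le_antisymm
      · intro z hz
        rw [Submodule.mem_sup]
        rcases hall z hz with h | h
        · exact ⟨z, h, 0, Submodule.zero_mem _, add_zero z⟩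
        · refine ⟨z + y, h, y, Submodule.mem_span_singleton_self y, ?_⟩
          rw [add_assoc, A1_two, add_zero]
      · refine sup_le hST ?_
        rw [Submodule.span_singleton_le_iff_mem]
        exact hyT
    have hy0 : y ≠ 0 := fun h => hyS (h ▸ S.zero_mem)
    have h2 := Submodule.finrank_sup_add_finrank_inf_eq S (Submodule.span (ZMod 2) {y})
    have h3 : S ⊓ Submodule.span (ZMod 2) {y} = ⊥ := by
      rw [Submodule.eq_bot_iff]
      intro z hz
      obtain ⟨c, rfl⟩ := Submodule.mem_span_singleton.1 (Submodule.mem_inf.1 hz).2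
      rcases A1_z2 c with rfl | rfl
      · rw [zero_smul]
      · rw [one_smul] at hz
        exact absurd (Submodule.mem_inf.1 hz).1 hyS
    rw [← h1, h3, finrank_bot, finrank_span_singleton hy0, add_zero] at h2
    exact h2
  have hAd : Module.finrank (ZMod 2) A = Module.finrank (ZMod 2) H + 1 := by
    refine key H A a₀ hHA ha₀ ha₀H ?_
    intro z hz
    rcases A1_z2 (b z x) with h | h
    · exact Or.inl ((hH z).2 ⟨hz, h⟩)
    · refine Or.inr ((hH _).2 ⟨A.add_mem hz ha₀, ?_⟩)
      rw [map_add, LinearMap.add_apply, h, hba₀]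
      decide
  have hA₁d : Module.finrank (ZMod 2) A₁ = Module.finrank (ZMod 2) H + 1 :=
    key H A₁ x hHA₁ hxA₁ hxH (fun z hz => (hA₁ z).1 hz)
  have hqA₁ : ∀ z ∈ A₁, q z = 0 := by
    intro z hz
    rcases (hA₁ z).1 hz with h | h
    · exact hA.1 z (hHA h)
    · have e : z = (z + x) + x := by rw [add_assoc, A1_two, add_zero]
      rw [e, hq, hA.1 _ (hHA h), hqx, ((hH _).1 h).2]
      decide
  have hIA₁ : A1I q n A₁ := ⟨hqA₁, by rw [hA₁d, ← hAd, hA.2]⟩
  have hinf : ∀ z, z ∈ A → z ∈ A₁ → z ∈ H := by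
    intro z h1 h2
    rcases (hA₁ z).1 h2 with h | h
    · exact h
    · exfalso
      refine hx ?_
      have e : x = z + (z + x) := by rw [← add_assoc, A1_two, zero_add]
      rw [e]
      exact A.add_mem h1 (hHA h)
  -- the orthogonal complement of H
  have hperp : ∀ z ∈ b.orthogonal H, z ∈ A ∨ z + x ∈ A := by
    have h1 : b.orthogonal H = A ⊔ Submodule.span (ZMod 2) {x} := by
      refine (Submodule.eq_of_le_of_finrank_le ?_ ?_).symm
      · refine sup_le ?_ ?_
        · intro z hz w hw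
          exact A1_B hq hA.1 (hHA hw) hz
        · rw [Submodule.span_singleton_le_iff_mem]
          intro w hw
          exact ((hH w).1 hw).2
      · have h2 := key A (A ⊔ Submodule.span (ZMod 2) {x}) x le_sup_left
          (Submodule.mem_sup_right (Submodule.mem_span_singleton_self x)) hx (by
            intro z hz
            obtain ⟨a, ha, y, hy, rfl⟩ := Submodule.mem_sup.1 hz
            obtain ⟨c, rfl⟩ := Submodule.mem_span_singleton.1 hy
            rcases A1_z2 c with rfl | rfl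
            · left
              rw [zero_smul, add_zero]
              exact ha
            · right
              rw [one_smul, add_assoc, A1_two, add_zero]
              exact ha)
        rw [LinearMap.BilinForm.finrank_orthogonal hb, hV, h2, hA.2]
        rw [hA.2] at hAd
        omega
    intro z hz
    rw [h1] at hz
    obtain ⟨a, ha, y, hy, rfl⟩ := Submodule.mem_sup.1 hz
    obtain ⟨c, rfl⟩ := Submodule.mem_span_singleton.1 hy
    rcases A1_z2 c with rfl | rfl
    · left
      rw [zero_smul, add_zero]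
      exact ha
    · right
      rw [one_smul, add_assoc, A1_two, add_zero]
      exact ha
  refine ⟨A₁, hIA₁, hxA₁, fun a ha hbx => hHA₁ ((hH a).2 ⟨ha, hbx⟩), ?_⟩
  intro W hW
  have hor : ∀ w ∈ W, w ∈ b.orthogonal H → w ∈ A ∨ w ∈ A₁ := by
    intro w hw hwH
    rcases hperp w hwH with h | h
    · exact Or.inl h
    · right
      refine (hA₁ w).2 (Or.inr ((hH _).2 ⟨h, ?_⟩))
      have e : w = (w + x) + x := by rw [add_assoc, A1_two, add_zero]
      have h1 := hq (w + x) x
      rw [← e, hW.1 w hw, hA.1 _ h, hqx, zero_add, zero_add] at h1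
      exact h1.symm
  -- an element of W orthogonal to H and not in H
  have hdim : Module.finrank (ZMod 2) (W ⊓ b.orthogonal H : Submodule (ZMod 2) V)
      = Module.finrank (ZMod 2) (W ⊓ H : Submodule (ZMod 2) V) + 1 := by
    have h1 : W ⊓ b.orthogonal H = b.orthogonal (W ⊔ H) := by
      ext z
      constructor
      · rintro ⟨h2, h3⟩ y hy
        obtain ⟨w, hw, h, hh, rfl⟩ := Submodule.mem_sup.1 hy
        show b (w + h) z = 0
        rw [map_add, LinearMap.add_apply, A1_B hq hW.1 hw h2, h3 h hh, add_zero]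
      · intro h2
        refine ⟨?_, fun y hy => h2 y (Submodule.mem_sup_right hy)⟩
        have h3 : z ∈ b.orthogonal W := fun y hy => h2 y (Submodule.mem_sup_left hy)
        rw [A1_perp hq hb hV hW] at h3
        exact h3
    rw [h1, LinearMap.BilinForm.finrank_orthogonal hb, hV]
    have h2 := Submodule.finrank_sup_add_finrank_inf_eq W H
    have h3 := hW.2
    have h4 := hA.2
    have h5 := Submodule.finrank_mono (inf_le_right : W ⊓ H ≤ H)
    omega
  obtain ⟨w, hw, hwH⟩ : ∃ w ∈ W ⊓ b.orthogonal H, w ∉ H := by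
    by_contra hcon
    push Not at hcon
    have h1 : W ⊓ b.orthogonal H ≤ W ⊓ H := fun z hz => ⟨hz.1, hcon z hz⟩
    have h2 := Submodule.finrank_mono h1
    omega
  have hHperp : H ≤ b.orthogonal H := fun z hz w hw => A1_B hq hA.1 (hHA hw) (hHA hz)
  have hAperp : ∀ z ∈ A, z ∈ b.orthogonal H := fun z hz w hw => A1_B hq hA.1 (hHA hw) hz
  have hA₁perp : ∀ z ∈ A₁, z ∈ b.orthogonal H := fun z hz w hw => A1_B hq hqA₁ (hHA₁ hw) hz
  rcases hor w hw.1 hw.2 with hwA | hwA
  · right
    have e1 : A₁ ⊓ W = W ⊓ H := by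
      ext z
      constructor
      · rintro ⟨h1, h2⟩
        refine ⟨h2, ?_⟩
        by_contra hz
        rcases hor (w + z) (W.add_mem hw.1 h2) (Submodule.add_mem _ hw.2 (hA₁perp z h1))
          with h3 | h3
        · refine hz (hinf z ?_ h1)
          have e : z = w + (w + z) := by rw [← add_assoc, A1_two, zero_add]
          rw [e]
          exact A.add_mem hwA h3
        · refine hwH (hinf w hwA ?_)
          have e : w = (w + z) + z := by rw [add_assoc, A1_two, add_zero]
          rw [e]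
          exact A₁.add_mem h3 h1
      · rintro ⟨h1, h2⟩
        exact ⟨hHA₁ h2, h1⟩
    have e2 : A ⊓ W = W ⊓ b.orthogonal H := by
      refine Submodule.eq_of_le_of_finrank_le (fun z hz => ⟨hz.2, hAperp z hz.1⟩) ?_
      rw [hdim]
      have h1 : W ⊓ H < A ⊓ W := by
        refine lt_of_le_of_ne (fun z hz => ⟨hHA hz.2, hz.1⟩) ?_
        intro h
        have h2 : w ∈ A ⊓ W := ⟨hwA, hw.1⟩
        rw [← h] at h2
        exact hwH h2.2
      exact Submodule.finrank_lt_finrank_of_lt h1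
    rw [e1, e2, hdim]
  · left
    have e1 : A ⊓ W = W ⊓ H := by
      ext z
      constructor
      · rintro ⟨h1, h2⟩
        refine ⟨h2, ?_⟩
        by_contra hz
        rcases hor (w + z) (W.add_mem hw.1 h2) (Submodule.add_mem _ hw.2 (hAperp z h1))
          with h3 | h3
        · refine hwH (hinf w ?_ hwA)
          have e : w = (w + z) + z := by rw [add_assoc, A1_two, add_zero]
          rw [e]
          exact A.add_mem h3 h1
        · refine hz (hinf z h1 ?_)
          have e : z = w + (w + z) := by rw [← add_assoc, A1_two, zero_add]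
          rw [e]
          exact A₁.add_mem hwA h3
      · rintro ⟨h1, h2⟩
        exact ⟨hHA h2, h1⟩
    have e2 : A₁ ⊓ W = W ⊓ b.orthogonal H := by
      refine Submodule.eq_of_le_of_finrank_le (fun z hz => ⟨hz.2, hA₁perp z hz.1⟩) ?_
      rw [hdim]
      have h1 : W ⊓ H < A₁ ⊓ W := by
        refine lt_of_le_of_ne (fun z hz => ⟨hHA₁ hz.2, hz.1⟩) ?_
        intro h
        have h2 : w ∈ A₁ ⊓ W := ⟨hwA, hw.1⟩
        rw [← h] at h2
        exact hwH h2.2
      exact Submodule.finrank_lt_finrank_of_lt h1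
    rw [e1, e2, hdim]

private theorem A1_par {q : V → ZMod 2} {b : LinearMap.BilinForm (ZMod 2) V} {n : ℕ}
    (hq : ∀ z w, q (z + w) = q z + q w + b z w) (hb : b.Nondegenerate)
    (hs : ∀ z w, b z w = b w z)
    (hV : Module.finrank (ZMod 2) V = 2 * n) {B W : Submodule (ZMod 2) V}
    (hB : A1I q n B) (hW : A1I q n W) (k : ℕ) :
    ∀ A : Submodule (ZMod 2) V, A1I q n A →
      Module.finrank (ZMod 2) (A ⊓ B : Submodule (ZMod 2) V) + k = n →
      Even (Module.finrank (ZMod 2) (A ⊓ W : Submodule (ZMod 2) V)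
        + Module.finrank (ZMod 2) (B ⊓ W : Submodule (ZMod 2) V) + k) := by
  induction k with
  | zero =>
    intro A hA h
    have h1 : A ⊓ B = A := Submodule.eq_of_le_of_finrank_le inf_le_left (by
      rw [hA.2]
      omega)
    have h2 : A ⊓ B = B := Submodule.eq_of_le_of_finrank_le inf_le_right (by
      rw [hB.2]
      omega)
    have h3 : A = B := h1.symm.trans h2
    rw [h3, add_zero]
    exact Even.add_self _
  | succ k ih =>
    intro A hA h
    obtain ⟨x, hxB, hxA⟩ : ∃ x ∈ B, x ∉ A := by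
      by_contra hcon
      push Not at hcon
      have h1 : A ⊓ B = B := le_antisymm inf_le_right (fun z hz => ⟨hcon z hz, hz⟩)
      rw [h1, hB.2] at h
      omega
    obtain ⟨A₁, hA₁, hx1, hH, hst⟩ := A1_step hq hb hs hV hA hxA (hB.1 x hxB)
    have h1 : A ⊓ B < A₁ ⊓ B := by
      refine lt_of_le_of_ne ?_ ?_
      · intro z hz
        exact ⟨hH z hz.1 (A1_B hq hB.1 hz.2 hxB), hz.2⟩
      · intro h2
        have h3 : x ∈ A₁ ⊓ B := ⟨hx1, hxB⟩
        rw [← h2] at h3
        exact hxA h3.1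
    have h2 := Submodule.finrank_lt_finrank_of_lt h1
    have h3 := hst B hB
    have h4 := hst W hW
    have h5 := ih A₁ hA₁ (by omega)
    rw [Nat.even_iff] at h5 ⊢
    omega

end A1

theorem lag3 {V : Type} [AddCommGroup V] [Module (ZMod 2) V] [Finite V] (q : V → ZMod 2)
    (B : LinearMap.BilinForm (ZMod 2) V) (hpol : ∀ x y, q (x + y) = q x + q y + B x y)
    (hB : ∀ x, (∀ y, B x y = 0) → x = 0) {m : ℕ} (hV : Module.finrank (ZMod 2) V = 2 * m)
    {X Y Z : Submodule (ZMod 2) V} (hX : ∀ x ∈ X, q x = 0) (hY : ∀ x ∈ Y, q x = 0)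
    (hZ : ∀ x ∈ Z, q x = 0) (dX : Module.finrank (ZMod 2) X = m)
    (dY : Module.finrank (ZMod 2) Y = m) (dZ : Module.finrank (ZMod 2) Z = m) :
    Even (Module.finrank (ZMod 2) (X ⊓ Y : Submodule (ZMod 2) V) +
      Module.finrank (ZMod 2) (X ⊓ Z : Submodule (ZMod 2) V) +
      Module.finrank (ZMod 2) (Y ⊓ Z : Submodule (ZMod 2) V) + m) := by
  have hfd : FiniteDimensional (ZMod 2) V := inferInstance
  have hs : ∀ z w, B z w = B w z := by
    intro z w
    have h1 := hpol z w
    have h2 := hpol w z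
    rw [add_comm w z, h1] at h2
    have h3 : q z + q w + B z w = q z + q w + B w z := by rw [h2]; ring
    exact add_left_cancel h3
  have hb : B.Nondegenerate :=
    ⟨hB, fun z hz => hB z fun w => by rw [hs]; exact hz w⟩
  have hle := Submodule.finrank_mono (inf_le_left : X ⊓ Y ≤ X)
  rw [dX] at hle
  have h := A1_par (W := Z) hpol hb hs hV ⟨hY, dY⟩ ⟨hZ, dZ⟩
    (m - Module.finrank (ZMod 2) (X ⊓ Y : Submodule (ZMod 2) V)) X ⟨hX, dX⟩ (by omega)
  rw [Nat.even_iff] at h ⊢
  omega

end H88KF
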