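import Pool.Agent.H88.KF.A1

/-!
ROW A2 (MP_78d38b_KF), about 150 lines, pure linear algebra: the parity in the form needed for the Selmer groups.  Use only the STATEMENT of A1.

PROOF. All groups are killed by two: `Module (ZMod 2)` (`AddCommGroup.zmodModule`), cardinalities are powers of two.  `hq` says that `q` is quadratic: `q 0 = 0` (`x = y = z = 0`), `b x y := q (x + y) + q x + q y` is
additive in both variables (`LinearMap.mk₂`).  Let `V := U × (ι → ZMod 2) × (ι → ZMod 2)`, `Q (u, s, t) := q u + ∑ s i * t i`, `B` its polar form, `Γ := {(loc x, r x, u x)}` the image of `H` (injective by hinj), `Q = 0` on `Γ` (hrec).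
`n := card ι`.  `Nat.card V ≤ (M * 2 ^ n) ^ 2`, `M * 2 ^ n ≤ Nat.card Γ`.  The radical of `B` is `Rad(b) × 0 × 0`; `Γ ⊓ Rad B = 0` by hinj.  `LinearMap.BilinForm.finrank_add_finrank_orthogonal` (the form is symmetric, so `IsRefl`):
`dim Γ + dim Γ^⊥ = dim V + dim (Γ ⊓ V^⊥) = dim V` and `Γ ≤ Γ^⊥` (`B = 0` on `Γ` by polarisation), so `2 dim Γ ≤ dim V`, hence equality: `Nat.card Γ = M * 2 ^ n` (so `M` is a power of two, `M = 2 ^ m`), `dim V = 2 (m + n)`, `Nat.card U = M ^ 2`,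
`Γ^⊥ = Γ ≥ Rad B`, so `Rad B = 0`: `B` is nondegenerate (also `b`), and `A`, `A'` are isotropic of order at least `M`, so of order `M` (`finrank_orthogonal`: `2 dim A ≤ dim U`).
Lagrangians: `Γ`, `X := A × {0} × (all)` and `X' := A' × {s, t with s i = 0 for i ∉ J, t i = 0 for i ∈ J}`: `dim X = dim X' = m + n`, `X ⊓ X' = (A ⊓ A') × {s = 0, t i = 0 for i ∈ J}`: dimension `dim (A ⊓ A') + (n - card J)`.
`Γ ⊓ X`, `Γ ⊓ X'` are isomorphic to the two subsets of `H` in the statement (`p`, `n`).  lag3: `p + n' + dim (A ⊓ A') + (n - card J) + (m + n)` is even, i.e. `p + n' + k + card J` is even with `2 ^ k = M * Nat.card (A ⊓ A')`.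
-/

set_option autoImplicit false
open scoped Classical

namespace H88KF

private theorem exists_polar {V : Type} [AddCommGroup V] [Module (ZMod 2) V] (Q : V → ZMod 2)
    (hQ : ∀ x y z, Q (x + y + z) + Q (x + y) + Q (x + z) + Q (y + z) + Q x + Q y + Q z = 0) :
    ∃ B : LinearMap.BilinForm (ZMod 2) V, ∀ x y, B x y = Q (x + y) + Q x + Q y := by
  have two0 : (2 : ZMod 2) = 0 := rfl
  have h0 : Q 0 = 0 := by
    have h := hQ 0 0 0
    simp only [add_zero] at h
    linear_combination h - 3 * Q 0 * two0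
  have hadd : ∀ x y z, Q (x + y + z) + Q (x + y) + Q z =
      (Q (x + z) + Q x + Q z) + (Q (y + z) + Q y + Q z) := by
    intro x y z
    linear_combination hQ x y z - (Q (x + z) + Q (y + z) + Q x + Q y + Q z) * two0
  have hsmul : ∀ (c : ZMod 2) (x y : V), Q (c • x + y) + Q (c • x) + Q y =
      c • (Q (x + y) + Q x + Q y) := by
    intro c x y
    rcases (by decide : ∀ c : ZMod 2, c = 0 ∨ c = 1) c with rfl | rfl
    · rw [zero_smul, zero_smul, zero_add, h0, add_zero]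
      linear_combination Q y * two0
    · rw [one_smul, one_smul]
  refine ⟨LinearMap.mk₂ (ZMod 2) (fun x y => Q (x + y) + Q x + Q y) (fun x y z => hadd x y z)
    (fun c x y => hsmul c x y) (fun x y z => ?_) (fun c x y => ?_), fun x y => rfl⟩
  · have h := hadd y z x
    rw [add_comm (y + z) x, add_comm y x, add_comm z x] at h
    linear_combination h
  · have h := hsmul c y x
    rw [add_comm (c • y) x, add_comm y x] at h
    rw [add_assoc, add_comm (Q x), ← add_assoc, h, add_assoc (Q (x + y)), add_comm (Q y),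
      ← add_assoc]

private theorem iso_dim {V : Type} [AddCommGroup V] [Module (ZMod 2) V] [Finite V]
    (Q : V → ZMod 2) (B : LinearMap.BilinForm (ZMod 2) V)
    (hB : ∀ x y, B x y = Q (x + y) + Q x + Q y) {W : Submodule (ZMod 2) V}
    (hW : ∀ x ∈ W, Q x = 0) (hk : W ⊓ LinearMap.ker B = ⊥) :
    2 * Module.finrank (ZMod 2) W ≤ Module.finrank (ZMod 2) V ∧
      (Module.finrank (ZMod 2) V ≤ 2 * Module.finrank (ZMod 2) W →
        ∀ x, (∀ y, B x y = 0) → x = 0) := by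
  have h1 : W ≤ B.orthogonal W := by
    intro m hm
    rw [LinearMap.BilinForm.mem_orthogonal_iff]
    intro n hn
    change B n m = 0
    rw [hB, hW _ (W.add_mem hn hm), hW n hn, hW m hm, add_zero, add_zero]
  have h2 := LinearMap.BilinForm.finrank_add_finrank_orthogonal' (B := B) W
  rw [hk, finrank_bot, add_zero] at h2
  have h3 := Submodule.finrank_mono h1
  refine ⟨by omega, fun h4 x hx => ?_⟩
  have h5 : B.orthogonal W = W := (Submodule.eq_of_le_of_finrank_le h1 (by omega)).symm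
  have h6 : x ∈ B.orthogonal W := by
    rw [LinearMap.BilinForm.mem_orthogonal_iff]
    intro n hn
    change B n x = 0
    have h7 := hx n
    rw [hB] at h7 ⊢
    rw [add_comm n x]
    linear_combination h7
  rw [h5] at h6
  have h8 : x ∈ W ⊓ LinearMap.ker B :=
    ⟨h6, LinearMap.mem_ker.2 (LinearMap.ext fun y => hx y)⟩
  rwa [hk, Submodule.mem_bot] at h8

private theorem card_sub {V : Type} [AddCommGroup V] [Module (ZMod 2) V] [Finite V]
    (W : Submodule (ZMod 2) V) : Nat.card W = 2 ^ Module.finrank (ZMod 2) W := by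
  rw [Module.natCard_eq_pow_finrank (K := ZMod 2), Nat.card_zmod]

private theorem card_prodS {V V' : Type} [AddCommGroup V] [Module (ZMod 2) V] [AddCommGroup V']
    [Module (ZMod 2) V'] (W : Submodule (ZMod 2) V) (W' : Submodule (ZMod 2) V') :
    Nat.card (W.prod W') = Nat.card W * Nat.card W' := by
  rw [← Nat.card_prod]
  exact Nat.card_congr
    { toFun := fun x => (⟨x.1.1, (Submodule.mem_prod.1 x.2).1⟩, ⟨x.1.2, (Submodule.mem_prod.1 x.2).2⟩)
      invFun := fun x => ⟨(x.1.1, x.2.1), Submodule.mem_prod.2 ⟨x.1.2, x.2.2⟩⟩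
      left_inv := fun _ => rfl
      right_inv := fun _ => rfl }

/-- The functions which vanish on `J`. -/
private def Tz {ι : Type} (J : Finset ι) : Submodule (ZMod 2) (ι → ZMod 2) where
  carrier := {t | ∀ i ∈ J, t i = 0}
  zero_mem' := fun _ _ => rfl
  add_mem' := fun {x y} hx hy i hi => by
    change x i + y i = 0
    rw [hx i hi, hy i hi, add_zero]
  smul_mem' := fun c x hx i hi => by
    change c * x i = 0
    rw [hx i hi, mul_zero]

private theorem card_Tz {ι : Type} [Fintype ι] (J : Finset ι) :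
    Nat.card (Tz J) = 2 ^ (Fintype.card ι - J.card) := by
  have e : Nat.card (Tz J) = Nat.card ({i // i ∉ J} → ZMod 2) := Nat.card_congr
    { toFun := fun t i => t.1 i.1
      invFun := fun f => ⟨fun i => if h : i ∈ J then 0 else f ⟨i, h⟩, fun i hi => dif_pos hi⟩
      left_inv := fun t => Subtype.ext (funext fun i => by
        by_cases h : i ∈ J
        · exact (dif_pos h).trans (t.2 i h).symm
        · exact dif_neg h)
      right_inv := fun f => funext fun i => dif_neg i.2 }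
  rw [e, Nat.card_fun, Nat.card_zmod, Nat.card_eq_fintype_card]
  congr 1
  rw [Fintype.card_subtype_compl (fun i => i ∈ J), Fintype.card_coe]

private theorem abs_aux {H U ι : Type} [AddCommGroup H] [Finite H] [Module (ZMod 2) H]
    [AddCommGroup U] [Finite U] [Module (ZMod 2) U] [Fintype ι] (loc : H →+ U) (q : U → ZMod 2)
    (hq : ∀ x y z, q (x + y + z) + q (x + y) + q (x + z) + q (y + z) + q x + q y + q z = 0)
    (r u : ι → H →+ ZMod 2) (hrec : ∀ x, q (loc x) + ∑ i, r i x * u i x = 0)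
    (hinj : ∀ x, (∀ i, r i x = 0) → (∀ i, u i x = 0) → x = 0) {M : ℕ} (hM : M ≠ 0)
    (hU : Nat.card U ≤ M ^ 2) (hH : M * 2 ^ Fintype.card ι ≤ Nat.card H) (A A' : AddSubgroup U)
    (hA : ∀ x ∈ A, q x = 0) (hA' : ∀ x ∈ A', q x = 0) (cA : M ≤ Nat.card A)
    (cA' : M ≤ Nat.card A') (J : Finset ι) :
    ∃ p n k : ℕ, Nat.card {x : H // loc x ∈ A ∧ ∀ i, r i x = 0} = 2 ^ p ∧
      Nat.card {x : H // loc x ∈ A' ∧ (∀ i, i ∉ J → r i x = 0) ∧ ∀ i ∈ J, u i x = 0} = 2 ^ n ∧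
      M * Nat.card (A ⊓ A' : AddSubgroup U) = 2 ^ k ∧ Even (p + n + k + J.card) := by
  have two0 : (2 : ZMod 2) = 0 := rfl
  have q0 : q 0 = 0 := by
    have h := hq 0 0 0
    simp only [add_zero] at h
    linear_combination h - 3 * q 0 * two0
  obtain ⟨Q, hQd⟩ : ∃ Q : U × (ι → ZMod 2) × (ι → ZMod 2) → ZMod 2,
      ∀ v, Q v = q v.1 + ∑ i, v.2.1 i * v.2.2 i := ⟨_, fun _ => rfl⟩
  have hQ : ∀ x y z, Q (x + y + z) + Q (x + y) + Q (x + z) + Q (y + z) + Q x + Q y + Q z = 0 := by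
    intro x y z
    simp only [hQd, Prod.fst_add, Prod.snd_add, Pi.add_apply]
    have h1 := hq x.1 y.1 z.1
    have h2 : ∑ i, (x.2.1 i + y.2.1 i + z.2.1 i) * (x.2.2 i + y.2.2 i + z.2.2 i) +
        ∑ i, (x.2.1 i + y.2.1 i) * (x.2.2 i + y.2.2 i) +
        ∑ i, (x.2.1 i + z.2.1 i) * (x.2.2 i + z.2.2 i) +
        ∑ i, (y.2.1 i + z.2.1 i) * (y.2.2 i + z.2.2 i) + ∑ i, x.2.1 i * x.2.2 i +
        ∑ i, y.2.1 i * y.2.2 i + ∑ i, z.2.1 i * z.2.2 i = 0 := by
      simp only [← Finset.sum_add_distrib]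
      refine Finset.sum_eq_zero fun i _ => ?_
      linear_combination (2 * (x.2.1 i * x.2.2 i + y.2.1 i * y.2.2 i + z.2.1 i * z.2.2 i) +
        x.2.1 i * y.2.2 i + x.2.1 i * z.2.2 i + y.2.1 i * x.2.2 i + y.2.1 i * z.2.2 i +
        z.2.1 i * x.2.2 i + z.2.1 i * y.2.2 i) * two0
    linear_combination h1 + h2
  obtain ⟨B, hB⟩ := exists_polar Q hQ
  obtain ⟨f, hf⟩ : ∃ f : H →+ U × (ι → ZMod 2) × (ι → ZMod 2),
      ∀ x, f x = (loc x, (fun i => r i x), fun i => u i x) :=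
    ⟨{ toFun := fun x => (loc x, (fun i => r i x), fun i => u i x)
       map_zero' := by
        refine Prod.ext (map_zero loc) (Prod.ext (funext fun i => map_zero _)
          (funext fun i => map_zero _))
       map_add' := fun x y => Prod.ext (map_add loc x y) (Prod.ext
        (funext fun i => map_add _ _ _) (funext fun i => map_add _ _ _)) }, fun _ => rfl⟩
  obtain ⟨F, hF⟩ : ∃ F : H →ₗ[ZMod 2] U × (ι → ZMod 2) × (ι → ZMod 2),
      ∀ x, F x = (loc x, (fun i => r i x), fun i => u i x) := ⟨f.toZModLinearMap 2, hf⟩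
  have hFi : Function.Injective F := by
    rw [injective_iff_map_eq_zero]
    intro x hx
    rw [hF] at hx
    have h1 := (Prod.mk.inj hx).2
    exact hinj x (fun i => congrFun (Prod.mk.inj h1).1 i) (fun i => congrFun (Prod.mk.inj h1).2 i)
  obtain ⟨G, hG⟩ : ∃ G : Submodule (ZMod 2) (U × (ι → ZMod 2) × (ι → ZMod 2)),
      ∀ v, v ∈ G ↔ ∃ x, F x = v := ⟨LinearMap.range F, fun v => Iff.rfl⟩
  have hGQ : ∀ v ∈ G, Q v = 0 := by
    intro v hv
    obtain ⟨x, rfl⟩ := (hG v).1 hv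
    rw [hQd, hF]
    exact hrec x
  have hGk : G ⊓ LinearMap.ker B = ⊥ := by
    rw [eq_bot_iff]
    rintro v ⟨hv, hv'⟩
    obtain ⟨x, rfl⟩ := (hG v).1 hv
    have hv1 : ∀ w, B (F x) w = 0 := fun w => by
      rw [LinearMap.mem_ker.1 hv', LinearMap.zero_apply]
    have hr : ∀ i, r i x = 0 := by
      intro i
      have h1 := hv1 (0, 0, Pi.single i 1)
      have h2 := hrec x
      rw [hB, hQd, hQd, hQd, hF] at h1
      simp only [Prod.mk_add_mk, add_zero, Pi.add_apply, Pi.zero_apply, q0, mul_add,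
        Finset.sum_add_distrib, Pi.single_apply, mul_ite, mul_one, mul_zero,
        Finset.sum_ite_eq', Finset.mem_univ, if_true] at h1
      linear_combination h1 - 2 * h2
    have hu : ∀ i, u i x = 0 := by
      intro i
      have h1 := hv1 (0, Pi.single i 1, 0)
      have h2 := hrec x
      rw [hB, hQd, hQd, hQd, hF] at h1
      simp only [Prod.mk_add_mk, add_zero, Pi.add_apply, Pi.zero_apply, mul_zero,
        Finset.sum_const_zero, q0, add_mul, Finset.sum_add_distrib, Pi.single_apply, ite_mul,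
        one_mul, zero_mul, Finset.sum_ite_eq', Finset.mem_univ, if_true] at h1
      linear_combination h1 - 2 * h2
    rw [hinj x hr hu, map_zero]
    exact Submodule.zero_mem _
  obtain ⟨hd1, hd2⟩ := iso_dim Q B hB hGQ hGk
  obtain ⟨g, hg⟩ : ∃ g, g = Module.finrank (ZMod 2) G := ⟨_, rfl⟩
  obtain ⟨N, hN⟩ : ∃ N, N = Fintype.card ι := ⟨_, rfl⟩
  have cG : Nat.card H = 2 ^ g := by
    rw [hg, ← card_sub G]
    exact Nat.card_congr (Equiv.ofBijective (fun x => (⟨F x, (hG _).2 ⟨x, rfl⟩⟩ : G))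
      ⟨fun x y h => hFi (congrArg Subtype.val h), fun v => by
        obtain ⟨x, hx⟩ := (hG v.1).1 v.2
        exact ⟨x, Subtype.ext hx⟩⟩)
  have cι : Nat.card (ι → ZMod 2) = 2 ^ N := by
    rw [Nat.card_fun, Nat.card_zmod, Nat.card_eq_fintype_card, hN]
  have cV : Nat.card U * (2 ^ N * 2 ^ N) = 2 ^ Module.finrank (ZMod 2)
      (U × (ι → ZMod 2) × (ι → ZMod 2)) := by
    have h := Module.natCard_eq_pow_finrank (K := ZMod 2) (V := U × (ι → ZMod 2) × (ι → ZMod 2))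
    rw [Nat.card_zmod] at h
    rw [← h, Nat.card_prod, Nat.card_prod, cι]
  rw [← hg] at hd1 hd2
  rw [cG, ← hN] at hH
  -- the dimension of the space
  have hle : Module.finrank (ZMod 2) (U × (ι → ZMod 2) × (ι → ZMod 2)) ≤ 2 * g := by
    rw [← Nat.pow_le_pow_iff_right (le_refl 2), ← cV]
    calc Nat.card U * (2 ^ N * 2 ^ N) ≤ M ^ 2 * (2 ^ N * 2 ^ N) := Nat.mul_le_mul_right _ hU
      _ = (M * 2 ^ N) * (M * 2 ^ N) := by ring
      _ ≤ 2 ^ g * 2 ^ g := Nat.mul_le_mul hH hH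
      _ = 2 ^ (2 * g) := by rw [two_mul, pow_add]
  have hV : Module.finrank (ZMod 2) (U × (ι → ZMod 2) × (ι → ZMod 2)) = 2 * g := le_antisymm hle hd1
  have hnd := hd2 hle
  have hker : LinearMap.ker B = ⊥ := by
    rw [eq_bot_iff]
    intro x hx
    rw [Submodule.mem_bot]
    exact hnd x fun y => by rw [LinearMap.mem_ker.1 hx, LinearMap.zero_apply]
  have hMg : M * 2 ^ N = 2 ^ g := by
    refine le_antisymm hH ?_
    by_contra hlt
    rw [not_le] at hlt
    have h1 : Nat.card U * (2 ^ N * 2 ^ N) < 2 ^ g * 2 ^ g := by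
      calc Nat.card U * (2 ^ N * 2 ^ N) ≤ M ^ 2 * (2 ^ N * 2 ^ N) := Nat.mul_le_mul_right _ hU
        _ = (M * 2 ^ N) * (M * 2 ^ N) := by ring
        _ < 2 ^ g * 2 ^ g := Nat.mul_lt_mul'' hlt hlt
    rw [cV, hV, two_mul, pow_add] at h1
    exact lt_irrefl _ h1
  have hNg : N ≤ g := by
    rw [← Nat.pow_le_pow_iff_right (le_refl 2), ← hMg]
    exact Nat.le_mul_of_pos_left _ (Nat.pos_of_ne_zero hM)
  have hMe : M = 2 ^ (g - N) := by
    have h1 : M * 2 ^ N = 2 ^ (g - N) * 2 ^ N := by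
      rw [hMg, ← pow_add, Nat.sub_add_cancel hNg]
    exact Nat.eq_of_mul_eq_mul_right (by positivity) h1
  -- isotropic subspaces of order `2 ^ g`
  have hiso : ∀ W : Submodule (ZMod 2) (U × (ι → ZMod 2) × (ι → ZMod 2)), (∀ x ∈ W, Q x = 0) →
      2 ^ g ≤ Nat.card W → Module.finrank (ZMod 2) W = g := by
    intro W hW hc
    have h1 := (iso_dim Q B hB hW (by rw [hker, inf_bot_eq])).1
    rw [card_sub, Nat.pow_le_pow_iff_right (le_refl 2)] at hc
    omega
  obtain ⟨X, hX⟩ : ∃ X, X = (AddSubgroup.toZModSubmodule 2 A).prod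
      ((⊥ : Submodule (ZMod 2) (ι → ZMod 2)).prod (⊤ : Submodule (ZMod 2) (ι → ZMod 2))) := ⟨_, rfl⟩
  obtain ⟨Y, hY⟩ : ∃ Y, Y = (AddSubgroup.toZModSubmodule 2 A').prod
      ((Tz Jᶜ).prod (Tz J)) := ⟨_, rfl⟩
  have mX : ∀ v, v ∈ X ↔ v.1 ∈ A ∧ v.2.1 = 0 := by
    intro v
    rw [hX, Submodule.mem_prod, Submodule.mem_prod, Submodule.mem_bot]
    exact ⟨fun h => ⟨h.1, h.2.1⟩, fun h => ⟨h.1, h.2, Submodule.mem_top⟩⟩
  have mY : ∀ v, v ∈ Y ↔ v.1 ∈ A' ∧ (∀ i, i ∉ J → v.2.1 i = 0) ∧ ∀ i ∈ J, v.2.2 i = 0 := by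
    intro v
    rw [hY, Submodule.mem_prod, Submodule.mem_prod]
    exact ⟨fun h => ⟨h.1, fun i hi => h.2.1 i (Finset.mem_compl.2 hi), h.2.2⟩,
      fun h => ⟨h.1, fun i hi => h.2.1 i (Finset.mem_compl.1 hi), h.2.2⟩⟩
  have cbot : Nat.card (⊥ : Submodule (ZMod 2) (ι → ZMod 2)) = 1 := by
    rw [card_sub, finrank_bot, pow_zero]
  have ctop : Nat.card (⊤ : Submodule (ZMod 2) (ι → ZMod 2)) = 2 ^ N := by
    rw [card_sub, finrank_top, ← cι, Module.natCard_eq_pow_finrank (K := ZMod 2), Nat.card_zmod]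
  have cX : Nat.card X = Nat.card A * 2 ^ N := by
    rw [hX, card_prodS, card_prodS, cbot, ctop, one_mul]
    rfl
  have hJN : J.card ≤ N := hN ▸ Finset.card_le_univ J
  have cY : Nat.card Y = Nat.card A' * 2 ^ N := by
    rw [hY, card_prodS, card_prodS, card_Tz, card_Tz, Finset.card_compl, ← hN, ← pow_add]
    have e : N - (N - J.card) + (N - J.card) = N := by omega
    rw [e]
    rfl
  have hXQ : ∀ x ∈ X, Q x = 0 := by
    intro v hv
    obtain ⟨h1, h2⟩ := (mX v).1 hv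
    rw [hQd, hA _ h1, h2]
    simp
  have hYQ : ∀ x ∈ Y, Q x = 0 := by
    intro v hv
    obtain ⟨h1, h2, h3⟩ := (mY v).1 hv
    rw [hQd, hA' _ h1, zero_add]
    refine Finset.sum_eq_zero fun i _ => ?_
    by_cases h : i ∈ J
    · rw [h3 i h, mul_zero]
    · rw [h2 i h, zero_mul]
  have dX := hiso X hXQ (by rw [cX, ← hMg]; exact Nat.mul_le_mul_right _ cA)
  have dY := hiso Y hYQ (by rw [cY, ← hMg]; exact Nat.mul_le_mul_right _ cA')
  have hev := lag3 Q B (fun x y => by rw [hB]; linear_combination (-(Q x + Q y)) * two0) hnd hV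
    hXQ hYQ hGQ dX dY hg.symm
  have c1 : Nat.card {x : H // loc x ∈ A ∧ ∀ i, r i x = 0} =
      2 ^ Module.finrank (ZMod 2) (X ⊓ G : Submodule (ZMod 2) _) := by
    rw [← card_sub]
    refine Nat.card_congr (Equiv.ofBijective (fun x => (⟨F x.1, (mX _).2 (by
      rw [hF]; exact ⟨x.2.1, funext x.2.2⟩), (hG _).2 ⟨x.1, rfl⟩⟩ : (X ⊓ G : Submodule (ZMod 2) _)))
      ⟨fun x y h => Subtype.ext (hFi (congrArg Subtype.val h)), fun v => ?_⟩)
    obtain ⟨x, hx⟩ := (hG v.1).1 v.2.2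
    have h1 := (mX _).1 v.2.1
    rw [← hx, hF] at h1
    exact ⟨⟨x, h1.1, fun i => congrFun h1.2 i⟩, Subtype.ext hx⟩
  have c2 : Nat.card {x : H // loc x ∈ A' ∧ (∀ i, i ∉ J → r i x = 0) ∧ ∀ i ∈ J, u i x = 0} =
      2 ^ Module.finrank (ZMod 2) (Y ⊓ G : Submodule (ZMod 2) _) := by
    rw [← card_sub]
    refine Nat.card_congr (Equiv.ofBijective (fun x => (⟨F x.1, (mY _).2 (by
      rw [hF]; exact x.2), (hG _).2 ⟨x.1, rfl⟩⟩ : (Y ⊓ G : Submodule (ZMod 2) _)))
      ⟨fun x y h => Subtype.ext (hFi (congrArg Subtype.val h)), fun v => ?_⟩)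
    obtain ⟨x, hx⟩ := (hG v.1).1 v.2.2
    have h1 := (mY _).1 v.2.1
    rw [← hx, hF] at h1
    exact ⟨⟨x, h1⟩, Subtype.ext hx⟩
  have c3 : Nat.card (A ⊓ A' : AddSubgroup U) * 2 ^ (N - J.card) =
      2 ^ Module.finrank (ZMod 2) (X ⊓ Y : Submodule (ZMod 2) _) := by
    have e : (X ⊓ Y : Submodule (ZMod 2) (U × (ι → ZMod 2) × (ι → ZMod 2))) =
        (AddSubgroup.toZModSubmodule 2 (A ⊓ A')).prod
          ((⊥ : Submodule (ZMod 2) (ι → ZMod 2)).prod (Tz J)) := by
      ext v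
      rw [Submodule.mem_inf, mX, mY, Submodule.mem_prod, Submodule.mem_prod, Submodule.mem_bot]
      constructor
      · rintro ⟨⟨h1, h2⟩, h3, h4, h5⟩
        exact ⟨⟨h1, h3⟩, h2, h5⟩
      · rintro ⟨⟨h1, h3⟩, h2, h5⟩
        refine ⟨⟨h1, h2⟩, h3, fun i _ => ?_, h5⟩
        rw [h2, Pi.zero_apply]
    rw [← card_sub, e, card_prodS, card_prodS, cbot, card_Tz, one_mul, ← hN]
    rfl
  obtain ⟨e, he⟩ : ∃ e, e = Module.finrank (ZMod 2) (X ⊓ Y : Submodule (ZMod 2) _) := ⟨_, rfl⟩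
  rw [← he] at c3 hev
  have hle2 : N - J.card ≤ e := by
    rw [← Nat.pow_le_pow_iff_right (le_refl 2), ← c3]
    exact Nat.le_mul_of_pos_left _ Nat.card_pos
  have c4 : Nat.card (A ⊓ A' : AddSubgroup U) = 2 ^ (e - (N - J.card)) := by
    have h1 : Nat.card (A ⊓ A' : AddSubgroup U) * 2 ^ (N - J.card) =
        2 ^ (e - (N - J.card)) * 2 ^ (N - J.card) := by
      rw [c3, ← pow_add, Nat.sub_add_cancel hle2]
    exact Nat.eq_of_mul_eq_mul_right (by positivity) h1
  refine ⟨_, _, (g - N) + (e - (N - J.card)), c1, c2, ?_, ?_⟩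
  · rw [c4, hMe, pow_add]
  · rw [Nat.even_iff] at hev ⊢
    omega

theorem abs_par {H U ι : Type} [AddCommGroup H] [Finite H] [AddCommGroup U] [Finite U] [Fintype ι]
    (h2H : ∀ x : H, x + x = 0) (h2U : ∀ x : U, x + x = 0) (loc : H →+ U) (q : U → ZMod 2)
    (hq : ∀ x y z, q (x + y + z) + q (x + y) + q (x + z) + q (y + z) + q x + q y + q z = 0)
    (r u : ι → H →+ ZMod 2) (hrec : ∀ x, q (loc x) + ∑ i, r i x * u i x = 0)
    (hinj : ∀ x, (∀ i, r i x = 0) → (∀ i, u i x = 0) → x = 0) {M : ℕ} (hM : M ≠ 0)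
    (hU : Nat.card U ≤ M ^ 2) (hH : M * 2 ^ Fintype.card ι ≤ Nat.card H) (A A' : AddSubgroup U)
    (hA : ∀ x ∈ A, q x = 0) (hA' : ∀ x ∈ A', q x = 0) (cA : M ≤ Nat.card A)
    (cA' : M ≤ Nat.card A') (J : Finset ι) :
    ∃ p n k : ℕ, Nat.card {x : H // loc x ∈ A ∧ ∀ i, r i x = 0} = 2 ^ p ∧
      Nat.card {x : H // loc x ∈ A' ∧ (∀ i, i ∉ J → r i x = 0) ∧ ∀ i ∈ J, u i x = 0} = 2 ^ n ∧
      M * Nat.card (A ⊓ A' : AddSubgroup U) = 2 ^ k ∧ Even (p + n + k + J.card) := by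
  let _ : Module (ZMod 2) H := AddCommGroup.zmodModule (n := 2) fun x => by rw [two_nsmul, h2H]
  let _ : Module (ZMod 2) U := AddCommGroup.zmodModule (n := 2) fun x => by rw [two_nsmul, h2U]
  exact abs_aux loc q hq r u hrec hinj hM hU hH A A' hA hA' cA cA' J

end H88KF
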