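import Pool.Agent.H88.KF.Df

/-!
ROW B1 (MP_78d38b_KF), about 120 lines: the class of the conic of `y` at `v` depends only on the local square class of `y`.

PROOF. Over `F = K_v`, `i = algebraMap K F`, write `y`, `y'` as vectors `d j = i (h.co j y)`, `d' j = i (h.co j y')` in `Fin 3 → F` with the multiplication `m3 (i a) (i b)` (Pool/Agent/H30/OD/Cs.lean: `sol_of_zero`, `sol_of_LC`, `Cs_smul`,
`Te_nf_mul`, `Te_m3_adj`, `Cb_assoc`, `Cb_comm`).  `y * y'` has `sc (y y') = sc y + sc y' ∈ Sqv` (`sc_mul`), so by `sq_alg` (Pool/Agent/H30/ZO/Ah.lean, applied to `h.co j (y y')`, `Te_ev_mul`, `h.eq_co`) there is `g` with `m3 g g = m3 d d'`.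
Converse of `sol_of_zero`: if `Sol α β` (`α = d 2`, `β = d 1 ^ 2 - d 0 * d 2 + i a * d 2 ^ 2`, `Te_nf d = ν * ν`, `ν ≠ 0`) then there is `Z ≠ 0` with `m3 d (m3 Z Z) 2 = 0`: `α x ^ 2 + β y ^ 2 = 1`; solve the linear system
`ν * Z 2 = ..`, `α Z 0 + d 1 Z 1 + (d 0 - i a * α) Z 2 = ..`, `β Z 1 - (..) Z 2 = ..` of the proof of `sol_of_zero` (the identity there: `α β * T(Z) = β * Y ^ 2 ∓ Z ^ 2 ∓ α * X ^ 2` up to signs, see `sol_of_iso`; put `Y, Z, X` proportional to the solution).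
Then `Z' := m3 (m3 g Z) C'`, `C' = Te_C d'` the adjugate (`m3 d' C' = ![n', 0, 0]`, `n' = Te_nf d' ≠ 0`): `m3 d' (m3 Z' Z') = n' ^ 2 * m3 d (m3 Z Z)`, and `Z' ≠ 0`; `sol_of_zero` for `d'`.
By symmetry `Sol (i (al h y)) (i (be h y)) ↔ Sol (i (al h y')) (i (be h y'))`; `Ta_hs` (Pool/Agent/H30/OR/Ta.lean).  `hsv v x y = hs (algebraMap x) (algebraMap y)` (Iff.rfl / rfl).
-/

set_option autoImplicit false
set_option linter.unusedSectionVars false
open scoped Classical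

open WithZero NumberField IsDedekindDomain H38RT
open H38T1 (SC sc scu rep rep_ne sc_rep sc_mul sc_eq_zero sc_surj eo la si Pri OddP tp unif ka)
open H76PP H36MX H76MQ H76MX H30ZO H76OD H88OD H30OD H36CY H30OR

namespace H88KF

variable {K L : Type} [Field K] [NumberField K] [Field L] [NumberField L] [Algebra K L]
  {a b : K} {θ : L}

private lemma B1_T {F : Type} [Field F] (a b : F) (y Z : Fin 3 → F) :
    m3 a b y (m3 a b Z Z) 2 = y 2 * Z 0 ^ 2 + 2 * y 1 * Z 0 * Z 1 +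
      (y 0 - a * y 2) * (2 * Z 0 * Z 2 + Z 1 ^ 2) + 2 * (-a * y 1 - b * y 2) * Z 1 * Z 2 +
      (-a * y 0 + a ^ 2 * y 2 - b * y 1) * Z 2 ^ 2 := by
  simp only [m3, Matrix.cons_val_zero, Matrix.cons_val_one, Matrix.cons_val_two,
    Matrix.head_cons, Matrix.tail_cons]
  ring

/-- A point of the conic gives a zero of the quadratic form. -/
private lemma B1_zero {F : Type} [Field F] {a b : F} {y : Fin 3 → F} {ν : F}
    (hν : Te_nf a b y = ν * ν) (hν0 : ν ≠ 0) (hα : y 2 ≠ 0)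
    (hβ : y 1 ^ 2 - y 0 * y 2 + a * y 2 ^ 2 ≠ 0)
    (hS : Sol (y 2) (y 1 ^ 2 - y 0 * y 2 + a * y 2 ^ 2)) :
    ∃ Z : Fin 3 → F, Z ≠ 0 ∧ m3 a b y (m3 a b Z Z) 2 = 0 := by
  obtain ⟨x, u, hxu⟩ := hS
  unfold Te_nf at hν
  obtain ⟨β, hβ'⟩ : ∃ β : F, β = y 1 ^ 2 - y 0 * y 2 + a * y 2 ^ 2 := ⟨_, rfl⟩
  rw [← hβ'] at hβ hxu
  obtain ⟨γ, hγ⟩ : ∃ γ : F, γ = y 2 * (-a * y 1 - b * y 2) - y 1 * (y 0 - a * y 2) := ⟨_, rfl⟩
  have hνi : ν * ν⁻¹ = 1 := mul_inv_cancel₀ hν0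
  have hαi : y 2 * (y 2)⁻¹ = 1 := mul_inv_cancel₀ hα
  have hβi : β * β⁻¹ = 1 := mul_inv_cancel₀ hβ
  obtain ⟨z2, hz2⟩ : ∃ z2 : F, z2 = x * ν⁻¹ := ⟨_, rfl⟩
  obtain ⟨z1, hz1⟩ : ∃ z1 : F, z1 = (1 + γ * z2) * β⁻¹ := ⟨_, rfl⟩
  obtain ⟨z0, hz0⟩ : ∃ z0 : F, z0 = (u - y 1 * z1 - (y 0 - a * y 2) * z2) * (y 2)⁻¹ := ⟨_, rfl⟩
  have hp : y 2 * z0 + y 1 * z1 + (y 0 - a * y 2) * z2 = u := by
    rw [hz0]
    linear_combination (u - y 1 * z1 - (y 0 - a * y 2) * z2) * hαi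
  have hq : β * z1 - γ * z2 = 1 := by
    rw [hz1]
    linear_combination (1 + γ * z2) * hβi
  have hx : ν * z2 = x := by
    rw [hz2]
    linear_combination x * hνi
  refine ⟨![z0, z1, z2], ?_, ?_⟩
  · intro h0
    have h1 : z1 = 0 := congrFun h0 1
    have h2 : z2 = 0 := congrFun h0 2
    rw [h1, h2, mul_zero, mul_zero, sub_zero] at hq
    exact zero_ne_one hq
  · rw [B1_T]
    have g0 : (![z0, z1, z2] : Fin 3 → F) 0 = z0 := rfl
    have g1 : (![z0, z1, z2] : Fin 3 → F) 1 = z1 := rfl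
    have g2 : (![z0, z1, z2] : Fin 3 → F) 2 = z2 := rfl
    rw [g0, g1, g2]
    have hT : y 2 * β * (y 2 * z0 ^ 2 + 2 * y 1 * z0 * z1 +
        (y 0 - a * y 2) * (2 * z0 * z2 + z1 ^ 2) + 2 * (-a * y 1 - b * y 2) * z1 * z2 +
        (-a * y 0 + a ^ 2 * y 2 - b * y 1) * z2 ^ 2) =
        β * (y 2 * z0 + y 1 * z1 + (y 0 - a * y 2) * z2) ^ 2 + y 2 * (ν * z2) ^ 2 -
          (β * z1 - γ * z2) ^ 2 := by
      rw [hγ, hβ']
      linear_combination (y 2 * z2 ^ 2) * hν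
    rw [hp, hq, hx] at hT
    have h5 : y 2 * x ^ 2 + β * u ^ 2 = 1 := hxu
    refine mul_left_cancel₀ (mul_ne_zero hα hβ) ?_
    rw [hT, mul_zero]
    linear_combination h5

private lemma B1_smul {F : Type} [Field F] (a b n : F) (u : Fin 3 → F) :
    m3 a b u ![n, 0, 0] = fun j => n * u j := by
  funext j
  fin_cases j <;> simp [m3] <;> ring

private lemma B1_inj {F : Type} [Field F] {a b : F} {g Z : Fin 3 → F} (hg : Te_nf a b g ≠ 0)
    (h : m3 a b Z g = 0) : Z = 0 := by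
  have h1 : m3 a b Z (m3 a b g (Te_C a b g)) = 0 := by
    rw [← Cb_assoc, h]
    funext j
    fin_cases j <;> simp [m3]
  rw [Te_m3_adj, B1_smul] at h1
  funext j
  have h2 := congrFun h1 j
  exact (mul_eq_zero.1 h2).resolve_left hg

/-- One direction of the comparison. -/
private lemma B1_dir {F : Type} [Field F] (h2 : (2 : F) ≠ 0) {a b : F} {d d' g : Fin 3 → F}
    {ν ν' : F} (hg : m3 a b g g = m3 a b d d')
    (hν : Te_nf a b d = ν * ν) (hν0 : ν ≠ 0) (hα : d 2 ≠ 0)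
    (hβ : d 1 ^ 2 - d 0 * d 2 + a * d 2 ^ 2 ≠ 0)
    (hν' : Te_nf a b d' = ν' * ν') (hν0' : ν' ≠ 0) (hα' : d' 2 ≠ 0)
    (hβ' : d' 1 ^ 2 - d' 0 * d' 2 + a * d' 2 ^ 2 ≠ 0)
    (hS : Sol (d 2) (d 1 ^ 2 - d 0 * d 2 + a * d 2 ^ 2)) :
    Sol (d' 2) (d' 1 ^ 2 - d' 0 * d' 2 + a * d' 2 ^ 2) := by
  obtain ⟨Z, hZ0, hZ⟩ := B1_zero hν hν0 hα hβ hS
  have hA : Std.Associative (m3 a b) := ⟨Cb_assoc a b⟩
  have hC : Std.Commutative (m3 a b) := ⟨Cb_comm a b⟩
  have hnd' : Te_nf a b d' ≠ 0 := by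
    rw [hν']
    exact mul_ne_zero hν0' hν0'
  have hng : Te_nf a b g ≠ 0 := by
    intro h0
    have h1 := congrArg (Te_nf a b) hg
    rw [Te_nf_mul, Te_nf_mul, h0, mul_zero, hν] at h1
    exact mul_ne_zero (mul_ne_zero hν0 hν0) hnd' h1.symm
  set C : Fin 3 → F := Te_C a b d' with hCdef
  set n : F := Te_nf a b d' with hn
  have hdC : m3 a b d' C = ![n, 0, 0] := Te_m3_adj a b d'
  refine sol_of_zero h2 hν' hν0' hα' hβ' (Z := m3 a b (m3 a b Z g) C) ?_ ?_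
  · have e1 : m3 a b d' (m3 a b (m3 a b (m3 a b Z g) C) (m3 a b (m3 a b Z g) C)) =
        m3 a b (m3 a b g g) (m3 a b (m3 a b d' (m3 a b C C)) (m3 a b Z Z)) := by ac_rfl
    have e2 : m3 a b (m3 a b d d') (m3 a b (m3 a b d' (m3 a b C C)) (m3 a b Z Z)) =
        m3 a b (m3 a b (m3 a b d (m3 a b Z Z)) (m3 a b d' C)) (m3 a b d' C) := by ac_rfl
    rw [e1, hg, e2, hdC, B1_smul, B1_smul]
    simp only
    rw [hZ, mul_zero, mul_zero]
  · intro h0
    apply hZ0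
    apply B1_inj hng
    have h3 : m3 a b (m3 a b Z g) ![n, 0, 0] = 0 := by
      rw [← hdC]
      have e3 : m3 a b (m3 a b Z g) (m3 a b d' C) = m3 a b (m3 a b (m3 a b Z g) C) d' := by ac_rfl
      rw [e3, h0]
      funext j
      fin_cases j <;> simp [m3]
    rw [B1_smul] at h3
    funext j
    have h4 := congrFun h3 j
    exact (mul_eq_zero.1 h4).resolve_left hnd'

theorem hs_loc (h : Cub K L a b θ) (v : HeightOneSpectrum (𝓞 K)) (ha : v.valuation K a ≤ 1)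
    (hb : v.valuation K b ≤ 1) {y y' : L} (hy : y ≠ 0) (hy' : y' ≠ 0)
    (hn : IsSquare (Algebra.norm K y)) (hn' : IsSquare (Algebra.norm K y')) (h1 : al h y ≠ 0)
    (h2 : be h y ≠ 0) (h1' : al h y' ≠ 0) (h2' : be h y' ≠ 0) (hs : sc y + sc y' ∈ Sqv K L v) :
    hsv v (al h y) (be h y) = hsv v (al h y') (be h y') := by
  have hch := H36CY.char_zero v
  have hfin : Module.Finite K L := Module.Finite.of_basis h.basis
  set i : K →+* v.adicCompletion K := algebraMap K (v.adicCompletion K) with hi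
  have hev : ∀ z : L, ev θ (fun j => h.co j z) = z := fun z => (h.eq_co z).symm
  have hnf : ∀ z : L, Te_nf (i a) (i b) (fun j => i (h.co j z)) = i (Algebra.norm K z) := by
    intro z
    rw [Te_nf_map, ← Te_norm h, hev]
  have hN : ∀ z : L, z ≠ 0 → IsSquare (Algebra.norm K z) → ∃ ν : v.adicCompletion K,
      Te_nf (i a) (i b) (fun j => i (h.co j z)) = ν * ν ∧ ν ≠ 0 := by
    intro z hz hsq
    obtain ⟨r, hr⟩ := hsq
    refine ⟨i r, ?_, ?_⟩
    · rw [hnf, hr, map_mul]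
    · intro h0
      have h3 : r = 0 := (map_eq_zero i).1 h0
      rw [h3, mul_zero] at hr
      rw [Algebra.norm_eq_zero_iff] at hr
      exact hz hr
  obtain ⟨ν, hν, hν0⟩ := hN y hy hn
  obtain ⟨ν', hν', hν0'⟩ := hN y' hy' hn'
  have hmul : ev θ (m3 a b (fun j => h.co j y) (fun j => h.co j y')) = y * y' := by
    rw [← Te_ev_mul h, hev, hev]
  obtain ⟨g, hg⟩ := sq_alg h v ha hb (d := m3 a b (fun j => h.co j y) (fun j => h.co j y'))
    (by rw [hmul]; exact mul_ne_zero hy hy') (by rw [hmul, sc_mul hy hy']; exact hs)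
  have hg1 : m3 (i a) (i b) g g =
      m3 (i a) (i b) (fun j => i (h.co j y)) (fun j => i (h.co j y')) := by
    rw [hg]
    funext j
    exact (Te_m3_map i a b _ _ j).symm
  have hbe : ∀ z : L, i (be h z) =
      i (h.co 1 z) ^ 2 - i (h.co 0 z) * i (h.co 2 z) + i a * i (h.co 2 z) ^ 2 := by
    intro z
    unfold be
    simp only [map_add, map_sub, map_mul, map_pow]
  have two : (2 : v.adicCompletion K) ≠ 0 := two_ne_zero
  have hα : i (h.co 2 y) ≠ 0 := (map_ne_zero i).2 h1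
  have hα' : i (h.co 2 y') ≠ 0 := (map_ne_zero i).2 h1'
  have hβ := (map_ne_zero i).2 h2
  have hβ' := (map_ne_zero i).2 h2'
  rw [hbe] at hβ hβ'
  have key : Sol (i (al h y)) (i (be h y)) ↔ Sol (i (al h y')) (i (be h y')) := by
    rw [hbe, hbe]
    constructor
    · intro hS
      exact B1_dir two (d := fun j => i (h.co j y)) (d' := fun j => i (h.co j y')) hg1 hν hν0
        hα hβ hν' hν0' hα' hβ' hS
    · intro hS
      exact B1_dir two (d := fun j => i (h.co j y')) (d' := fun j => i (h.co j y))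
        (hg1.trans (Cb_comm _ _ _ _)) hν' hν0' hα' hβ' hν hν0 hα hβ hS
  exact Ta_hs key

end H88KF
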