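import Pool.Agent.H88.KF.B1

/-!
ROW B2 (MP_78d38b_KF), about 60 lines: consequences of B1 (use only its STATEMENT).

PROOF. qv_eq: unfold `qv`, `exists_rep h c`.choose_spec, hs_loc with `sc y + sc y = 0 ∈ Sqv` (`H30OR.add_self_SC`), `IsSquare (norm)` from `c ∈ HH` (`H30ZO.mem_HH`).  qv_congr: the same with two representatives.
qv_iso: `mem_Wf`, `conAt_of_Wc` (Pool/Agent/H30/OD/Cs.lean) for the representative.  qv_triv: `Sqv_le` (Pool/Agent/H30/ZO/Ch.lean) and `conAt_of_Wc'`.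
-/

set_option autoImplicit false
set_option linter.unusedSectionVars false
open scoped Classical

open WithZero NumberField IsDedekindDomain H38RT
open H38T1 (SC sc scu rep rep_ne sc_rep sc_mul sc_eq_zero sc_surj eo la si Pri OddP tp unif ka)
open H76PP H36MX H76MQ H76MX H30ZO H76OD H88OD H30OD H36CY H30OR

namespace H88KF

variable {K L : Type} [Field K] [NumberField K] [Field L] [NumberField L] [Algebra K L]
  {a b : K} {θ : L}

theorem qv_eq (h : Cub K L a b θ) (v : HeightOneSpectrum (𝓞 K)) (ha : v.valuation K a ≤ 1)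
    (hb : v.valuation K b ≤ 1) {c : SC L} (hc : c ∈ HH K L) {y : L} (hy : y ≠ 0) (hyc : sc y = c)
    (h1 : al h y ≠ 0) (h2 : be h y ≠ 0) : hsv v (al h y) (be h y) = qv h v c := by
  obtain ⟨hy0, hyc0, ha0, hb0⟩ := (exists_rep h c).choose_spec
  unfold qv
  refine hs_loc h v ha hb hy hy0 ?_ ?_ h1 h2 ha0 hb0 ?_
  · rw [← mem_HH hy, hyc]
    exact hc
  · rw [← mem_HH hy0, hyc0]
    exact hc
  · rw [hyc, hyc0, add_self_SC]
    exact zero_mem _

theorem qv_congr (h : Cub K L a b θ) (v : HeightOneSpectrum (𝓞 K)) (ha : v.valuation K a ≤ 1)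
    (hb : v.valuation K b ≤ 1) {c c' : SC L} (hc : c ∈ HH K L) (hc' : c' ∈ HH K L)
    (hs : c + c' ∈ Sqv K L v) : qv h v c = qv h v c' := by
  obtain ⟨hy0, hyc0, ha0, hb0⟩ := (exists_rep h c).choose_spec
  obtain ⟨hy0', hyc0', ha0', hb0'⟩ := (exists_rep h c').choose_spec
  unfold qv
  refine hs_loc h v ha hb hy0 hy0' ?_ ?_ ha0 hb0 ha0' hb0' ?_
  · rw [← mem_HH hy0, hyc0]
    exact hc
  · rw [← mem_HH hy0', hyc0']
    exact hc'
  · rw [hyc0, hyc0']
    exact hs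

theorem qv_triv (h : Cub K L a b θ) (v : HeightOneSpectrum (𝓞 K)) (ha : v.valuation K a ≤ 1)
    (hb : v.valuation K b ≤ 1) (hd : 4 * a ^ 3 + 27 * b ^ 2 ≠ 0) {c : SC L} (hc : c ∈ Sqv K L v) :
    qv h v c = 0 := by
  obtain ⟨hy0, hyc0, ha0, hb0⟩ := (exists_rep h c).choose_spec
  exact conAt_of_Wc' h v (Sqv_le h v ha hb hd hc) _ hy0 hyc0 ha0 hb0

theorem qv_iso (S : Ext K K L a b θ) (v : HeightOneSpectrum (𝓞 K)) {D : K} (hD : D ≠ 0) {c : SC L}
    (hc : c ∈ Wf S v D) : qv (show Cub K L a b θ from S.cub) v c = 0 := by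
  obtain ⟨hy0, hyc0, ha0, hb0⟩ := (exists_rep (show Cub K L a b θ from S.cub) c).choose_spec
  exact conAt_of_Wc (show Cub K L a b θ from S.cub) hD v ((mem_Wf S v hD).1 hc).2 _ hy0 hyc0 ha0 hb0

end H88KF
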