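import Pool.Agent.H88.KF.Df

/-!
ROW C1 (MP_78d38b_KF), about 80 lines: weak approximation for the classes of square norm.

PROOF. `c = sc z`.  `H76GM.approx_pos` (Pool/Agent/H76/GM/Wa.lean) for the field `L`, the finite set of the places of `L` above `insert v Sg` (`H76PP.fin_above`) and `x w := if dn K w = v then z else 1`: `y ≠ 0` with `y = x_w * r ^ 2` in `L_w`, positive at the
real places of `L`.  `c' := sc (y * algebraMap K L (Algebra.norm K y))`: norm `N y * (N y) ^ 3`, a square: `c' ∈ HH` (`H30ZO.mem_HH`).  `sc y + c ∈ Sqv v`, `sc y ∈ Sqv u` for `u ∈ Sg`, `u ≠ v` (`mem_Sqv`).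
`scm norm (sc y) ∈ Sq u` by `norm_Sqv` (Pool/Agent/H30/ZO/Ai.lean) for `u ≠ v`, and for `v`: `norm_Sqv` for `sc y + c` and the norm of `c` is trivial; so its image in `SC L` is in `Sqv u` (`Aj_up` in Pool/Agent/H30/ZO/Aj.lean, private: copy).
Real: `0 < t y`, and `algebraMap (N y)` is positive at `t` since `t.comp (algebraMap K L) = s` is real: `s (N y) > 0`, as the norm is the product of the conjugates of `y` above `s`: the real ones are positive, the complex ones come in pairs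
(alternative: multiply `y` by a square, or avoid it: take `c' := sc (y ^ 3 * ..)`; or use that `si t` of the image of `N y`: see `H76PP`/`H38T1` for the sign of the norm, e.g. `si_norm`; a simple way: `y` can be chosen totally positive of the form
`y = r` close to... ; or replace `y` by `y * (algebraMap K L s0)` with `s0 : K` positive outside).  If the sign of the norm is a problem: choose `e : K` by approx_pos over `K`... not needed if you prove: for `y` positive at all real places of `L`, `s (N y) > 0`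
for all real `s` (`Algebra.norm_eq_prod_embeddings` over `ℂ`).
-/

set_option autoImplicit false
set_option linter.unusedSectionVars false
open scoped Classical

open WithZero NumberField IsDedekindDomain H38RT
open H38T1 (SC sc scu rep rep_ne sc_rep sc_mul sc_eq_zero sc_surj eo la si Pri OddP tp unif ka)
open H76PP H36MX H76MQ H76MX H30ZO H76OD H88OD H30OD H36CY H30OR

namespace H88KF

variable {K L : Type} [Field K] [NumberField K] [Field L] [NumberField L] [Algebra K L]
  {a b : K} {θ : L}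

/-- The norm of an element which is positive at the real places above `s` is positive at `s`. -/
private theorem norm_pos (h : Cub K L a b θ) (s : K →+* ℝ) {y : L} (hy : y ≠ 0)
    (hp : ∀ t : L →+* ℝ, 0 < t y) : 0 < s (Algebra.norm K y) := by
  have hy' : ev θ (fun i => h.co i y) = y := (h.eq_co y).symm
  have hn : Algebra.norm K y = Te_nf a b (fun i => h.co i y) := by
    have h3 := Te_norm h (fun i => h.co i y)
    rwa [hy'] at h3
  have hfin : Module.Finite K L := Module.Finite.of_basis h.basis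
  have hn0 : s (Algebra.norm K y) ≠ 0 := by
    rw [Ne, map_eq_zero, Algebra.norm_eq_zero_iff]
    exact hy
  refine lt_of_le_of_ne ?_ hn0.symm
  rw [hn, ← Te_nf_map s]
  obtain ⟨A, hA⟩ : ∃ A, A = s a := ⟨_, rfl⟩
  obtain ⟨B, hB⟩ : ∃ B, B = s b := ⟨_, rfl⟩
  obtain ⟨y0, h0⟩ : ∃ x, x = s (h.co 0 y) := ⟨_, rfl⟩
  obtain ⟨y1, h1⟩ : ∃ x, x = s (h.co 1 y) := ⟨_, rfl⟩
  obtain ⟨y2, h2⟩ : ∃ x, x = s (h.co 2 y) := ⟨_, rfl⟩
  have hroot : ∀ t : ℝ, t ^ 3 + A * t + B = 0 → 0 < y0 + y1 * t + y2 * t ^ 2 := by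
    intro t ht
    rw [hA, hB] at ht
    have h3 := hp (rh h s ht)
    rw [rh_apply, ← h0, ← h1, ← h2] at h3
    exact h3
  have e : Te_nf (s a) (s b) (fun i => s (h.co i y)) =
      y0 * ((y0 - A * y2) ^ 2 + A * y1 ^ 2 + B * y1 * y2) + B * y2 * (y0 * y1 + B * y2 ^ 2) -
        B * y1 * (y1 ^ 2 - y0 * y2 + A * y2 ^ 2) := by
    rw [h0, h1, h2, hA, hB]
    rfl
  rw [e]
  obtain ⟨t, ht⟩ := Rr_root A B
  have hPt := hroot t ht
  obtain rfl : B = -t ^ 3 - A * t := by linarith
  obtain ⟨P, hP⟩ : ∃ P, P = y0 + y1 * t + y2 * t ^ 2 := ⟨_, rfl⟩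
  obtain ⟨c, hc⟩ : ∃ c, c = y0 - y2 * (t ^ 2 + A) := ⟨_, rfl⟩
  obtain ⟨e, he⟩ : ∃ e, e = y1 - y2 * t := ⟨_, rfl⟩
  obtain ⟨M, hM⟩ : ∃ M, M = c ^ 2 - t * c * e + (t ^ 2 + A) * e ^ 2 := ⟨_, rfl⟩
  rw [← hP] at hPt
  have hM0 : 0 ≤ M := by
    rcases le_total 0 (3 * t ^ 2 + 4 * A) with h3 | h3
    · have h4 : 4 * M = (2 * c - t * e) ^ 2 + (3 * t ^ 2 + 4 * A) * e ^ 2 := by rw [hM]; ring
      have h5 : 0 ≤ (3 * t ^ 2 + 4 * A) * e ^ 2 := mul_nonneg h3 (sq_nonneg e)
      have h6 := sq_nonneg (2 * c - t * e)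
      linarith
    · obtain ⟨r, hr⟩ : ∃ r : ℝ, r ^ 2 = -(3 * t ^ 2 + 4 * A) :=
        ⟨Real.sqrt (-(3 * t ^ 2 + 4 * A)), Real.sq_sqrt (by linarith)⟩
      have hA' : A = -(3 * t ^ 2 + r ^ 2) / 4 := by linarith
      have g2 := hroot ((-t + r) / 2) (by rw [hA']; ring)
      have g3 := hroot ((-t - r) / 2) (by rw [hA']; ring)
      have e1 : M = (y0 + y1 * ((-t + r) / 2) + y2 * ((-t + r) / 2) ^ 2) *
          (y0 + y1 * ((-t - r) / 2) + y2 * ((-t - r) / 2) ^ 2) := by
        rw [hM, hc, he, hA']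
        ring
      rw [e1]
      exact (mul_pos g2 g3).le
  have hPM : 0 ≤ P * M := mul_nonneg hPt.le hM0
  refine le_of_le_of_eq hPM ?_
  rw [hM, hP, hc, he]
  ring

private theorem up_Sq (v : HeightOneSpectrum (𝓞 K)) {e : SC K} (he : e ∈ Sq v) :
    scm (algebraMap K L : K →* L) e ∈ Sqv K L v := by
  obtain ⟨x, hx, rfl⟩ := H38T1.sc_surj e
  have hx' : (algebraMap K L) x ≠ 0 := (map_ne_zero (algebraMap K L)).2 hx
  rw [mem_Sqv]
  rintro w rfl
  rw [scm_sc _ hx]
  have h1 : ((algebraMap K L : K →* L) x : L) = algebraMap K L x := rfl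
  rw [h1, mem_Sq hx']
  rw [mem_Sq hx] at he
  obtain ⟨y, hy⟩ := he
  refine ⟨(H36CY.over_dn (K := K) w).map y, ?_⟩
  rw [← Pool.Agent.H10.Over.map_algebraMap (H36CY.over_dn (K := K) w) x, hy, map_mul]

theorem approx_HH (h : Cub K L a b θ) (ha : ∀ v : HeightOneSpectrum (𝓞 K), v.valuation K a ≤ 1)
    (hb : ∀ v : HeightOneSpectrum (𝓞 K), v.valuation K b ≤ 1)
    (Sg : Finset (HeightOneSpectrum (𝓞 K))) (v : HeightOneSpectrum (𝓞 K)) {c : SC L}
    (hc : c ∈ HH K L) :
    ∃ c' ∈ HH K L, c + c' ∈ Sqv K L v ∧ (∀ u ∈ Sg, u ≠ v → c' ∈ Sqv K L u) ∧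
      ∀ t : L →+* ℝ, si t c' = 0 := by
  have hfd : FiniteDimensional K L := Module.Finite.of_restrictScalars_finite ℚ K L
  obtain ⟨z, hz, rfl⟩ := sc_surj c
  have hfin : {w : HeightOneSpectrum (𝓞 L) | dn K w ∈ insert v Sg}.Finite := by
    have h1 : {w : HeightOneSpectrum (𝓞 L) | dn K w ∈ insert v Sg} =
        ⋃ u ∈ insert v Sg, {w : HeightOneSpectrum (𝓞 L) | dn K w = u} := by
      ext w
      simp
    rw [h1]
    exact (insert v Sg).finite_toSet.biUnion fun u _ => fin_above u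
  obtain ⟨y, hy0, hy, hpos⟩ := H76GM.approx_pos hfin.toFinset
    (fun w => if dn K w = v then z else 1) (fun w _ => by
      split_ifs
      · exact hz
      · exact one_ne_zero)
  have hyv : sc z + sc y ∈ Sqv K L v := by
    rw [mem_Sqv]
    intro w hw
    obtain ⟨-, r, hr0, hr⟩ := hy w (hfin.mem_toFinset.2 (by
      change dn K w ∈ insert v Sg
      rw [hw]
      exact Finset.mem_insert_self _ _))
    rw [if_pos hw] at hr
    rw [← sc_mul hz hy0, mem_Sq (mul_ne_zero hz hy0), map_mul, hr]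
    exact ⟨algebraMap L (w.adicCompletion L) z * r, by ring⟩
  have hyu : ∀ u ∈ Sg, u ≠ v → sc y ∈ Sqv K L u := by
    intro u hu huv
    rw [mem_Sqv]
    intro w hw
    obtain ⟨-, r, hr0, hr⟩ := hy w (hfin.mem_toFinset.2 (by
      change dn K w ∈ insert v Sg
      rw [hw]
      exact Finset.mem_insert_of_mem hu))
    rw [if_neg (by rw [hw]; exact huv), map_one, one_mul] at hr
    rw [mem_Sq hy0, hr]
    exact ⟨r, sq r⟩
  have hN0 : Algebra.norm K y ≠ 0 := Algebra.norm_ne_zero_iff.2 hy0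
  have hNL : algebraMap K L (Algebra.norm K y) ≠ 0 := (map_ne_zero _).2 hN0
  have hsum : sc (y * algebraMap K L (Algebra.norm K y)) =
      sc y + sc (algebraMap K L (Algebra.norm K y)) := sc_mul hy0 hNL
  have hup : sc (algebraMap K L (Algebra.norm K y)) =
      scm (algebraMap K L : K →* L) (scm (Algebra.norm K : L →* K) (sc y)) := by
    rw [scm_sc _ hy0, scm_sc _ hN0]
    rfl
  refine ⟨sc (y * algebraMap K L (Algebra.norm K y)), ?_, ?_, ?_, ?_⟩
  · rw [mem_HH (mul_ne_zero hy0 hNL), map_mul, Algebra.norm_algebraMap, h.finrank]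
    exact ⟨Algebra.norm K y ^ 2, by ring⟩
  · rw [hsum, ← add_assoc]
    refine (Sqv K L v).add_mem hyv ?_
    rw [hup]
    refine up_Sq v ?_
    have h1 := norm_Sqv h v (ha v) (hb v) hyv
    rw [map_add, AddMonoidHom.mem_ker.1 hc, zero_add] at h1
    exact h1
  · intro u hu huv
    rw [hsum]
    refine (Sqv K L u).add_mem (hyu u hu huv) ?_
    rw [hup]
    exact up_Sq u (norm_Sqv h u (ha u) (hb u) (hyu u hu huv))
  · intro t
    have h1 : 0 < t (y * algebraMap K L (Algebra.norm K y)) := by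
      rw [map_mul]
      exact mul_pos (hpos t) (norm_pos h (t.comp (algebraMap K L)) hy0 hpos)
    rw [H38T1.si_sc t (mul_ne_zero hy0 hNL)]
    unfold sw
    rw [if_neg (not_lt.2 h1.le)]

end H88KF
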