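import Pool.Agent.H88.KF.B2

/-!
ROW C2 (MP_78d38b_KF), about 80 lines: reciprocity for the forms `qv` (use only the STATEMENTS of B2).

PROOF. Representative `y` of `c` (`exists_rep`), `hilb K`.prod for `al h y`, `be h y` as in `H30OR.rec_allQ` (Pool/Agent/H30/OR/Tj.lean); `hsv u (al h y) (be h y) = qv h u c` by `qv_eq`; the support is finite (`hilb` gives finiteness: see how `finsum` is treated there, or
the support of `hsv · x y` is finite: `H36MX`/`H76MX` lemma), `qv_fin`.  Real places: `si s (sc (al h y)) * si s (sc (be h y)) = 0` if `si t c = 0` for all real `t` of `L`: the trivial class satisfies the local condition at `s` (`ConR`): `Lr_one`/`conR_of_Wc'` with `Wc s a b θ c`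
(`H30OR.con_real`, `exists_real3`, `nr_cases` in Pool/Agent/H30/OR/Tj.lean, Tk.lean; for one real place above `s`: `Lr_one`).  qv_rec: the places `u ∈ Sg`, `u ≠ v` give zero by `qv_triv`.
-/

set_option autoImplicit false
set_option linter.unusedSectionVars false
open scoped Classical

open WithZero NumberField IsDedekindDomain H38RT
open H38T1 (SC sc scu rep rep_ne sc_rep sc_mul sc_eq_zero sc_surj eo la si Pri OddP tp unif ka)
open H76PP H36MX H76MQ H76MX H30ZO H76OD H88OD H30OD H36CY H30OR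

namespace H88KF

variable {K L : Type} [Field K] [NumberField K] [Field L] [NumberField L] [Algebra K L]
  {a b : K} {θ : L}

theorem qv_fin (h : Cub K L a b θ) (ha : ∀ v : HeightOneSpectrum (𝓞 K), v.valuation K a ≤ 1)
    (hb : ∀ v : HeightOneSpectrum (𝓞 K), v.valuation K b ≤ 1) {c : SC L} (hc : c ∈ HH K L) :
    {u : HeightOneSpectrum (𝓞 K) | qv h u c ≠ 0}.Finite :=
  H36MX.hsv_fin (exists_rep h c).choose_spec.2.2.1 (exists_rep h c).choose_spec.2.2.2

private theorem C2_real (S : Ext K K L a b θ) {c : SC L} (hc : c ∈ HH K L)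
    (h2 : ∀ t : L →+* ℝ, si t c = 0) (s : K →+* ℝ) {y : L} (hy : y ≠ 0) (hyc : sc y = c)
    (ha : al (show Cub K L a b θ from S.cub) y ≠ 0) (hb : be (show Cub K L a b θ from S.cub) y ≠ 0) :
    si s (sc (al (show Cub K L a b θ from S.cub) y)) *
      si s (sc (be (show Cub K L a b θ from S.cub) y)) = 0 := by
  have h : Cub K L a b θ := S.cub
  have hd : s (-(4 * a ^ 3 + 27 * b ^ 2)) ≠ 0 := by
    rw [Ne, map_eq_zero, neg_eq_zero]
    exact S.dne
  rcases lt_or_gt_of_ne hd with h0 | h0
  · have h1 := H30OD.conR_of_Wc (show Cub K L a b θ from S.cub) (E := 1) one_ne_zero s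
      (c := c) (Lr_one S h0 one_ne_zero hc) y hy hyc ha hb
    rw [H38T1.si_sc s ha, H38T1.si_sc s hb]
    unfold sw
    by_cases h3 : s (al (show Cub K L a b θ from S.cub) y) < 0
    · have h4 : ¬ s (be (show Cub K L a b θ from S.cub) y) < 0 := fun h4 => h1 ⟨h3, h4⟩
      rw [if_neg h4, mul_zero]
    · rw [if_neg h3, zero_mul]
  · obtain ⟨t1, t2, t3, R⟩ := exists_real3 (show Cub K L a b θ from S.cub) h0
    rw [con_real (show Cub K L a b θ from S.cub) R hy ?_ ha hb, hyc, h2, zero_mul]
    rw [← hyc, H30ZO.mem_HH hy] at hc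
    exact hc

theorem qv_rec (S : Ext K K L a b θ) {Sg T : Finset (HeightOneSpectrum (𝓞 K))}
    {v : HeightOneSpectrum (𝓞 K)} (hv : v ∈ Sg) (hd : Disjoint Sg T) {c : SC L} (hc : c ∈ HH K L)
    (h1 : ∀ u ∈ Sg, u ≠ v → c ∈ Sqv K L u) (h2 : ∀ t : L →+* ℝ, si t c = 0)
    (hT : ∀ u, u ∉ Sg → qv (show Cub K L a b θ from S.cub) u c ≠ 0 → u ∈ T) :
    qv (show Cub K L a b θ from S.cub) v c =
      ∑ u ∈ T, qv (show Cub K L a b θ from S.cub) u c := by
  obtain ⟨hy, hyc, ha, hb⟩ := (exists_rep (show Cub K L a b θ from S.cub) c).choose_spec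
  have h3 := (hilb K).prod _ _ ha hb
  rw [H36MX.BB_eq (Sg ∪ T) (fun u hu => ?_)] at h3
  · rw [Finset.sum_eq_zero (s := (Finset.univ : Finset (K →+* ℝ)))
      (fun s _ => C2_real S hc h2 s hy hyc ha hb), add_zero, Finset.sum_union hd] at h3
    have h4 : ∑ u ∈ Sg, qv (show Cub K L a b θ from S.cub) u c =
        qv (show Cub K L a b θ from S.cub) v c := by
      refine Finset.sum_eq_single_of_mem v hv fun u hu huv => ?_
      exact qv_triv (show Cub K L a b θ from S.cub) u (S.ha u) (S.hb u) S.dne (h1 u hu huv)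
    have h5 : ∑ u ∈ Sg, qv (show Cub K L a b θ from S.cub) u c +
        ∑ u ∈ T, qv (show Cub K L a b θ from S.cub) u c = 0 := h3
    rw [h4] at h5
    exact CharTwo.add_eq_zero.1 h5
  · rw [Finset.mem_union, not_or] at hu
    by_contra h6
    exact hu.2 (hT u hu.1 h6)

end H88KF
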