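import Pool.Agent.H88.KF.C1
import Pool.Agent.H88.KF.C2

/-!
ROW C3 (MP_78d38b_KF), about 90 lines: the form `qv` is quadratic on the classes of square norm (use only the STATEMENTS of B2, C1, C2).

PROOF. `Sg` := `v` and the primes at which `2`, `3` or the discriminant is not a unit (`H38RT.fin_bad`).  `approx_HH` for `x`, `y`, `z`: `x'`, `y'`, `z'`.  By `qv_congr` all seven terms can be computed with `x'`, `y'`, `z'`.  `T` := the union of the seven supports (`qv_fin`) minus `Sg`.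
`qv_rec` for the seven sums (`si_add`), and for every `u ∈ T`: `loc_all` (Pool/Agent/H30/OR/Tg.lean; `D = 1`, `E = unif u`, integrality: `Lt_int` as in the proof of parity_gen in Pool/Agent/H30/OR/Tl.lean) and `qv_eq`-type formula `LocD.hq`: `qv h u c = ∑ i, r i c * u i c` for `c ∈ HH`
(representative), so the sum of the seven terms at `u` vanishes (`map_add`, `ring`/`decide`, characteristic two).
-/

set_option autoImplicit false
set_option linter.unusedSectionVars false
open scoped Classical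

open WithZero NumberField IsDedekindDomain H38RT
open H38T1 (SC sc scu rep rep_ne sc_rep sc_mul sc_eq_zero sc_surj eo la si Pri OddP tp unif ka)
open H76PP H36MX H76MQ H76MX H30ZO H76OD H88OD H30OD H36CY H30OR

namespace H88KF

variable {K L : Type} [Field K] [NumberField K] [Field L] [NumberField L] [Algebra K L]
  {a b : K} {θ : L}

private theorem C3_bil (p q r p' q' r' : ZMod 2) :
    (p + q + r) * (p' + q' + r') + (p + q) * (p' + q') + (p + r) * (p' + r') +
      (q + r) * (q' + r') + p * p' + q * q' + r * r' = 0 := by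
  revert p q r p' q' r'
  decide

private theorem C3_loc (h : Cub K L a b θ) (ha : ∀ v : HeightOneSpectrum (𝓞 K), v.valuation K a ≤ 1)
    (hb : ∀ v : HeightOneSpectrum (𝓞 K), v.valuation K b ≤ 1) {u : HeightOneSpectrum (𝓞 K)}
    (h2 : u.valuation K 2 = 1) (h3 : u.valuation K 3 = 1)
    (hd : u.valuation K (4 * a ^ 3 + 27 * b ^ 2) = 1) {x y z : SC L}
    (hx : x ∈ HH K L) (hy : y ∈ HH K L) (hz : z ∈ HH K L) :
    qv h u (x + y + z) + qv h u (x + y) + qv h u (x + z) + qv h u (y + z) + qv h u x + qv h u y +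
      qv h u z = 0 := by
  obtain ⟨A, rfl⟩ := Lt_int ha
  obtain ⟨B, rfl⟩ := Lt_int hb
  have hu0 : (unif u : K) ≠ 0 := by
    intro h0
    have h1 := H38T1.unif_spec u
    rw [h0, map_zero] at h1
    exact WithZero.exp_ne_zero h1.symm
  obtain ⟨m, r, w, -, hl, -⟩ := loc_all h (v := u) h2 h3 hd (D := 1) (E := unif u) one_ne_zero
    (by
      unfold ord
      rw [map_one, log_one, neg_zero]
      exact Even.zero) hu0
    (by
      unfold ord
      rw [H38T1.unif_spec, log_exp, neg_neg]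
      exact odd_one)
  have key : ∀ c ∈ HH K L, qv h u c = ∑ i, r i c * w i c := by
    intro c hc
    have h1 := (exists_rep h c).choose_spec
    exact hl.hq c hc _ h1.1 h1.2.1 h1.2.2.1 h1.2.2.2
  rw [key _ (add_mem (add_mem hx hy) hz), key _ (add_mem hx hy), key _ (add_mem hx hz),
    key _ (add_mem hy hz), key _ hx, key _ hy, key _ hz]
  simp only [map_add, ← Finset.sum_add_distrib]
  exact Finset.sum_eq_zero fun i _ => C3_bil _ _ _ _ _ _

private theorem C3_T (h : Cub K L a b θ) (ha : ∀ v : HeightOneSpectrum (𝓞 K), v.valuation K a ≤ 1)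
    (hb : ∀ v : HeightOneSpectrum (𝓞 K), v.valuation K b ≤ 1)
    (Sg : Finset (HeightOneSpectrum (𝓞 K))) (C : Finset (SC L)) (hC : ∀ c ∈ C, c ∈ HH K L) :
    ∃ T : Finset (HeightOneSpectrum (𝓞 K)), Disjoint Sg T ∧
      ∀ c ∈ C, ∀ u, u ∉ Sg → qv h u c ≠ 0 → u ∈ T := by
  have hf : (⋃ c ∈ (C : Set (SC L)), {u : HeightOneSpectrum (𝓞 K) | qv h u c ≠ 0}).Finite :=
    Set.Finite.biUnion (Finset.finite_toSet C)
      (fun c hc => qv_fin h ha hb (hC c (Finset.mem_coe.1 hc)))
  refine ⟨hf.toFinset.filter (fun u => u ∉ Sg), ?_, ?_⟩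
  · rw [Finset.disjoint_left]
    intro u hu hu2
    exact (Finset.mem_filter.1 hu2).2 hu
  · intro c hc u hu hq
    refine Finset.mem_filter.2 ⟨?_, hu⟩
    rw [Set.Finite.mem_toFinset]
    exact Set.mem_biUnion (Finset.mem_coe.2 hc) hq

theorem qv_quad (S : Ext K K L a b θ) (v : HeightOneSpectrum (𝓞 K)) {x y z : SC L}
    (hx : x ∈ HH K L) (hy : y ∈ HH K L) (hz : z ∈ HH K L) :
    qv (show Cub K L a b θ from S.cub) v (x + y + z) + qv (show Cub K L a b θ from S.cub) v (x + y) +
      qv (show Cub K L a b θ from S.cub) v (x + z) + qv (show Cub K L a b θ from S.cub) v (y + z) +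
      qv (show Cub K L a b θ from S.cub) v x + qv (show Cub K L a b θ from S.cub) v y +
      qv (show Cub K L a b θ from S.cub) v z = 0 := by
  have h : Cub K L a b θ := S.cub
  change qv h v (x + y + z) + qv h v (x + y) + qv h v (x + z) + qv h v (y + z) + qv h v x +
    qv h v y + qv h v z = 0
  have ha := S.ha
  have hb := S.hb
  obtain ⟨Sg, hSg⟩ : ∃ Sg : Finset (HeightOneSpectrum (𝓞 K)), ∀ u, u ∈ Sg ↔
      u = v ∨ u.valuation K 2 ≠ 1 ∨ u.valuation K 3 ≠ 1 ∨
        u.valuation K (4 * a ^ 3 + 27 * b ^ 2) ≠ 1 := by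
    have hf := (Set.finite_singleton v).union ((H38RT.fin_bad (K := K) two_ne_zero).union
      ((H38RT.fin_bad (K := K) three_ne_zero).union (H38RT.fin_bad (K := K) S.dne)))
    exact ⟨hf.toFinset, fun u => by rw [Set.Finite.mem_toFinset]; rfl⟩
  have hvS : v ∈ Sg := (hSg v).2 (Or.inl rfl)
  obtain ⟨x', hx', hxx, hx1, hx2⟩ := approx_HH h ha hb Sg v hx
  obtain ⟨y', hy', hyy, hy1, hy2⟩ := approx_HH h ha hb Sg v hy
  obtain ⟨z', hz', hzz, hz1, hz2⟩ := approx_HH h ha hb Sg v hz
  obtain ⟨P, hP⟩ : ∃ P : SC L → Prop, ∀ c, P c ↔ c ∈ HH K L ∧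
      (∀ u ∈ Sg, u ≠ v → c ∈ Sqv K L u) ∧ ∀ t : L →+* ℝ, si t c = 0 :=
    ⟨fun c => c ∈ HH K L ∧ (∀ u ∈ Sg, u ≠ v → c ∈ Sqv K L u) ∧ ∀ t : L →+* ℝ, si t c = 0,
      fun c => Iff.rfl⟩
  have hadd : ∀ c c' : SC L, P c → P c' → P (c + c') := by
    intro c c' h1 h2
    rw [hP] at h1 h2 ⊢
    exact ⟨add_mem h1.1 h2.1, fun u hu huv => add_mem (h1.2.1 u hu huv) (h2.2.1 u hu huv),
      fun t => by rw [H38T1.si_add, h1.2.2 t, h2.2.2 t, add_zero]⟩
  have px : P x' := (hP _).2 ⟨hx', hx1, hx2⟩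
  have py : P y' := (hP _).2 ⟨hy', hy1, hy2⟩
  have pz : P z' := (hP _).2 ⟨hz', hz1, hz2⟩
  obtain ⟨T, hdj, hT⟩ := C3_T h ha hb Sg
    ({x' + y' + z', x' + y', x' + z', y' + z', x', y', z'} : Finset (SC L)) (by
      intro c hc
      simp only [Finset.mem_insert, Finset.mem_singleton] at hc
      rcases hc with rfl | rfl | rfl | rfl | rfl | rfl | rfl
      · exact add_mem (add_mem hx' hy') hz'
      · exact add_mem hx' hy'
      · exact add_mem hx' hz'
      · exact add_mem hy' hz'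
      · exact hx'
      · exact hy'
      · exact hz')
  have hr : ∀ c ∈ ({x' + y' + z', x' + y', x' + z', y' + z', x', y', z'} : Finset (SC L)),
      P c → qv h v c = ∑ u ∈ T, qv h u c := by
    intro c hc hp
    rw [hP] at hp
    exact qv_rec S hvS hdj hp.1 hp.2.1 hp.2.2 (hT c hc)
  have exy : x + y + (x' + y') ∈ Sqv K L v := by
    have e : x + y + (x' + y') = (x + x') + (y + y') := by abel
    rw [e]
    exact add_mem hxx hyy
  have exz : x + z + (x' + z') ∈ Sqv K L v := by
    have e : x + z + (x' + z') = (x + x') + (z + z') := by abel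
    rw [e]
    exact add_mem hxx hzz
  have eyz : y + z + (y' + z') ∈ Sqv K L v := by
    have e : y + z + (y' + z') = (y + y') + (z + z') := by abel
    rw [e]
    exact add_mem hyy hzz
  have exyz : x + y + z + (x' + y' + z') ∈ Sqv K L v := by
    have e : x + y + z + (x' + y' + z') = (x + x') + (y + y') + (z + z') := by abel
    rw [e]
    exact add_mem (add_mem hxx hyy) hzz
  have cg : ∀ {c c' : SC L}, c ∈ HH K L → c' ∈ HH K L → c + c' ∈ Sqv K L v →
      qv h v c = qv h v c' := fun h1 h2 h3 => qv_congr h v (ha v) (hb v) h1 h2 h3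
  rw [cg (add_mem (add_mem hx hy) hz) (add_mem (add_mem hx' hy') hz') exyz,
    cg (add_mem hx hy) (add_mem hx' hy') exy, cg (add_mem hx hz) (add_mem hx' hz') exz,
    cg (add_mem hy hz) (add_mem hy' hz') eyz, cg hx hx' hxx, cg hy hy' hyy, cg hz hz' hzz,
    hr _ (by simp) (hadd _ _ (hadd _ _ px py) pz), hr _ (by simp) (hadd _ _ px py),
    hr _ (by simp) (hadd _ _ px pz), hr _ (by simp) (hadd _ _ py pz), hr _ (by simp) px,
    hr _ (by simp) py, hr _ (by simp) pz]
  simp only [← Finset.sum_add_distrib]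
  refine Finset.sum_eq_zero fun u hu => ?_
  have hu' : u ∉ Sg := Finset.disjoint_right.1 hdj hu
  rw [hSg] at hu'
  push Not at hu'
  exact C3_loc h ha hb hu'.2.1 hu'.2.2.1 hu'.2.2.2 hx' hy' hz'

end H88KF
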