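import Pool.Agent.H88.KF.Df

/-!
ROW D1 (MP_78d38b_KF), about 90 lines: the sizes of the local groups.

PROOF. card_HHv: `idx_HH` (Pool/Agent/H30/ZO/Aj.lean), `4 * X ≤ 4 ^ nb * qq ^ 2`, `nb ≥ 1` (`H30OR.nb_ge1`), `Mv ^ 2 = 4 ^ (nb - 1) * qq ^ 2`.
card_Wf: as in the proof of `loc_idx` (Pool/Agent/H30/ZO/Ci.lean): `idx_W`: `(D2 v a b).index ≤ (Sqv ⊓ HH).relIndex W`, `idx_D2`: `qq v * Nat.card (T2 v a b) ≤ (D2 v a b).index`, `nb_T2`: `2 ^ nb ≤ 2 * Nat.card (T2 v a b)`; for the twist by `D` reduce to an integral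
twist `D * t ^ 2` as in `loc_idx_tw` (Pool/Agent/H30/OD/Card2.lean).
-/

set_option autoImplicit false
set_option linter.unusedSectionVars false
open scoped Classical

open WithZero NumberField IsDedekindDomain H38RT
open H38T1 (SC sc scu rep rep_ne sc_rep sc_mul sc_eq_zero sc_surj eo la si Pri OddP tp unif ka)
open H76PP H36MX H76MQ H76MX H30ZO H76OD H88OD H30OD H36CY H30OR

namespace H88KF

variable {K L : Type} [Field K] [NumberField K] [Field L] [NumberField L] [Algebra K L]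
  {a b : K} {θ : L}

private theorem D1_qq (v : HeightOneSpectrum (𝓞 K)) : 0 < qq v := by
  unfold H30ZO.qq Nv
  refine pow_pos (Nat.pos_of_ne_zero ?_) _
  intro h0
  exact v.ne_bot (Ideal.absNorm_eq_zero_iff.1 h0)

/-- The integral case. -/
private theorem D1_int (h : Cub K L a b θ) (v : HeightOneSpectrum (𝓞 K))
    (ha : v.valuation K a ≤ 1) (hb : v.valuation K b ≤ 1) (hD : 4 * a ^ 3 + 27 * b ^ 2 ≠ 0)
    {W : AddSubgroup (SC L)}
    (hW : ∀ c, c ∈ W ↔ c ∈ HH K L ∧ Wc (algebraMap K (v.adicCompletion K)) a b θ c) :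
    Zv K L v ≤ W ∧ (Zv K L v).relIndex W ≠ 0 ∧ Mv K L v ≤ (Zv K L v).relIndex W := by
  have hSW : Zv K L v ≤ W := by
    intro c hc
    exact (hW c).2 ⟨hc.2, Sqv_le h v ha hb hD hc.1⟩
  have hWH : W ≤ HH K L := fun c hc => ((hW c).1 hc).1
  have hmul : (Zv K L v).relIndex W * W.relIndex (HH K L) = (Zv K L v).relIndex (HH K L) :=
    AddSubgroup.relIndex_mul_relIndex _ W (HH K L) hSW hWH
  obtain ⟨hX0, -⟩ := idx_HH h v ha hb
  change (Zv K L v).relIndex (HH K L) ≠ 0 at hX0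
  rw [← hmul] at hX0
  have hY0 : (Zv K L v).relIndex W ≠ 0 := left_ne_zero_of_mul hX0
  obtain ⟨hd0, hd⟩ := idx_W h v ha hb hD hW hY0
  change _ ≤ (Zv K L v).relIndex W at hd
  have hd2 : qq v * Nat.card (T2 v a b) ≤ (D2 v a b).index :=
    (idx_D2 v ha hb hD).resolve_left hd0
  obtain ⟨-, hnb⟩ := nb_T2 h v ha hb hD
  have hn1 := nb_ge1 K L v
  refine ⟨hSW, hY0, le_trans ?_ (hd2.trans hd)⟩
  unfold Mv
  rw [mul_comm]
  refine Nat.mul_le_mul_left _ ?_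
  obtain ⟨n, hn⟩ : ∃ n, nb K L v = n + 1 := ⟨nb K L v - 1, by omega⟩
  rw [hn, pow_succ] at hnb
  rw [hn, Nat.add_sub_cancel]
  omega

/-- The twists. -/
private theorem D1_tw (S : Ext K K L a b θ) (v : HeightOneSpectrum (𝓞 K)) {D : K} (hD : D ≠ 0) :
    Zv K L v ≤ Wf S v D ∧ (Zv K L v).relIndex (Wf S v D) ≠ 0 ∧
      Mv K L v ≤ (Zv K L v).relIndex (Wf S v D) := by
  obtain ⟨t, ht0, ht1, ht2⟩ := H76OD.Lt_small v D
  have hE' : D * t ^ 2 ≠ 0 := mul_ne_zero hD (pow_ne_zero 2 ht0)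
  have hv : v.valuation K (D * t ^ 2) ≤ 1 := by
    have e : D * t ^ 2 = t * D * t := by ring
    rw [e, map_mul]
    exact mul_le_one₀ ht2 zero_le ht1
  refine D1_int (Tf_twist (show Cub K L a b θ from S.cub) hE') v ?_ ?_
    (H76OD.Lt_dne hE' S.dne) (fun c => ?_)
  · rw [map_mul, map_pow]
    exact mul_le_one₀ (pow_le_one₀ zero_le hv) zero_le (S.ha v)
  · rw [map_mul, map_pow]
    exact mul_le_one₀ (pow_le_one₀ zero_le hv) zero_le (S.hb v)
  · rw [mem_Wf S v hD]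
    refine and_congr_right fun _ => ?_
    refine H76OD.Wc_tw_iff _ hD hE' ⟨algebraMap K (v.adicCompletion K) t, ?_⟩
    have e : D * t ^ 2 / D = t * t := by
      field_simp
    rw [e, map_mul]

theorem card_HHv (S : Ext K K L a b θ) (v : HeightOneSpectrum (𝓞 K)) :
    (Zv K L v).relIndex (HH K L) ≠ 0 ∧ (Zv K L v).relIndex (HH K L) ≤ Mv K L v ^ 2 := by
  obtain ⟨h1, h2⟩ := idx_HH (show Cub K L a b θ from S.cub) v (S.ha v) (S.hb v)
  refine ⟨h1, ?_⟩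
  have hn1 := nb_ge1 K L v
  obtain ⟨n, hn⟩ : ∃ n, nb K L v = n + 1 := ⟨nb K L v - 1, by omega⟩
  unfold Mv
  rw [hn] at h2
  rw [hn, Nat.add_sub_cancel]
  have h3 : 4 ^ (n + 1) * qq v ^ 2 = 4 * (2 ^ n * qq v) ^ 2 := by
    have h4 : (4 : ℕ) ^ n = (2 ^ n) ^ 2 := by
      rw [← pow_mul, mul_comm n 2, pow_mul]
      norm_num
    rw [pow_succ, h4]
    ring
  rw [h3] at h2
  exact Nat.le_of_mul_le_mul_left h2 (by norm_num)

theorem Zv_le (S : Ext K K L a b θ) (v : HeightOneSpectrum (𝓞 K)) {D : K} (hD : D ≠ 0) :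
    Zv K L v ≤ Wf S v D := by
  exact (D1_tw S v hD).1

theorem card_Wf (S : Ext K K L a b θ) (v : HeightOneSpectrum (𝓞 K)) {D : K} (hD : D ≠ 0) :
    (Zv K L v).relIndex (Wf S v D) ≠ 0 ∧ Mv K L v ≤ (Zv K L v).relIndex (Wf S v D) := by
  exact (D1_tw S v hD).2

theorem Mv_pos (K L : Type) [Field K] [NumberField K] [Field L] [NumberField L] [Algebra K L]
    (v : HeightOneSpectrum (𝓞 K)) : 0 < Mv K L v := by
  unfold Mv
  exact Nat.mul_pos (Nat.two_pow_pos _) (D1_qq v)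

end H88KF
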