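import Pool.Agent.H30.OR.Tl
import Pool.Agent.H76.GM.Wa

/-!
MP_78d38b_KF (helper88): the general parity formula for the two-Selmer ranks of the quadratic twists, with local terms at all the
bad places.  Definitions.
-/

set_option autoImplicit false
set_option linter.unusedSectionVars false
open scoped Classical

open WithZero NumberField IsDedekindDomain H38RT
open H38T1 (SC sc scu rep rep_ne sc_rep sc_mul sc_eq_zero sc_surj eo la si Pri OddP tp unif ka)
open H76PP H36MX H76MQ H76MX H30ZO H76OD H88OD H30OD H36CY H30OR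

namespace H88KF

variable {K L : Type} [Field K] [NumberField K] [Field L] [NumberField L] [Algebra K L]
  {a b : K} {θ : L}

/-- Representatives. -/
theorem exists_rep (h : Cub K L a b θ) (c : SC L) :
    ∃ y : L, y ≠ 0 ∧ sc y = c ∧ al h y ≠ 0 ∧ be h y ≠ 0 := by
  obtain ⟨y, hy, hyc⟩ := sc_surj c
  obtain ⟨Y, hY, ha, hb⟩ := exists_YX h hy
  refine ⟨y * Y ^ 2, mul_ne_zero hy (pow_ne_zero 2 hY), ?_, ha, hb⟩
  rw [sc_mul hy (pow_ne_zero 2 hY), H54MT.sc_sq hY, add_zero, hyc]

/-- The quadratic form at `v`. -/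
noncomputable def qv (h : Cub K L a b θ) (v : HeightOneSpectrum (𝓞 K)) (c : SC L) : ZMod 2 :=
  hsv v (al h (exists_rep h c).choose) (be h (exists_rep h c).choose)

/-- The classes of square norm which are locally trivial at `v`. -/
noncomputable def Zv (K L : Type) [Field K] [NumberField K] [Field L] [NumberField L] [Algebra K L]
    (v : HeightOneSpectrum (𝓞 K)) : AddSubgroup (SC L) := Sqv K L v ⊓ HH K L

/-- The size of the local conditions. -/
noncomputable def Mv (K L : Type) [Field K] [NumberField K] [Field L] [NumberField L] [Algebra K L]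
    (v : HeightOneSpectrum (𝓞 K)) : ℕ := 2 ^ (nb K L v - 1) * qq v

theorem exists_Wf (S : Ext K K L a b θ) (v : HeightOneSpectrum (𝓞 K)) {D : K} (hD : D ≠ 0) :
    ∃ W : AddSubgroup (SC L), ∀ c, c ∈ W ↔ c ∈ HH K L ∧ S.Lv D v c := by
  have hDE := H76OD.Lt_dne hD S.dne
  have hE2 := Tf_twist (show Cub K L a b θ from S.cub) hD
  have _ := H36CY.char_zero v
  refine exists_WW hE2 _ ?_ (H24PD.inf_fin v _ _)
  intro e
  apply hDE
  apply (algebraMap K (v.adicCompletion K)).injective
  rw [map_zero, map_add, map_mul, map_mul, map_pow, map_pow, map_ofNat, map_ofNat]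
  exact e

/-- The local condition of the twist by `D` at `v`. -/
noncomputable def Wf (S : Ext K K L a b θ) (v : HeightOneSpectrum (𝓞 K)) (D : K) :
    AddSubgroup (SC L) :=
  if hD : D ≠ 0 then (exists_Wf S v hD).choose else ⊥

theorem mem_Wf (S : Ext K K L a b θ) (v : HeightOneSpectrum (𝓞 K)) {D : K} (hD : D ≠ 0) {c : SC L} :
    c ∈ Wf S v D ↔ c ∈ HH K L ∧ S.Lv D v c := by
  unfold Wf
  rw [dif_pos hD]
  exact (exists_Wf S v hD).choose_spec c

/-- The local number at `v`. -/
noncomputable def tv (S : Ext K K L a b θ) (v : HeightOneSpectrum (𝓞 K)) (D E : K) : ℕ :=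
  Mv K L v * (Zv K L v).relIndex (Wf S v D ⊓ Wf S v E)

/-- The local term at `v`. -/
noncomputable def lt (S : Ext K K L a b θ) (v : HeightOneSpectrum (𝓞 K)) (D E : K) : ZMod 2 :=
  (Nat.log 2 (tv S v D E) : ZMod 2) + hsv v (-(4 * a ^ 3 + 27 * b ^ 2)) (D * E)

/-- The parity of the two-Selmer rank of the twist by `D`. -/
noncomputable def pr (S : Ext K K L a b θ) (D : K) : ZMod 2 :=
  (Nat.log 2 (Nat.card {c : SC L // S.V D c}) : ZMod 2)

end H88KF
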