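import Pool.Agent.H88.KF.Df

/-!
ROW E1 (MP_78d38b_KF), about 100 lines: the lower bound for the group with no condition at the places of `Sg` (in addition to `T` and `Q`).

PROOF. As card_twR and card_YQ in Pool/Agent/H88/PL/Cr.lean, but without the conditions at `Sg`: `X := US L {w | dn K w ∈ Sg ∪ T} ⊓ HH`, `card_X h (Sg ∪ T)` and `places_count` give `Nat.card X * 2 ^ (Sg ∪ T).card = 2 ^ (∑ v ∈ Sg ∪ T, nb v) * 2 ^ n * 2 ^ t`, `2 ^ n = ∏ v ∈ Sg, qq v` (`prod_two Sg h2`),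
so `Nat.card X = (∏ v ∈ Sg, Mv K L v) * 2 ^ (∑ v ∈ T, m v) * 2 ^ t` (`nb ≥ 1`, `nb_ge1`).  The conditions at the real places `s ∉ Q` cost at most `∏ (Wr s).relIndex HH ≤ 2 ^ (t - card Q)` (`real_idx`: index at most two, and one if `nr = 1`; all `s ∈ Q` have `nr = 3`).
`Y ⊇ X ⊓ ⨅ Wr s` (see hYX there), finiteness as there.
-/

set_option autoImplicit false
set_option linter.unusedSectionVars false
open scoped Classical

open WithZero NumberField IsDedekindDomain H38RT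
open H38T1 (SC sc scu rep rep_ne sc_rep sc_mul sc_eq_zero sc_surj eo la si Pri OddP tp unif ka)
open H76PP H36MX H76MQ H76MX H30ZO H76OD H88OD H30OD H36CY H30OR

namespace H88KF

variable {K L : Type} [Field K] [NumberField K] [Field L] [NumberField L] [Algebra K L]
  {a b : K} {θ : L}

private theorem E1_core {k L : Type} [Field k] [NumberField k] [Field L] [NumberField L] [Algebra k L]
    {a b : k} {θ : L} (h : Cub k L a b θ)
    (hD : 4 * a ^ 3 + 27 * b ^ 2 ≠ 0) {E : k} (hE : E ≠ 0)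
    {Sg T : Finset (HeightOneSpectrum (𝓞 k))} (hd : Disjoint Sg T)
    (h2 : ∀ v : HeightOneSpectrum (𝓞 k), v.valuation k 2 < 1 → v ∈ Sg)
    {m : HeightOneSpectrum (𝓞 k) → ℕ} (hT : ∀ v ∈ T, nb k L v = m v + 1)
    {Q : Finset (k →+* ℝ)} (hQ : ∀ s ∈ Q, nr k L s = 3) {W : AddSubgroup (SC L)}
    (hW : ∀ c, c ∈ W ↔ c ∈ HH k L ∧
      ∀ s : k →+* ℝ, s ∉ Q → Wc s (E ^ 2 * a) (E ^ 3 * b) (algebraMap k L E * θ) c) :
    W.relIndex (HH k L) ≠ 0 ∧
      (∏ v ∈ Sg, Mv k L v) * 2 ^ ((∑ v ∈ T, m v) + Q.card) * W.relIndex (HH k L) ≤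
        Nat.card ↥(H24TD.US L {w : HeightOneSpectrum (𝓞 L) | dn k w ∈ Sg ∪ T} ⊓ HH k L) ∧
      Finite ↥(H24TD.US L {w : HeightOneSpectrum (𝓞 L) | dn k w ∈ Sg ∪ T} ⊓ HH k L) := by
  have hDE := H76OD.Lt_dne hE hD
  have hE2 := Tf_twist h hE
  have hWs : ∀ s : k →+* ℝ, ∃ W : AddSubgroup (SC L), ∀ c, c ∈ W ↔
      c ∈ HH k L ∧ Wc s (E ^ 2 * a) (E ^ 3 * b) (algebraMap k L E * θ) c := by
    intro s
    refine exists_WW hE2 s ?_ (H24PD.inf_real _ _)
    intro e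
    apply hDE
    apply s.injective
    rw [map_zero, map_add, map_mul, map_mul, map_pow, map_pow, map_ofNat, map_ofNat]
    exact e
  choose Wr hWr using hWs
  obtain ⟨X, hX⟩ : ∃ X : AddSubgroup (SC L),
      X = H24TD.US L {w : HeightOneSpectrum (𝓞 L) | dn k w ∈ Sg ∪ T} ⊓ HH k L := ⟨_, rfl⟩
  have hcX := card_X h (Sg ∪ T)
  rw [← hX] at hcX ⊢
  have hX0 : Nat.card X ≠ 0 := by
    intro h0
    rw [h0, zero_mul] at hcX
    exact (pow_ne_zero _ two_ne_zero) hcX.symm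
  have hXf : Finite X := Nat.finite_of_card_ne_zero hX0
  obtain ⟨n, hn⟩ : ∃ n, n = Module.finrank ℚ k := ⟨_, rfl⟩
  obtain ⟨t, ht⟩ : ∃ t, t = Nat.card {s : k →+* ℝ // nr k L s = 3} := ⟨_, rfl⟩
  have hplc := places_count h hD
  rw [← hn, ← ht] at hplc
  have hreI : ∀ s : k →+* ℝ, (Wr s).relIndex (HH k L) ≠ 0 ∧
      2 * (Wr s).relIndex (HH k L) ≤ nr k L s + 1 :=
    fun s => real_idx hE2 hDE s (hWr s)
  have hqq : ∏ v ∈ Sg, qq v = 2 ^ n := by
    rw [hn]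
    exact prod_two Sg h2
  have hP2 : 2 ^ Q.card * ∏ s : {s : k →+* ℝ // s ∉ Q}, (Wr s.1).relIndex (HH k L) ≤ 2 ^ t := by
    obtain ⟨g, hg⟩ : ∃ g : (k →+* ℝ) → ℕ, ∀ s, g s = if nr k L s = 3 then 2 else 1 :=
      ⟨fun s => if nr k L s = 3 then 2 else 1, fun _ => rfl⟩
    have h1 : ∏ s : {s : k →+* ℝ // s ∉ Q}, (Wr s.1).relIndex (HH k L) ≤
        ∏ s : {s : k →+* ℝ // s ∉ Q}, g s.1 := by
      refine Finset.prod_le_prod (fun s _ => Nat.zero_le _) (fun s _ => ?_)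
      have h2 := (hreI s.1).2
      rw [hg]
      rcases nr_cases h hD s.1 with h3 | h3
      · rw [h3] at h2
        rw [h3]
        simp only [OfNat.one_ne_ofNat, if_false]
        omega
      · rw [h3] at h2
        rw [h3, if_pos rfl]
        omega
    have h2 : ∏ s : {s : k →+* ℝ // s ∈ Q}, g s.1 = 2 ^ Q.card := by
      have h3 : ∀ s : {s : k →+* ℝ // s ∈ Q}, g s.1 = 2 := fun s => by
        rw [hg, if_pos (hQ s.1 s.2)]
      simp only [h3, Finset.prod_const, Finset.card_univ, Fintype.card_coe]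
    have h3 := Fintype.prod_subtype_mul_prod_subtype (fun s : k →+* ℝ => s ∈ Q) g
    have h4 : ∏ s : k →+* ℝ, g s = 2 ^ t := by
      simp only [hg]
      rw [Finset.prod_ite, Finset.prod_const_one, mul_one, Finset.prod_const, ht,
        Nat.card_eq_fintype_card, Fintype.card_subtype]
    rw [← h4, ← h3, ← h2]
    refine Nat.mul_le_mul (le_of_eq ?_) (h1.trans (le_of_eq ?_))
    · exact Finset.prod_congr (Finset.ext fun x => by simp only [Finset.mem_univ]) fun _ _ => rfl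
    · exact Finset.prod_congr (Finset.ext fun x => by simp only [Finset.mem_univ]) fun _ _ => rfl
  have hZ : W = (⨅ s : {s : k →+* ℝ // s ∉ Q}, Wr s.1) ⊓ HH k L := by
    ext c
    rw [hW c, AddSubgroup.mem_inf, AddSubgroup.mem_iInf]
    constructor
    · rintro ⟨c1, c3⟩
      exact ⟨fun s => (hWr s.1 c).2 ⟨c1, c3 s.1 s.2⟩, c1⟩
    · rintro ⟨c1, c2⟩
      exact ⟨c2, fun s hs => ((hWr s c).1 (c1 ⟨s, hs⟩)).2⟩
  have hrel : W.relIndex (HH k L) =
      (⨅ s : {s : k →+* ℝ // s ∉ Q}, Wr s.1).relIndex (HH k L) := by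
    rw [hZ, AddSubgroup.inf_relIndex_right]
  have hidx : W.relIndex (HH k L) ≤
      ∏ s : {s : k →+* ℝ // s ∉ Q}, (Wr s.1).relIndex (HH k L) := by
    rw [hrel]
    exact AddSubgroup.relIndex_iInf_le _
  have hne : W.relIndex (HH k L) ≠ 0 := by
    rw [hrel]
    exact AddSubgroup.relIndex_iInf_ne_zero fun s => (hreI s.1).1
  refine ⟨hne, ?_, hXf⟩
  have hMv : (∏ v ∈ Sg, Mv k L v) * 2 ^ Sg.card = 2 ^ (∑ v ∈ Sg, nb k L v) * 2 ^ n := by
    rw [← hqq, ← Finset.prod_pow_eq_pow_sum, ← Finset.prod_mul_distrib, ← Finset.prod_const,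
      ← Finset.prod_mul_distrib]
    refine Finset.prod_congr rfl fun v _ => ?_
    have h1 := nb_ge1 k L v
    obtain ⟨q, hq⟩ : ∃ q, nb k L v = q + 1 := ⟨nb k L v - 1, by omega⟩
    unfold Mv
    rw [hq, Nat.add_sub_cancel, pow_succ]
    ring
  have hnb : ∑ v ∈ Sg ∪ T, nb k L v = (∑ v ∈ Sg, nb k L v) + ((∑ v ∈ T, m v) + T.card) := by
    rw [Finset.sum_union hd]
    congr 1
    rw [Finset.sum_congr rfl hT, Finset.sum_add_distrib, Finset.sum_const, smul_eq_mul, mul_one]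
  have hSc : (Sg ∪ T).card = Sg.card + T.card := Finset.card_union_of_disjoint hd
  have h1 : Nat.card X * 2 ^ (Sg ∪ T).card = 2 ^ (∑ v ∈ Sg ∪ T, nb k L v) * 2 ^ n * 2 ^ t := by
    have h2 : Nat.card X * 2 ^ (Sg ∪ T).card *
        2 ^ (InfinitePlace.nrRealPlaces k + InfinitePlace.nrComplexPlaces k) =
        2 ^ (∑ v ∈ Sg ∪ T, nb k L v) * 2 ^ n * 2 ^ t *
        2 ^ (InfinitePlace.nrRealPlaces k + InfinitePlace.nrComplexPlaces k) := by
      rw [mul_assoc, ← pow_add, hcX, hplc, ← pow_add, ← pow_add, ← pow_add]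
      congr 1
      omega
    exact Nat.eq_of_mul_eq_mul_right (pow_pos two_pos _) h2
  refine Nat.le_of_mul_le_mul_right (c := 2 ^ (Sg ∪ T).card) ?_ (pow_pos two_pos _)
  rw [h1]
  calc (∏ v ∈ Sg, Mv k L v) * 2 ^ ((∑ v ∈ T, m v) + Q.card) * W.relIndex (HH k L) *
        2 ^ (Sg ∪ T).card
      ≤ (∏ v ∈ Sg, Mv k L v) * 2 ^ ((∑ v ∈ T, m v) + Q.card) *
          (∏ s : {s : k →+* ℝ // s ∉ Q}, (Wr s.1).relIndex (HH k L)) * 2 ^ (Sg ∪ T).card :=
        Nat.mul_le_mul_right _ (Nat.mul_le_mul_left _ hidx)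
    _ = 2 ^ ((∑ v ∈ T, m v) + T.card) * ((∏ v ∈ Sg, Mv k L v) * 2 ^ Sg.card) *
          (2 ^ Q.card * ∏ s : {s : k →+* ℝ // s ∉ Q}, (Wr s.1).relIndex (HH k L)) := by
        rw [hSc, pow_add, pow_add, pow_add]
        ring
    _ ≤ 2 ^ ((∑ v ∈ T, m v) + T.card) * ((∏ v ∈ Sg, Mv k L v) * 2 ^ Sg.card) * 2 ^ t :=
        Nat.mul_le_mul_left _ hP2
    _ = 2 ^ (∑ v ∈ Sg ∪ T, nb k L v) * 2 ^ n * 2 ^ t := by
        rw [hMv, hnb, pow_add]
        ring

theorem card_YS (S : Ext K K L a b θ) {D : K} (hD : D ≠ 0)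
    {Sg T : Finset (HeightOneSpectrum (𝓞 K))}
    (h2 : ∀ v : HeightOneSpectrum (𝓞 K), v.valuation K 2 < 1 → v ∈ Sg) (hd : Disjoint Sg T)
    {m : HeightOneSpectrum (𝓞 K) → ℕ} (hT : ∀ v ∈ T, nb K L v = m v + 1)
    {Q : Finset (K →+* ℝ)} (hQ : ∀ s ∈ Q, nr K L s = 3) {Y : AddSubgroup (SC L)}
    (hY : ∀ c, c ∈ Y ↔ c ∈ HH K L ∧ (∀ s : K →+* ℝ, s ∉ Q → S.Lr D s c) ∧
      ∀ w : HeightOneSpectrum (𝓞 L), dn K w ∉ Sg → dn K w ∉ T → eo w c = 0) :
    Finite Y ∧ (∏ v ∈ Sg, Mv K L v) * 2 ^ ((∑ v ∈ T, m v) + Q.card) ≤ Nat.card Y := by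
  have hDE : algebraMap K K D ≠ 0 := (map_ne_zero _).2 hD
  obtain ⟨W, hW⟩ : ∃ W : AddSubgroup (SC L), ∀ c, c ∈ W ↔ c ∈ HH K L ∧
      ∀ s : K →+* ℝ, s ∉ Q → Wc s ((algebraMap K K D) ^ 2 * algebraMap K K a)
        ((algebraMap K K D) ^ 3 * algebraMap K K b) (algebraMap K L (algebraMap K K D) * θ) c := by
    have hD0 := dne_F S
    have hDE' := H76OD.Lt_dne hDE hD0
    have hE2 := Tf_twist S.cub hDE
    have hWs : ∀ s : K →+* ℝ, ∃ W : AddSubgroup (SC L), ∀ c, c ∈ W ↔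
        c ∈ HH K L ∧ Wc s ((algebraMap K K D) ^ 2 * algebraMap K K a)
          ((algebraMap K K D) ^ 3 * algebraMap K K b)
          (algebraMap K L (algebraMap K K D) * θ) c := by
      intro s
      refine exists_WW hE2 s ?_ (H24PD.inf_real _ _)
      intro e
      apply hDE'
      apply s.injective
      rw [map_zero, map_add, map_mul, map_mul, map_pow, map_pow, map_ofNat, map_ofNat]
      exact e
    choose Wr hWr using hWs
    refine ⟨(⨅ s : {s : K →+* ℝ // s ∉ Q}, Wr s.1) ⊓ HH K L, ?_⟩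
    intro c
    rw [AddSubgroup.mem_inf, AddSubgroup.mem_iInf]
    constructor
    · rintro ⟨c1, c2⟩
      exact ⟨c2, fun s hs => ((hWr s c).1 (c1 ⟨s, hs⟩)).2⟩
    · rintro ⟨c1, c3⟩
      exact ⟨fun s => (hWr s.1 c).2 ⟨c1, c3 s.1 s.2⟩, c1⟩
  have key := E1_core S.cub (k := K) (a := algebraMap K K a) (b := algebraMap K K b)
    (dne_F S) hDE hd h2 hT hQ hW
  obtain ⟨k1, k2, k3⟩ := key
  obtain ⟨X, hX⟩ : ∃ X : AddSubgroup (SC L),
      X = H24TD.US L {w : HeightOneSpectrum (𝓞 L) | dn K w ∈ Sg ∪ T} ⊓ HH K L := ⟨_, rfl⟩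
  rw [← hX] at k2 k3
  have hXH : X ≤ HH K L := by
    rw [hX]
    exact inf_le_right
  have hYX : W ⊓ X ≤ Y := by
    intro c hc
    obtain ⟨c1, c2⟩ := AddSubgroup.mem_inf.1 hc
    obtain ⟨h1, h3⟩ := (hW c).1 c1
    refine (hY c).2 ⟨h1, fun s hs => (Lr_iff S D s c).2 (h3 s hs), ?_⟩
    intro w hw1 hw2
    rw [hX] at c2
    obtain ⟨u, hu, rfl⟩ := (AddSubgroup.mem_inf.1 c2).1
    rw [H24TD.cls_eq, H38T1.eo_sc (Units.ne_zero _)]
    have h4 : w.valuation L ((Additive.toMul u : Lˣ) : L) = 1 := by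
      refine hu w ?_
      intro h5
      have h6 : dn K w ∈ Sg ∪ T := h5
      rw [Finset.mem_union] at h6
      rcases h6 with h6 | h6
      · exact hw1 h6
      · exact hw2 h6
    rw [ord, h4, log_one, neg_zero, Int.cast_zero]
  have hYf : Finite Y := by
    have hSL : {w : HeightOneSpectrum (𝓞 L) | dn K w ∈ Sg ∪ T}.Finite := by
      have h1 : {w : HeightOneSpectrum (𝓞 L) | dn K w ∈ Sg ∪ T} =
          ⋃ v ∈ Sg ∪ T, {w : HeightOneSpectrum (𝓞 L) | dn K w = v} := by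
        ext w
        simp
      rw [h1]
      exact (Sg ∪ T).finite_toSet.biUnion fun v _ => fin_above v
    have h2 := H24TD.fin_US hSL
    have h3 : (Y : Set (SC L)) ⊆ {c : SC L |
        ∀ w, w ∉ {w : HeightOneSpectrum (𝓞 L) | dn K w ∈ Sg ∪ T} → eo w c = 0} := by
      intro c hc w hw
      have hw' : dn K w ∉ Sg ∪ T := hw
      rw [Finset.mem_union, not_or] at hw'
      exact ((hY c).1 hc).2.2 w hw'.1 hw'.2
    exact (h2.subset h3).to_subtype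
  refine ⟨hYf, ?_⟩
  have hcard2 : Nat.card X = Nat.card ↥(W ⊓ X : AddSubgroup (SC L)) * W.relIndex X := by
    have h1 := AddSubgroup.relIndex_mul_relIndex (⊥ : AddSubgroup (SC L)) (W ⊓ X) X bot_le
      inf_le_right
    rw [AddSubgroup.relIndex_bot_left, AddSubgroup.relIndex_bot_left,
      AddSubgroup.inf_relIndex_right] at h1
    exact h1.symm
  have hle : Nat.card ↥(W ⊓ X : AddSubgroup (SC L)) ≤ Nat.card Y :=
    Nat.card_le_card_of_injective (AddSubgroup.inclusion hYX) (AddSubgroup.inclusion_injective hYX)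
  have h5 : W.relIndex X ≤ W.relIndex (HH K L) := AddSubgroup.relIndex_le_of_le_right hXH k1
  have h6 : (∏ v ∈ Sg, Mv K L v) * 2 ^ ((∑ v ∈ T, m v) + Q.card) * W.relIndex (HH K L) ≤
      Nat.card Y * W.relIndex (HH K L) := by
    refine k2.trans ?_
    rw [hcard2]
    exact Nat.mul_le_mul hle h5
  exact Nat.le_of_mul_le_mul_right h6 (Nat.pos_of_ne_zero k1)

end H88KF
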