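import Pool.Agent.H88.KF.C3
import Pool.Agent.H88.KF.D1

/-!
ROW F0 (MP_78d38b_KF), about 130 lines: the local package: the product of the local groups at the places of `Sg`.  Use only the STATEMENTS of B2, C3, D1.

PROOF. `G v := (HH K L) ⧸ (Zv K L v).addSubgroupOf (HH K L)`, `U := ∀ v : {v // v ∈ Sg}, G v` (finite: `card_HHv`; `relIndex` is the index of `addSubgroupOf`; `AddSubgroup.index_eq_card`), `loc c v := mk c`.
`q x := ∑ v, qv (rep of x v)` with `Quotient.out`: `qv h v c` depends only on `mk c` (`qv_congr`: the difference is in `Sqv`; `-c = c`).  `x + x = 0`: `c + c = 0` in `SC L` (`H30OR.add_self_SC`).  Quadratic: `qv_quad` at every `v` (representatives of the sums).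
`A := AddSubgroup.pi Set.univ (fun v => ((Wf S v D).addSubgroupOf HH).map (mk' _))`, `loc c ∈ A ↔ ∀ v, S.Lv D v c`: `Zv ≤ Wf` (`Zv_le`), `mem_Wf`.  `q = 0` on `A`: `qv_iso`.
`Nat.card A = ∏ v, (Zv).relIndex (Wf S v D)` (the image of a subgroup `W ⊇ Z` in the quotient has `Z.relIndex W` elements), `card_Wf`.  `A ⊓ A'`: the same with `Wf S v D ⊓ Wf S v E` (`map` of the intersection since both contain the kernel).
`Nat.card U = ∏ v, (Zv).relIndex HH ≤ ∏ Mv ^ 2` (`Nat.card_pi`, `Finset.prod_coe_sort`, `Finset.prod_pow`).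
-/

set_option autoImplicit false
set_option linter.unusedSectionVars false
open scoped Classical

open WithZero NumberField IsDedekindDomain H38RT
open H38T1 (SC sc scu rep rep_ne sc_rep sc_mul sc_eq_zero sc_surj eo la si Pri OddP tp unif ka)
open H76PP H36MX H76MQ H76MX H30ZO H76OD H88OD H30OD H36CY H30OR

namespace H88KF

variable {K L : Type} [Field K] [NumberField K] [Field L] [NumberField L] [Algebra K L]
  {a b : K} {θ : L}

private theorem F0_mem {H : Type} [AddCommGroup H] (N W : AddSubgroup H) (hW : N ≤ W) (c : H) :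
    (QuotientAddGroup.mk c : H ⧸ N) ∈ W.map (QuotientAddGroup.mk' N) ↔ c ∈ W := by
  constructor
  · rintro ⟨w, hw, hwc⟩
    have h1 : (QuotientAddGroup.mk w : H ⧸ N) = QuotientAddGroup.mk c := hwc
    rw [QuotientAddGroup.eq] at h1
    have h2 := W.add_mem hw (hW h1)
    rwa [add_neg_cancel_left] at h2
  · intro hc
    exact ⟨c, hc, rfl⟩

private theorem F0_card {H : Type} [AddCommGroup H] (N W : AddSubgroup H) :
    Nat.card (W.map (QuotientAddGroup.mk' N)) = N.relIndex W := by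
  rw [← AddSubgroup.relIndex_ker, QuotientAddGroup.ker_mk']

private theorem F0_pi {ι : Type} [Fintype ι] {G : ι → Type} [∀ i, AddCommGroup (G i)]
    (B : ∀ i, AddSubgroup (G i)) :
    Nat.card (AddSubgroup.pi Set.univ B) = ∏ i, Nat.card (B i) := by
  rw [← Nat.card_pi]
  refine Nat.card_congr ⟨fun x i => ⟨x.1 i, x.2 i (Set.mem_univ i)⟩, fun y => ⟨fun i => (y i).1,
    fun i _ => (y i).2⟩, fun x => rfl, fun y => rfl⟩

/-- The abstract package. -/
private theorem F0_abs {ι : Type} [Fintype ι] {H : Type} [AddCommGroup H]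
    (N W W' : ι → AddSubgroup H) (hW : ∀ i, N i ≤ W i) (hW' : ∀ i, N i ≤ W' i)
    (hN : ∀ i, (N i).index ≠ 0) (M : ι → ℕ) (hM : ∀ i, (N i).index ≤ M i ^ 2)
    (hMW : ∀ i, M i ≤ (N i).relIndex (W i)) (hMW' : ∀ i, M i ≤ (N i).relIndex (W' i))
    (h2 : ∀ x : H, x + x = 0) (Q : ι → H → ZMod 2)
    (hQ : ∀ i x y, x + y ∈ N i → Q i x = Q i y)
    (hquad : ∀ i x y z, Q i (x + y + z) + Q i (x + y) + Q i (x + z) + Q i (y + z) + Q i x + Q i y +
      Q i z = 0) (hQW : ∀ i, ∀ x ∈ W i, Q i x = 0) (hQW' : ∀ i, ∀ x ∈ W' i, Q i x = 0) :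
    ∃ (U : Type) (_ : AddCommGroup U) (_ : Finite U) (loc : H →+ U) (q : U → ZMod 2)
      (A A' : AddSubgroup U), (∀ x : U, x + x = 0) ∧
      (∀ x y z, q (x + y + z) + q (x + y) + q (x + z) + q (y + z) + q x + q y + q z = 0) ∧
      (∀ c : H, q (loc c) = ∑ i, Q i c) ∧
      Nat.card U ≤ (∏ i, M i) ^ 2 ∧
      (∀ c : H, loc c ∈ A ↔ ∀ i, c ∈ W i) ∧
      (∀ c : H, loc c ∈ A' ↔ ∀ i, c ∈ W' i) ∧
      (∀ x ∈ A, q x = 0) ∧ (∀ x ∈ A', q x = 0) ∧ ∏ i, M i ≤ Nat.card A ∧
      ∏ i, M i ≤ Nat.card A' ∧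
      Nat.card (A ⊓ A' : AddSubgroup U) = ∏ i, (N i).relIndex (W i ⊓ W' i) := by
  have hfin : ∀ i, Finite (H ⧸ N i) := fun i => by
    have : (N i).FiniteIndex := ⟨hN i⟩
    exact AddSubgroup.finite_quotient_of_finiteIndex
  have hsurj : ∀ i, Function.Surjective (QuotientAddGroup.mk : H → H ⧸ N i) := fun i =>
    QuotientAddGroup.mk_surjective
  obtain ⟨R, hR⟩ : ∃ R : ∀ i, H ⧸ N i → H, ∀ i x, (QuotientAddGroup.mk (R i x) : H ⧸ N i) = x :=
    ⟨fun i => Function.surjInv (hsurj i), fun i x => Function.surjInv_eq (hsurj i) x⟩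
  have hneg : ∀ x : H, -x = x := fun x => neg_eq_of_add_eq_zero_left (h2 x)
  have hRQ : ∀ i (c : H), Q i (R i (QuotientAddGroup.mk c)) = Q i c := by
    intro i c
    have h1 := hR i (QuotientAddGroup.mk c)
    rw [QuotientAddGroup.eq, hneg] at h1
    exact hQ i _ _ h1
  have hcard : ∀ (B : ∀ i, AddSubgroup H), Nat.card (AddSubgroup.pi Set.univ
      (fun i => (B i).map (QuotientAddGroup.mk' (N i)))) = ∏ i, (N i).relIndex (B i) := by
    intro B
    rw [F0_pi]
    exact Finset.prod_congr rfl fun i _ => F0_card (N i) (B i)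
  have hmem : ∀ (B : ∀ i, AddSubgroup H) (hB : ∀ i, N i ≤ B i) (x : ∀ i, H ⧸ N i),
      x ∈ AddSubgroup.pi Set.univ (fun i => (B i).map (QuotientAddGroup.mk' (N i))) ↔
      ∀ i, R i (x i) ∈ B i := by
    intro B hB x
    rw [AddSubgroup.mem_pi]
    constructor
    · intro h i
      have h1 := h i (Set.mem_univ i)
      rw [← hR i (x i)] at h1
      exact (F0_mem (N i) (B i) (hB i) _).1 h1
    · intro h i _
      rw [← hR i (x i)]
      exact (F0_mem (N i) (B i) (hB i) _).2 (h i)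
  have hloc : ∀ (B : ∀ i, AddSubgroup H) (hB : ∀ i, N i ≤ B i) (c : H),
      (fun i => (QuotientAddGroup.mk c : H ⧸ N i)) ∈
        AddSubgroup.pi Set.univ (fun i => (B i).map (QuotientAddGroup.mk' (N i))) ↔
      ∀ i, c ∈ B i := by
    intro B hB c
    rw [AddSubgroup.mem_pi]
    constructor
    · intro h i
      exact (F0_mem (N i) (B i) (hB i) _).1 (h i (Set.mem_univ i))
    · intro h i _
      exact (F0_mem (N i) (B i) (hB i) _).2 (h i)
  refine ⟨∀ i, H ⧸ N i, inferInstance, inferInstance,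
    { toFun := fun c i => QuotientAddGroup.mk c
      map_zero' := rfl
      map_add' := fun _ _ => rfl }, fun x => ∑ i, Q i (R i (x i)),
    AddSubgroup.pi Set.univ (fun i => (W i).map (QuotientAddGroup.mk' (N i))),
    AddSubgroup.pi Set.univ (fun i => (W' i).map (QuotientAddGroup.mk' (N i))),
    ?_, ?_, ?_, ?_, ?_, ?_, ?_, ?_, ?_, ?_, ?_⟩
  · intro x
    funext i
    obtain ⟨c, hc⟩ := hsurj i (x i)
    rw [Pi.add_apply, ← hc, ← QuotientAddGroup.mk_add, h2]
    rfl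
  · intro x y z
    simp only [← Finset.sum_add_distrib]
    refine Finset.sum_eq_zero fun i _ => ?_
    obtain ⟨c, hc⟩ := hsurj i (x i)
    obtain ⟨d, hd⟩ := hsurj i (y i)
    obtain ⟨e, he⟩ := hsurj i (z i)
    simp only [Pi.add_apply]
    rw [← hc, ← hd, ← he]
    simp only [← QuotientAddGroup.mk_add]
    simp only [hRQ]
    exact hquad i c d e
  · intro c
    exact Finset.sum_congr rfl fun i _ => hRQ i c
  · rw [Nat.card_pi, ← Finset.prod_pow]
    exact Finset.prod_le_prod' fun i _ => hM i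
  · intro c
    exact hloc W hW c
  · intro c
    exact hloc W' hW' c
  · intro x hx
    exact Finset.sum_eq_zero fun i _ => hQW i _ ((hmem W hW x).1 hx i)
  · intro x hx
    exact Finset.sum_eq_zero fun i _ => hQW' i _ ((hmem W' hW' x).1 hx i)
  · rw [hcard W]
    exact Finset.prod_le_prod' fun i _ => hMW i
  · rw [hcard W']
    exact Finset.prod_le_prod' fun i _ => hMW' i
  · rw [← hcard (fun i => W i ⊓ W' i)]
    congr 1
    have : (AddSubgroup.pi Set.univ (fun i => (W i).map (QuotientAddGroup.mk' (N i))) ⊓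
        AddSubgroup.pi Set.univ (fun i => (W' i).map (QuotientAddGroup.mk' (N i)))) =
        AddSubgroup.pi Set.univ (fun i => (W i ⊓ W' i).map (QuotientAddGroup.mk' (N i))) := by
      ext x
      rw [AddSubgroup.mem_inf, hmem W hW, hmem W' hW',
        hmem (fun i => W i ⊓ W' i) (fun i => le_inf (hW i) (hW' i))]
      constructor
      · intro h i
        exact ⟨h.1 i, h.2 i⟩
      · intro h
        exact ⟨fun i => (h i).1, fun i => (h i).2⟩
    rw [this]

theorem exists_pkg (S : Ext K K L a b θ) (Sg : Finset (HeightOneSpectrum (𝓞 K))) {D E : K}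
    (hD : D ≠ 0) (hE : E ≠ 0) :
    ∃ (U : Type) (_ : AddCommGroup U) (_ : Finite U) (loc : HH K L →+ U) (q : U → ZMod 2)
      (A A' : AddSubgroup U), (∀ x : U, x + x = 0) ∧
      (∀ x y z, q (x + y + z) + q (x + y) + q (x + z) + q (y + z) + q x + q y + q z = 0) ∧
      (∀ c : HH K L, q (loc c) = ∑ v ∈ Sg, qv (show Cub K L a b θ from S.cub) v (c : SC L)) ∧
      Nat.card U ≤ (∏ v ∈ Sg, Mv K L v) ^ 2 ∧
      (∀ c : HH K L, loc c ∈ A ↔ ∀ v ∈ Sg, S.Lv D v (c : SC L)) ∧
      (∀ c : HH K L, loc c ∈ A' ↔ ∀ v ∈ Sg, S.Lv E v (c : SC L)) ∧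
      (∀ x ∈ A, q x = 0) ∧ (∀ x ∈ A', q x = 0) ∧ ∏ v ∈ Sg, Mv K L v ≤ Nat.card A ∧
      ∏ v ∈ Sg, Mv K L v ≤ Nat.card A' ∧
      Nat.card (A ⊓ A' : AddSubgroup U) = ∏ v ∈ Sg, (Zv K L v).relIndex (Wf S v D ⊓ Wf S v E) := by
  obtain ⟨U, i1, i2, loc, q, A, A', h1, h3, h4, h5, h6, h7, h8, h9, h10, h11, h12⟩ :=
    F0_abs (ι := {v // v ∈ Sg}) (H := HH K L)
      (fun v => (Zv K L v.1).addSubgroupOf (HH K L))
      (fun v => (Wf S v.1 D).addSubgroupOf (HH K L))
      (fun v => (Wf S v.1 E).addSubgroupOf (HH K L))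
      (fun v x hx => Zv_le S v.1 hD hx) (fun v x hx => Zv_le S v.1 hE hx)
      (fun v => (card_HHv S v.1).1) (fun v => Mv K L v.1) (fun v => (card_HHv S v.1).2)
      (fun v => by
        rw [AddSubgroup.relIndex_addSubgroupOf (fun c hc => ((mem_Wf S v.1 hD).1 hc).1)]
        exact (card_Wf S v.1 hD).2)
      (fun v => by
        rw [AddSubgroup.relIndex_addSubgroupOf (fun c hc => ((mem_Wf S v.1 hE).1 hc).1)]
        exact (card_Wf S v.1 hE).2)
      (fun x => Subtype.ext (add_self_SC _))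
      (fun v c => qv (show Cub K L a b θ from S.cub) v.1 (c : SC L))
      (fun v x y hxy => qv_congr (show Cub K L a b θ from S.cub) v.1 (S.ha v.1) (S.hb v.1) x.2 y.2
        (hxy : (x : SC L) + (y : SC L) ∈ Zv K L v.1).1)
      (fun v x y z => qv_quad S v.1 x.2 y.2 z.2)
      (fun v x hx => qv_iso S v.1 hD hx) (fun v x hx => qv_iso S v.1 hE hx)
  refine ⟨U, i1, i2, loc, q, A, A', h1, h3, ?_, ?_, ?_, ?_, h8, h9, ?_, ?_, ?_⟩
  · intro c
    rw [h4 c]
    exact Finset.sum_coe_sort Sg (fun v => qv (show Cub K L a b θ from S.cub) v (c : SC L))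
  · rw [← Finset.prod_coe_sort Sg (fun v => Mv K L v)]
    exact h5
  · intro c
    rw [h6 c]
    constructor
    · intro h v hv
      exact ((mem_Wf S v hD).1 (h ⟨v, hv⟩)).2
    · intro h v
      exact (mem_Wf S v.1 hD).2 ⟨c.2, h v.1 v.2⟩
  · intro c
    rw [h7 c]
    constructor
    · intro h v hv
      exact ((mem_Wf S v hE).1 (h ⟨v, hv⟩)).2
    · intro h v
      exact (mem_Wf S v.1 hE).2 ⟨c.2, h v.1 v.2⟩
  · rw [← Finset.prod_coe_sort Sg (fun v => Mv K L v)]
    exact h10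
  · rw [← Finset.prod_coe_sort Sg (fun v => Mv K L v)]
    exact h11
  · rw [h12, ← Finset.prod_coe_sort Sg (fun v => (Zv K L v).relIndex (Wf S v D ⊓ Wf S v E))]
    refine Finset.prod_congr rfl fun v _ => ?_
    have e1 : (Wf S v.1 D).addSubgroupOf (HH K L) ⊓ (Wf S v.1 E).addSubgroupOf (HH K L) =
        (Wf S v.1 D ⊓ Wf S v.1 E).addSubgroupOf (HH K L) := rfl
    have e2 : Wf S v.1 D ⊓ Wf S v.1 E ≤ HH K L := fun c hc =>
      ((mem_Wf S v.1 hD).1 (AddSubgroup.mem_inf.1 hc).1).1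
    rw [e1, AddSubgroup.relIndex_addSubgroupOf e2]

end H88KF
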