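import Pool.Agent.H88.KF.A2
import Pool.Agent.H88.KF.E1
import Pool.Agent.H88.KF.F0

/-!
ROW F1 (MP_78d38b_KF), about 350 lines (most of them copied): the parity formula with all the places of `Sg` free.  Use only the STATEMENTS of A2, E1, F0, B2.

PROOF. Copy the proof of `Tk_main` in Pool/Agent/H30/OR/Tk.lean and change it as follows.  (1) There are no common conditions at `Sg`: `Y` is the group of E1 (existence: `exists_YQ S hD ∅ (Sg ∪ T) Q`, Pool/Agent/H30/OR/Tj.lean; finiteness and the bound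
`(∏ v ∈ Sg, Mv) * 2 ^ (..) ≤ Nat.card Y` by `card_YS`).  (2) `Y0` (used to choose the auxiliary primes `T'`): all `c ∈ HH` with `eo w c = 0` for `dn K w ∉ Sg ∪ T0` ... precisely the finite group `exists_YQ S hD ∅ (Sg) Finset.univ`: classes unramified outside `Sg`, no other condition: a class `x ∈ Y` with
all the components at `T` equal to zero is unramified outside `Sg` (at `v ∈ T0`: `LocD.hr` and `LocD.hu` with `r = 0`, `u = 0`: it satisfies the conditions of `D` and of `E`, one of which is the unramified one by the hypothesis hev0, see below; at `v ∈ T'` the condition of `D` is the unramified one).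
(3) instead of `H88OD.parity` use `abs_par` with `H := Y` (`loc := (loc of exists_pkg) ∘ inclusion Y → HH`), `ι` and the functionals as there, `M := ∏ v ∈ Sg, Mv K L v`; hrec: reciprocity `∑ v ∈ Sg, qv v c + ∑ T ∑ r u + ∑ Q rs us = 0`: `rec_allQ` (Tj.lean) with the set `Sg ∪ T` and `q v := qv h v c` for `v ∈ Sg`
(`qv_eq`), the other places as in `rec_gen` (`conAt_of_Wc`, `conR_of_Wc`).
(4) `k`: `M * Nat.card (A ⊓ A') = ∏ v ∈ Sg, tv S v D E` (`Finset.prod_mul_distrib`).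
hgd: outside `Sg ∪ T0` the discriminant is a unit and `D`, `E` have even order; hev0: at the places of `T0` one of `D`, `E` has even order and the discriminant is a unit (then `Wc_even` of Pool/Agent/H30/OR/Tf.lean).
-/

set_option autoImplicit false
set_option linter.unusedSectionVars false
open scoped Classical

open WithZero NumberField IsDedekindDomain H38RT
open H38T1 (SC sc scu rep rep_ne sc_rep sc_mul sc_eq_zero sc_surj eo la si Pri OddP tp unif ka)
open H76PP H36MX H76MQ H76MX H30ZO H76OD H88OD H30OD H36CY H30OR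

namespace H88KF

variable {K L : Type} [Field K] [NumberField K] [Field L] [NumberField L] [Algebra K L]
  {a b : K} {θ : L}

private theorem F1_card {X : Type} [AddCommGroup X] {Y : AddSubgroup X} {P : Y → Prop}
    {Q : X → Prop} (h1 : ∀ x : Y, P x ↔ Q x) (h2 : ∀ c, Q c → c ∈ Y) :
    Nat.card {c // Q c} = Nat.card {x : Y // P x} :=
  Nat.card_congr
    { toFun := fun c => ⟨⟨c.1, h2 _ c.2⟩, (h1 _).2 c.2⟩
      invFun := fun x => ⟨x.1.1, (h1 x.1).1 x.2⟩
      left_inv := fun _ => rfl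
      right_inv := fun _ => rfl }

/-- Reciprocity with free places. -/
private theorem F1_rec (h : Cub K L a b θ) (ha : ∀ v : HeightOneSpectrum (𝓞 K), v.valuation K a ≤ 1)
    (hb : ∀ v : HeightOneSpectrum (𝓞 K), v.valuation K b ≤ 1) {D E : K} (hD : D ≠ 0)
    {Sg T : Finset (HeightOneSpectrum (𝓞 K))} (hdisj : Disjoint Sg T) {Q : Finset (K →+* ℝ)}
    {ι : {v // v ∈ T} → Type}
    [∀ v, Fintype (ι v)] {r u : ∀ v : {v // v ∈ T}, ι v → (SC L →+ ZMod 2)}
    {E' : {v // v ∈ T} → K}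
    (hloc : ∀ v : {v // v ∈ T}, LocD h v.1 D (E' v) (r v) (u v))
    {rs us : {s // s ∈ Q} → (SC L →+ ZMod 2)}
    (hlocR : ∀ s : {s // s ∈ Q}, LocR h s.1 D E (rs s) (us s)) {c : SC L} (hc : c ∈ HH K L)
    (hv : ∀ v : HeightOneSpectrum (𝓞 K), v ∉ Sg → v ∉ T → Wc (algebraMap K (v.adicCompletion K))
      (D ^ 2 * a) (D ^ 3 * b) (algebraMap K L D * θ) c)
    (hr : ∀ s : K →+* ℝ, s ∉ Q → Wc s (D ^ 2 * a) (D ^ 3 * b) (algebraMap K L D * θ) c) :
    ∑ v ∈ Sg, qv h v c + (∑ v : {v // v ∈ T}, ∑ i, r v i c * u v i c +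
      ∑ s : {s // s ∈ Q}, rs s c * us s c) = 0 := by
  have hTS : ∀ v ∈ T, v ∉ Sg := fun v h4 h5 => Finset.disjoint_left.1 hdisj h5 h4
  have h4 := rec_allQ (T := Sg ∪ T) (Q := Q) (q := fun v => if v ∈ Sg then qv h v c else
      if hv : v ∈ T then ∑ i, r ⟨v, hv⟩ i c * u ⟨v, hv⟩ i c else 0)
      (qs := fun s => if hs : s ∈ Q then rs ⟨s, hs⟩ c * us ⟨s, hs⟩ c else 0) h (c := c) hc
    (by
      intro v hv y hy hyc hal hbe
      by_cases hv1 : v ∈ Sg
      · rw [if_pos hv1]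
        exact qv_eq h v (ha v) (hb v) hc hy hyc hal hbe
      · have hv2 : v ∈ T := (Finset.mem_union.1 hv).resolve_left hv1
        rw [if_neg hv1, dif_pos hv2]
        exact (hloc ⟨v, hv2⟩).hq _ hc y hy hyc hal hbe)
    (by
      intro s hs y hy hyc hal hbe
      rw [dif_pos hs]
      exact (hlocR ⟨s, hs⟩).hq _ hc y hy hyc hal hbe)
    (fun v hvT => H30OD.conAt_of_Wc h hD v (hv v (fun h5 => hvT (Finset.mem_union_left _ h5))
      (fun h5 => hvT (Finset.mem_union_right _ h5))))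
    (fun s hs => H30OD.conR_of_Wc h hD s (hr s hs))
  rw [← h4, Finset.sum_union hdisj, add_assoc, ← Finset.sum_coe_sort T, ← Finset.sum_coe_sort Q]
  congr 1
  · exact Finset.sum_congr rfl fun v hv => (if_pos hv).symm
  · congr 1
    · refine Finset.sum_congr rfl fun v _ => ?_
      rw [if_neg (hTS _ v.2), dif_pos v.2]
    · refine Finset.sum_congr rfl fun s _ => ?_
      rw [dif_pos s.2]

theorem gen_main {A B : 𝓞 K} (S : Ext K K L (A : K) (B : K) θ) {D E : K} (hD : D ≠ 0)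
    (hE : E ≠ 0) {Sg T0 : Finset (HeightOneSpectrum (𝓞 K))} {Q : Finset (K →+* ℝ)}
    (hdj : Disjoint Sg T0)
    (h2 : ∀ v : HeightOneSpectrum (𝓞 K), v ∉ Sg → v.valuation K 2 = 1)
    (hdu : ∀ v : HeightOneSpectrum (𝓞 K), v ∉ Sg →
      v.valuation K (4 * (A : K) ^ 3 + 27 * (B : K) ^ 2) = 1)
    (hgd : ∀ v : HeightOneSpectrum (𝓞 K), v ∉ Sg → v ∉ T0 →
      Even (ord (v.valuation K) D) ∧ Even (ord (v.valuation K) E))
    (hev0 : ∀ v ∈ T0, Even (ord (v.valuation K) D) ∨ Even (ord (v.valuation K) E))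
    (hreal : ∀ s, s ∉ Q → ∀ c ∈ HH K L, (S.Lr D s c ↔ S.Lr E s c))
    (hQ : ∀ s ∈ Q, 0 < s (-(4 * (A : K) ^ 3 + 27 * (B : K) ^ 2)) ∧ s D * s E < 0)
    {m0 : HeightOneSpectrum (𝓞 K) → ℕ} (hnb0 : ∀ v ∈ T0, nb K L v = m0 v + 1)
    (hloc0 : ∀ v ∈ T0, ∃ r u : Fin (m0 v) → (SC L →+ ZMod 2),
      LocD (show Cub K L (A : K) (B : K) θ from S.cub) v D E r u) :
    ∃ p n k, Nat.card {c : SC L // S.V D c} = 2 ^ p ∧ Nat.card {c : SC L // S.V E c} = 2 ^ n ∧
      ∏ v ∈ Sg, tv S v D E = 2 ^ k ∧ Even (p + n + k + (∑ v ∈ T0, m0 v + Q.card)) := by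
  have h : Cub K L (A : K) (B : K) θ := S.cub
  have hLv : ∀ (E : K) (v : HeightOneSpectrum (𝓞 K)) (c : SC L), S.Lv E v c ↔
      Wc (algebraMap K (v.adicCompletion K)) (E ^ 2 * (A : K)) (E ^ 3 * (B : K))
        (algebraMap K L E * θ) c := fun _ _ _ => Iff.rfl
  have hLr : ∀ (E : K) (s : K →+* ℝ) (c : SC L), S.Lr E s c ↔
      Wc s (E ^ 2 * (A : K)) (E ^ 3 * (B : K)) (algebraMap K L E * θ) c := fun _ _ _ => Iff.rfl
  have hA : ∀ v : HeightOneSpectrum (𝓞 K), v.valuation K (A : K) ≤ 1 := S.ha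
  have hB : ∀ v : HeightOneSpectrum (𝓞 K), v.valuation K (B : K) ≤ 1 := S.hb
  have hodd : ∀ v : HeightOneSpectrum (𝓞 K), v ∉ Sg → OddP v := h2
  -- the primes over three
  obtain ⟨S3, hS3⟩ : ∃ S3 : Finset (HeightOneSpectrum (𝓞 K)), ∀ v, v ∉ S3 →
      v.valuation K 3 = 1 := by
    refine ⟨(H38RT.fin_bad (x := (3 : K)) three_ne_zero).toFinset, fun v hv => ?_⟩
    by_contra h3
    exact hv ((Set.Finite.mem_toFinset _).2 h3)
  -- a finite group: the classes unramified outside `Sg`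
  obtain ⟨Y0, hY0f, hY0'⟩ := exists_YQ S hD ∅ Sg Finset.univ
  have hY0 : ∀ c, c ∈ Y0 ↔ c ∈ HH K L ∧
      ∀ w : HeightOneSpectrum (𝓞 L), dn K w ∉ Sg → eo w c = 0 := by
    intro c
    rw [hY0']
    constructor
    · rintro ⟨k1, -, -, k4⟩
      exact ⟨k1, fun w hw => k4 w (Finset.notMem_empty _) hw⟩
    · rintro ⟨k1, k4⟩
      exact ⟨k1, fun v hv => absurd hv (Finset.notMem_empty _),
        fun s hs => absurd (Finset.mem_univ s) hs, fun w _ hw => k4 w hw⟩
  have hgood : ∀ (v : HeightOneSpectrum (𝓞 K)), v ∉ Sg → ∀ F : K, F ≠ 0 →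
      Even (ord (v.valuation K) F) → ∀ c ∈ HH K L,
      (S.Lv F v c ↔ ∀ w : HeightOneSpectrum (𝓞 L), dn K w = v → eo w c = 0) := by
    intro v hv F hF hFe c hc
    rw [hLv]
    exact Wc_even h (hA v) (hB v) (hodd v hv) (hdu v hv) hF hFe hc
  have hsp : ∀ c : Y0, c ≠ 0 → ∃ P : Sp S Sg, P.q ∉ T0 ∪ S3 ∧ P.fl (c : SC L) ≠ 0 := by
    intro c hc
    have hc' : (c : SC L) ≠ 0 := fun h4 => hc (Subtype.ext h4)
    obtain ⟨φ, hφ⟩ := Ib_sep (M := SC L) add_self_SC hc'
    obtain ⟨P, hP1, hP2⟩ := H88OD.exists_sp S Sg (T0 ∪ S3) Y0 hY0f (fun c hc => ((hY0 c).1 hc).1)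
      (fun g c hc => by
        rw [Subsingleton.elim g 1, map_one, one_smul]
        exact hc) φ
    refine ⟨P, hP1, fun h4 => ?_⟩
    have h5 := (hP2 c c.2).2
    rw [h4] at h5
    have h6 : (S.el φ (c : SC L)).coeff 1 = φ c := by
      unfold Ext.el
      rw [coeff_mk, inv_one, map_one, one_smul]
    rw [← h5, hφ] at h6
    exact zero_ne_one h6
  obtain ⟨T', hT'⟩ : ∃ T' : Finset (HeightOneSpectrum (𝓞 K)), ∀ v, v ∈ T' ↔
      ∃ (c : Y0) (hc : c ≠ 0), v = (hsp c hc).choose.q := by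
    have _ : Fintype Y0 := Fintype.ofFinite _
    refine ⟨Finset.univ.biUnion (fun c : Y0 => if hc : c ≠ 0 then {(hsp c hc).choose.q} else ∅),
      fun v => ?_⟩
    rw [Finset.mem_biUnion]
    constructor
    · rintro ⟨c, -, hv⟩
      by_cases hc : c ≠ 0
      · rw [dif_pos hc, Finset.mem_singleton] at hv
        exact ⟨c, hc, hv⟩
      · rw [dif_neg hc] at hv
        exact absurd hv (Finset.notMem_empty _)
    · rintro ⟨c, hc, hv⟩
      refine ⟨c, Finset.mem_univ _, ?_⟩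
      rw [dif_pos hc, Finset.mem_singleton]
      exact hv
  have hT'Sg : ∀ v ∈ T', v ∉ Sg := by
    intro v hv
    obtain ⟨c, hc, rfl⟩ := (hT' v).1 hv
    exact (hsp c hc).choose.out
  have hT'd : ∀ v ∈ T', v ∉ T0 ∧ v ∉ S3 := by
    intro v hv
    obtain ⟨c, hc, rfl⟩ := (hT' v).1 hv
    have h4 := (hsp c hc).choose_spec.1
    rw [Finset.mem_union, not_or] at h4
    exact h4
  obtain ⟨T, hT⟩ : ∃ T, T = T0 ∪ T' := ⟨_, rfl⟩
  have hT0Sg : ∀ v ∈ T0, v ∉ Sg := fun v hv hv' => Finset.disjoint_left.1 hdj hv' hv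
  have hTSg : ∀ v ∈ T, v ∉ Sg := by
    intro v hv
    rw [hT, Finset.mem_union] at hv
    rcases hv with hv | hv
    · exact hT0Sg v hv
    · exact hT'Sg v hv
  have hTor : ∀ v ∈ T, v ∈ T0 ∨ v ∈ T' := by
    intro v hv
    rw [hT, Finset.mem_union] at hv
    exact hv
  have hT0T : ∀ v ∈ T0, v ∈ T := by
    intro v hv
    rw [hT]
    exact Finset.mem_union_left _ hv
  obtain ⟨E', hE'⟩ : ∃ E' : HeightOneSpectrum (𝓞 K) → K, ∀ v, E' v = if v ∈ T0 then E else unif v :=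
    ⟨_, fun _ => rfl⟩
  have hE'0 : ∀ v, E' v ≠ 0 := by
    intro v
    rw [hE']
    split_ifs
    · exact hE
    · exact Cl_unif_ne v
  have hE'o : ∀ v, v ∉ T0 → Odd (ord (v.valuation K) (E' v)) := by
    intro v hv
    rw [hE', if_neg hv, Cl_unif_ord]
    exact odd_one
  have hEd : ∀ v ∈ T0, E' v = E := fun v hv => by rw [hE', if_pos hv]
  -- the local data
  have hex : ∀ v : {v // v ∈ T}, ∃ (m : ℕ) (r u : Fin m → (SC L →+ ZMod 2)),
      nb K L v.1 = m + 1 ∧ LocD h v.1 D (E' v.1) r u ∧ (v.1 ∈ T0 → m = m0 v.1) := by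
    intro v
    by_cases hv0 : v.1 ∈ T0
    · obtain ⟨r, u, hru⟩ := hloc0 _ hv0
      refine ⟨m0 v.1, r, u, hnb0 _ hv0, ?_, fun _ => rfl⟩
      rw [hEd _ hv0]
      exact hru
    · have hv := hTSg v.1 v.2
      have hvT' : v.1 ∈ T' := (hTor _ v.2).resolve_left hv0
      obtain ⟨m, r, u, k1, k2, -⟩ := loc_all h (hodd _ hv) (hS3 _ (hT'd _ hvT').2)
        (hdu _ hv) hD (hgd _ hv hv0).1 (hE'0 v.1) (hE'o _ hv0)
      exact ⟨m, r, u, k1, k2, fun h4 => absurd h4 hv0⟩
  choose m r u hnb hloc hm0 using hex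
  have hexR : ∀ s : {s // s ∈ Q}, ∃ r u : SC L →+ ZMod 2, LocR h s.1 D E r u := fun s =>
    exists_locR S (hQ _ s.2).1 (hQ _ s.2).2
  choose rs us hlocR using hexR
  -- the relaxed group
  obtain ⟨Y, hYf, hY'⟩ := exists_YQ S hD ∅ (Sg ∪ T) Q
  have hY : ∀ c, c ∈ Y ↔ c ∈ HH K L ∧ (∀ s : K →+* ℝ, s ∉ Q → S.Lr D s c) ∧
      ∀ w : HeightOneSpectrum (𝓞 L), dn K w ∉ Sg → dn K w ∉ T → eo w c = 0 := by
    intro c
    rw [hY']
    constructor
    · rintro ⟨k1, -, k3, k4⟩
      refine ⟨k1, k3, fun w hw1 hw2 => k4 w (Finset.notMem_empty _) ?_⟩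
      rw [Finset.mem_union, not_or]
      exact ⟨hw1, hw2⟩
    · rintro ⟨k1, k3, k4⟩
      refine ⟨k1, fun v hv => absurd hv (Finset.notMem_empty _), k3, fun w _ hw => ?_⟩
      rw [Finset.mem_union, not_or] at hw
      exact k4 w hw.1 hw.2
  have hdisj : Disjoint Sg T := by
    rw [Finset.disjoint_left]
    exact fun v h4 h5 => hTSg v h5 h4
  have hcard : (∏ v ∈ Sg, Mv K L v) *
      2 ^ Fintype.card ((Σ v : {v // v ∈ T}, Fin (m v)) ⊕ {s // s ∈ Q}) ≤ Nat.card Y := by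
    have h4 := (card_YS (S := S) hD (fun v hv => by
        by_contra h5
        rw [h2 v h5] at hv
        exact lt_irrefl _ hv) hdisj (m := fun v => nb K L v - 1) (fun v _ => by
      have := nb_ge1 K L v
      omega) (fun s hs => nr_three S (hQ s hs).1) hY).2
    refine le_of_eq_of_le ?_ h4
    congr 2
    rw [Fintype.card_sum, Fintype.card_sigma, Fintype.card_coe,
      ← Finset.sum_coe_sort T (fun v => nb K L v - 1)]
    congr 1
    refine Finset.sum_congr rfl fun v _ => ?_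
    rw [Fintype.card_fin]
    have := hnb v
    omega
  obtain ⟨R, hR⟩ : ∃ R : ((Σ v : {v // v ∈ T}, Fin (m v)) ⊕ {s // s ∈ Q}) → (Y →+ ZMod 2),
      (∀ (j : Σ v : {v // v ∈ T}, Fin (m v)) x, R (Sum.inl j) x = r j.1 j.2 (x : SC L)) ∧
      ∀ (s : {s // s ∈ Q}) x, R (Sum.inr s) x = rs s (x : SC L) :=
    ⟨Sum.elim (fun j => (r j.1 j.2).comp Y.subtype) fun s => (rs s).comp Y.subtype,
      fun _ _ => rfl, fun _ _ => rfl⟩
  obtain ⟨U, hU⟩ : ∃ U : ((Σ v : {v // v ∈ T}, Fin (m v)) ⊕ {s // s ∈ Q}) → (Y →+ ZMod 2),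
      (∀ (j : Σ v : {v // v ∈ T}, Fin (m v)) x, U (Sum.inl j) x = u j.1 j.2 (x : SC L)) ∧
      ∀ (s : {s // s ∈ Q}) x, U (Sum.inr s) x = us s (x : SC L) :=
    ⟨Sum.elim (fun j => (u j.1 j.2).comp Y.subtype) fun s => (us s).comp Y.subtype,
      fun _ _ => rfl, fun _ _ => rfl⟩
  have hT0not : ∀ v, v ∉ T → v ∉ T0 := fun v hv h4 => hv (hT0T v h4)
  -- the local conditions outside `Sg` and `T`
  have hout : ∀ x : Y, ∀ v, v ∉ Sg → v ∉ T → S.Lv D v (x : SC L) := by
    intro x v hv hvT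
    obtain ⟨k1, k3, k4⟩ := (hY x).1 x.2
    rw [hgood v hv D hD (hgd v hv (hT0not v hvT)).1 _ k1]
    intro w hw
    exact k4 w (by rw [hw]; exact hv) (by rw [hw]; exact hvT)
  have hRT : ∀ x : Y, (∀ j, R j x = 0) → ∀ v ∈ T, S.Lv D v (x : SC L) := by
    intro x hx v hvT
    rw [hLv, (hloc ⟨v, hvT⟩).hr _ ((hY x).1 x.2).1]
    intro i
    have h4 := hx (Sum.inl ⟨⟨v, hvT⟩, i⟩)
    rw [hR.1] at h4
    exact h4
  have hmemD : ∀ x : Y, (∀ v ∈ Sg, S.Lv D v (x : SC L)) → (∀ j, R j x = 0) →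
      S.V D (x : SC L) := by
    intro x hxS hx
    obtain ⟨k1, k3, k4⟩ := (hY x).1 x.2
    refine ⟨k1, fun v => ?_, fun s => ?_⟩
    · by_cases hv : v ∈ Sg
      · exact hxS v hv
      by_cases hvT : v ∈ T
      · exact hRT x hx v hvT
      · exact hout x v hv hvT
    · by_cases hs : s ∈ Q
      · rw [hLr, (hlocR ⟨s, hs⟩).hr _ k1]
        have h4 := hx (Sum.inr ⟨s, hs⟩)
        rw [hR.2] at h4
        exact h4
      · exact k3 s hs
  have hVY : ∀ c, S.V D c → c ∈ Y := by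
    intro c hc
    rw [hY]
    refine ⟨hc.hh, fun s _ => hc.inf s, fun w h4 h5 => ?_⟩
    exact (hgood _ h4 D hD (hgd _ h4 (hT0not _ h5)).1 c hc.hh).1 (hc.fin _) w rfl
  have hVR : ∀ x : Y, S.V D (x : SC L) → ∀ j, R j x = 0 := by
    rintro x hx (j | s)
    · rw [hR.1]
      exact ((hloc j.1).hr _ hx.hh).1 ((hLv _ _ _).1 (hx.fin _)) j.2
    · rw [hR.2]
      exact ((hlocR s).hr _ hx.hh).1 ((hLr _ _ _).1 (hx.inf _))
  obtain ⟨J, hJ⟩ : ∃ J : Finset ((Σ v : {v // v ∈ T}, Fin (m v)) ⊕ {s // s ∈ Q}),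
      (∀ j, Sum.inl j ∈ J ↔ j.1.1 ∈ T0) ∧ ∀ s, Sum.inr s ∈ J :=
    ⟨Finset.univ.filter fun j => Sum.elim
      (fun j : (Σ v : {v // v ∈ T}, Fin (m v)) => j.1.1 ∈ T0) (fun _ => True) j,
      fun j => by simp, fun s => by simp⟩
  -- the local package
  obtain ⟨G, _, _, loc, q, X, X', h2G, hquad, hqloc, hcG, hlX, hlX', hqX, hqX', cX, cX', cI⟩ :=
    exists_pkg S Sg hD hE
  have hYH : Y ≤ HH K L := fun c hc => ((hY c).1 hc).1
  obtain ⟨p, n, k, hp, hn, hk, hev⟩ := abs_par (H := Y) (U := G)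
    (fun x => Subtype.ext (add_self_SC _)) h2G (loc.comp (AddSubgroup.inclusion hYH)) q hquad R U
    (by
      intro x
      have hxY := (hY x).1 x.2
      have h4 := F1_rec h hA hB hD hdisj hloc hlocR (c := (x : SC L)) hxY.1
        (fun v hv hvT => (hLv _ _ _).1 (hout x v hv hvT)) (fun s hs => (hLr _ _ _).1 (hxY.2.1 s hs))
      have h5 : q ((loc.comp (AddSubgroup.inclusion hYH)) x) = ∑ v ∈ Sg, qv h v (x : SC L) :=
        hqloc (AddSubgroup.inclusion hYH x)
      rw [h5, Fintype.sum_sum_type, Fintype.sum_sigma, ← h4]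
      congr 1
      congr 1
      · refine Finset.sum_congr rfl fun v _ => ?_
        refine Finset.sum_congr rfl fun i _ => ?_
        rw [hR.1, hU.1]
      · refine Finset.sum_congr rfl fun s _ => ?_
        rw [hR.2, hU.2])
    (by
      intro x hx1 hx2
      have hxY := (hY x).1 x.2
      have hxY0 : (x : SC L) ∈ Y0 := by
        rw [hY0]
        refine ⟨hxY.1, fun w hw => ?_⟩
        by_cases hwT : dn K w ∈ T
        · have hLD := hRT x hx1 _ hwT
          by_cases hw0 : dn K w ∈ T0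
          · rcases hev0 _ hw0 with h5 | h5
            · exact (hgood _ hw D hD h5 _ hxY.1).1 hLD w rfl
            · refine (hgood _ hw E hE h5 _ hxY.1).1 ?_ w rfl
              rw [← hEd _ hw0, hLv, (hloc ⟨_, hwT⟩).hu _ hxY.1]
              intro i
              have h6 := hx2 (Sum.inl ⟨⟨_, hwT⟩, i⟩)
              rw [hU.1] at h6
              exact h6
          · exact (hgood _ hw D hD (hgd _ hw hw0).1 _ hxY.1).1 hLD w rfl
        · exact hxY.2.2 w hw hwT
      by_contra hne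
      have hx0 : (⟨(x : SC L), hxY0⟩ : Y0) ≠ 0 := by
        intro h4
        have h5 : (x : SC L) = 0 := congrArg Subtype.val h4
        exact hne (Subtype.ext h5)
      obtain ⟨P, hP⟩ : ∃ P, P = (hsp _ hx0).choose := ⟨_, rfl⟩
      have hPs := (hsp _ hx0).choose_spec
      rw [← hP] at hPs
      have hPT' : P.q ∈ T' := (hT' _).2 ⟨_, hx0, by rw [hP]⟩
      have hPT : P.q ∈ T := by
        rw [hT]
        exact Finset.mem_union_right _ hPT'
      have hPT0 : P.q ∉ T0 := (hT'd _ hPT').1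
      have hPv : P.q = P.v := dn_self P.v
      have hout : P.q ∉ Sg := P.out
      have hW : ∃ E' : K, E' ≠ 0 ∧ Odd (ord (P.v.valuation K) E') ∧
          Wc (algebraMap K (P.v.adicCompletion K)) (E' ^ 2 * (A : K)) (E' ^ 3 * (B : K))
            (algebraMap K L E' * θ) (x : SC L) := by
        rw [← hPv]
        refine ⟨E' P.q, hE'0 _, hE'o _ hPT0, ((hloc ⟨P.q, hPT⟩).hu _ hxY.1).2 (fun i => ?_)⟩
        have h4 := hx2 (Sum.inl ⟨⟨P.q, hPT⟩, i⟩)
        rw [hU.1] at h4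
        exact h4
      obtain ⟨E'', hE''0, hE''o, hE''W⟩ := hW
      apply hPs.2
      refine rg_ext fun g => ?_
      have h5 : (P.fl (x : SC L)).coeff g = uu K (A : K) θ P.t1 P.t2 (x : SC L) := by
        unfold Sp.fl
        rw [coeff_mk, Subsingleton.elim g⁻¹ 1, map_one, one_smul]
        rfl
      have h6 : uu K (A : K) θ P.t1 P.t2 (x : SC L) = 0 := by
        refine Wc_spec h hA hB (v := P.v) (E := E'') ?_ ?_ P.tw hE''0 hE''o hxY.1 hE''W
        · exact (P.odd h2).1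
        · rw [← hPv]
          exact hdu _ hout
      rw [h5, h6]
      rfl) (M := ∏ v ∈ Sg, Mv K L v)
    (Finset.prod_ne_zero_iff.2 fun v _ => (Mv_pos K L v).ne') hcG hcard X X' hqX hqX' cX cX' J
  refine ⟨p, n, k, ?_, ?_, ?_, ?_⟩
  · rw [← hp]
    refine F1_card (fun x => ?_) hVY
    have h7 : (loc.comp (AddSubgroup.inclusion hYH)) x ∈ X ↔ ∀ v ∈ Sg, S.Lv D v (x : SC L) :=
      hlX (AddSubgroup.inclusion hYH x)
    rw [h7]
    constructor
    · rintro ⟨h4, h5⟩
      exact hmemD x h4 h5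
    · intro h4
      exact ⟨fun v _ => h4.fin v, hVR x h4⟩
  · rw [← hn]
    refine F1_card (fun x => ?_) fun c hc => ?_
    · have h7 : (loc.comp (AddSubgroup.inclusion hYH)) x ∈ X' ↔ ∀ v ∈ Sg, S.Lv E v (x : SC L) :=
        hlX' (AddSubgroup.inclusion hYH x)
      rw [h7]
      obtain ⟨k1, k3, k4⟩ := (hY x).1 x.2
      constructor
      · rintro ⟨h8, h4, h5⟩
        refine ⟨k1, fun v => ?_, fun s => ?_⟩
        · by_cases hv : v ∈ Sg
          · exact h8 v hv
          by_cases hvd : v ∈ T0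
          · have hvT : v ∈ T := hT0T v hvd
            rw [← hEd v hvd, hLv, (hloc ⟨v, hvT⟩).hu _ k1]
            intro i
            have h6 := h5 (Sum.inl ⟨⟨v, hvT⟩, i⟩) ((hJ.1 _).2 hvd)
            rw [hU.1] at h6
            exact h6
          · rw [hgood v hv _ hE (hgd v hv hvd).2 _ k1]
            by_cases hvT : v ∈ T
            · rw [← hgood v hv D hD (hgd v hv hvd).1 _ k1, hLv, (hloc ⟨v, hvT⟩).hr _ k1]
              intro i
              have h6 := h4 (Sum.inl ⟨⟨v, hvT⟩, i⟩) (fun h7 => hvd ((hJ.1 _).1 h7))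
              rw [hR.1] at h6
              exact h6
            · intro w hw
              exact k4 w (by rw [hw]; exact hv) (by rw [hw]; exact hvT)
        · by_cases hs : s ∈ Q
          · rw [hLr, (hlocR ⟨s, hs⟩).hu _ k1]
            have h6 := h5 (Sum.inr ⟨s, hs⟩) (hJ.2 _)
            rw [hU.2] at h6
            exact h6
          · exact (hreal s hs _ k1).1 (k3 s hs)
      · intro h4
        refine ⟨fun v _ => h4.fin v, ?_, ?_⟩
        · rintro (j | s) hj
          · have hv := hTSg j.1.1 j.1.2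
            have hvd : j.1.1 ∉ T0 := fun h5 => hj ((hJ.1 _).2 h5)
            rw [hR.1]
            refine ((hloc j.1).hr _ h4.hh).1 ((hLv _ _ _).1 ?_) j.2
            rw [hgood _ hv D hD (hgd _ hv hvd).1 _ h4.hh,
              ← hgood _ hv _ hE (hgd _ hv hvd).2 _ h4.hh]
            exact h4.fin _
          · exact absurd (hJ.2 s) hj
        · rintro (j | s) hj
          · rw [hU.1]
            refine ((hloc j.1).hu _ h4.hh).1 ?_ j.2
            rw [hEd _ ((hJ.1 _).1 hj)]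
            exact (hLv _ _ _).1 (h4.fin _)
          · rw [hU.2]
            exact ((hlocR s).hu _ h4.hh).1 ((hLr _ _ _).1 (h4.inf _))
    · rw [hY]
      refine ⟨hc.hh, fun s hs => (hreal s hs _ hc.hh).2 (hc.inf s), fun w h4 h5 => ?_⟩
      have hvd : dn K w ∉ T0 := hT0not _ h5
      exact (hgood _ h4 _ hE (hgd _ h4 hvd).2 c hc.hh).1 (hc.fin _) w rfl
  · rw [← hk, cI, ← Finset.prod_mul_distrib]
    rfl
  · -- the number of indices
    have hJc : J.card = ∑ v ∈ T0, m0 v + Q.card := by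
      have h5 : J.card = ∑ j : ((Σ v : {v // v ∈ T}, Fin (m v)) ⊕ {s // s ∈ Q}),
          (if j ∈ J then 1 else 0) := by
        rw [Finset.sum_boole, Finset.filter_mem_eq_inter, Finset.univ_inter]
        rfl
      rw [h5, Fintype.sum_sum_type, Fintype.sum_sigma]
      congr 1
      · have h6 : ∀ v : {v // v ∈ T}, (∑ i : Fin (m v),
            (if (Sum.inl ⟨v, i⟩ : (Σ v : {v // v ∈ T}, Fin (m v)) ⊕ {s // s ∈ Q}) ∈ J
              then 1 else 0)) = if v.1 ∈ T0 then m0 v.1 else 0 := by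
          intro v
          by_cases hv : v.1 ∈ T0
          · rw [if_pos hv, ← hm0 v hv]
            have h7 : ∀ i : Fin (m v),
                (Sum.inl ⟨v, i⟩ : (Σ v : {v // v ∈ T}, Fin (m v)) ⊕ {s // s ∈ Q}) ∈ J :=
              fun i => (hJ.1 _).2 hv
            rw [Finset.sum_congr rfl fun i _ => if_pos (h7 i), Finset.sum_const, Finset.card_univ,
              Fintype.card_fin, smul_eq_mul, mul_one]
          · rw [if_neg hv]
            refine Finset.sum_eq_zero fun i _ => if_neg fun h7 => hv ((hJ.1 _).1 h7)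
        rw [Finset.sum_congr rfl fun v _ => h6 v,
          Finset.sum_coe_sort T (fun v => if v ∈ T0 then m0 v else 0), ← Finset.sum_filter]
        refine Finset.sum_congr ?_ fun _ _ => rfl
        ext v
        rw [Finset.mem_filter]
        exact ⟨fun h7 => h7.2, fun h7 => ⟨hT0T v h7, h7⟩⟩
      · rw [Finset.sum_congr rfl fun s _ => if_pos (hJ.2 s), Finset.sum_const, Finset.card_univ,
          Fintype.card_coe, smul_eq_mul, mul_one]
    rw [← hJc]
    exact hev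

end H88KF
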