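import Pool.Agent.H88.KF.Df

/-!
ROW F2 (MP_78d38b_KF), about 50 lines: the local terms depend only on the local square classes.

PROOF. `Wf S v D = Wf S v D'` (`mem_Wf`, `Wc_tw_iff` of Pool/Agent/H76/OD/Lt.lean: `S.Lv` is `Wc ..` by Iff.rfl), so `tv` is the same.  lt: `hsv v Δ (D E) = hsv v Δ (D' E')` since `D' E' / (D E)` is a square in `K_v`
(`Wa_hs_congr`, `Wa_hs_comm`, or `Ta_hs` with the scaling of the conic).
-/

set_option autoImplicit false
set_option linter.unusedSectionVars false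
open scoped Classical

open WithZero NumberField IsDedekindDomain H38RT
open H38T1 (SC sc scu rep rep_ne sc_rep sc_mul sc_eq_zero sc_surj eo la si Pri OddP tp unif ka)
open H76PP H36MX H76MQ H76MX H30ZO H76OD H88OD H30OD H36CY H30OR

namespace H88KF

variable {K L : Type} [Field K] [NumberField K] [Field L] [NumberField L] [Algebra K L]
  {a b : K} {θ : L}

private theorem wf_congr (S : Ext K K L a b θ) (v : HeightOneSpectrum (𝓞 K)) {D D' : K} (hD : D ≠ 0)
    (hD' : D' ≠ 0) (h1 : IsSquare (algebraMap K (v.adicCompletion K) (D' / D))) :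
    Wf S v D = Wf S v D' := by
  ext c
  rw [mem_Wf S v hD, mem_Wf S v hD']
  refine and_congr_right fun _ => ?_
  exact Wc_tw_iff _ hD hD' h1

theorem tv_congr (S : Ext K K L a b θ) (v : HeightOneSpectrum (𝓞 K)) {D D' E E' : K} (hD : D ≠ 0)
    (hD' : D' ≠ 0) (hE : E ≠ 0) (hE' : E' ≠ 0)
    (h1 : IsSquare (algebraMap K (v.adicCompletion K) (D' / D)))
    (h2 : IsSquare (algebraMap K (v.adicCompletion K) (E' / E))) : tv S v D E = tv S v D' E' := by
  unfold tv
  rw [wf_congr S v hD hD' h1, wf_congr S v hE hE' h2]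

theorem lt_congr (S : Ext K K L a b θ) (v : HeightOneSpectrum (𝓞 K)) {D D' E E' : K} (hD : D ≠ 0)
    (hD' : D' ≠ 0) (hE : E ≠ 0) (hE' : E' ≠ 0)
    (h1 : IsSquare (algebraMap K (v.adicCompletion K) (D' / D)))
    (h2 : IsSquare (algebraMap K (v.adicCompletion K) (E' / E))) : lt S v D E = lt S v D' E' := by
  unfold lt
  rw [tv_congr S v hD hD' hE hE' h1 h2]
  congr 1
  have hi : ∀ x : K, x ≠ 0 → algebraMap K (v.adicCompletion K) x ≠ 0 := fun x hx =>
    (map_ne_zero _).2 hx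
  obtain ⟨r, hr⟩ := h1
  obtain ⟨t, ht⟩ := h2
  rw [map_div₀] at hr ht
  have hr0 : r ≠ 0 := by
    rintro rfl
    rw [mul_zero, div_eq_zero_iff] at hr
    exact hr.elim (hi _ hD') (hi _ hD)
  have ht0 : t ≠ 0 := by
    rintro rfl
    rw [mul_zero, div_eq_zero_iff] at ht
    exact ht.elim (hi _ hE') (hi _ hE)
  rw [div_eq_iff (hi _ hD)] at hr
  rw [div_eq_iff (hi _ hE)] at ht
  have e : sc (algebraMap K (v.adicCompletion K) (D * E)) =
      sc (algebraMap K (v.adicCompletion K) (D' * E')) := by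
    have e1 : algebraMap K (v.adicCompletion K) (D' * E') =
        algebraMap K (v.adicCompletion K) (D * E) * (r * t) ^ 2 := by
      rw [map_mul, map_mul, hr, ht]
      ring
    rw [e1, sc_mul (hi _ (mul_ne_zero hD hE)) (pow_ne_zero 2 (mul_ne_zero hr0 ht0)),
      (sc_eq_zero (pow_ne_zero 2 (mul_ne_zero hr0 ht0))).2 ⟨r * t, sq (r * t)⟩, add_zero]
  change H36MX.hs _ _ = H36MX.hs _ _
  rw [Wa_hs_comm, Wa_hs_congr (hi _ (mul_ne_zero hD hE)) (hi _ (mul_ne_zero hD' hE')) e,
    Wa_hs_comm]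

end H88KF
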