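import Pool.Agent.H88.KF.F1

/-!
ROW G1 (MP_78d38b_KF), about 200 lines (most of them copied): the parity formula for `D`, `E` without common primes of odd order.  Use only the STATEMENT of F1.

PROOF. Copy the proof of `parity_sgn` in Pool/Agent/H30/OR/Tl.lean with `D0 := D`, `D := E`, `δ := D * E`.  `T` := the primes outside `Sg` at which `D * E` has odd order, i.e. exactly one of `D`, `E` has odd order; `loc_all` gives `LocD h v D E r u` if `E` has odd order, and `LocD h v E D r' u'` if `D` has odd order: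
then `LocD h v D E u' r'` (swap, `mul_comm` in hq).  `Q := {s | 0 < s Δ ∧ s D * s E < 0}`, `Δ = -(4 A ^ 3 + 27 B ^ 2)`.  `gen_main` instead of `parity_gen`.
The Legendre classes: `∑ v ∈ T, la v (sc Δ) = ∑ v ∈ Sg, hsv v Δ δ + card {s | s Δ < 0 ∧ s δ < 0}` in `ZMod 2`: as `sum_laQ` in Tl.lean but keeping the terms at `Sg` (see also Pool/Agent/H76/GM/Dc.lean, where the terms at `Sg` are kept).
`lt`: `∏ v ∈ Sg, tv = 2 ^ k`, so every `tv S v D E = 2 ^ (Nat.log 2 (tv ..))` (a divisor of a power of two: `Nat.dvd_prime_pow`) and `k = ∑ v ∈ Sg, Nat.log 2 (tv ..)`.  `pr`: `Nat.log 2 (2 ^ p) = p` (`Nat.log_pow`).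
Integral coefficients: `Lt_int` as in parity_gen.
-/

set_option autoImplicit false
set_option linter.unusedSectionVars false
open scoped Classical

open WithZero NumberField IsDedekindDomain H38RT
open H38T1 (SC sc scu rep rep_ne sc_rep sc_mul sc_eq_zero sc_surj eo la si Pri OddP tp unif ka)
open H76PP H36MX H76MQ H76MX H30ZO H76OD H88OD H30OD H36CY H30OR

namespace H88KF

variable {K L : Type} [Field K] [NumberField K] [Field L] [NumberField L] [Algebra K L]
  {a b : K} {θ : L}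

private theorem G1_sum {Δ δ : K} (hΔ : Δ ≠ 0) (hδ : δ ≠ 0)
    {Sg T : Finset (HeightOneSpectrum (𝓞 K))}
    (hodd : ∀ v : HeightOneSpectrum (𝓞 K), v ∉ Sg → OddP v)
    (hu : ∀ v : HeightOneSpectrum (𝓞 K), v ∉ Sg → v.valuation K Δ = 1)
    (hT : ∀ v, v ∈ T ↔ v ∉ Sg ∧ Odd (ord (v.valuation K) δ)) :
    ∑ v ∈ T, la v (sc Δ) = ∑ v ∈ Sg, hsv v Δ δ +
      ((Finset.univ.filter fun s : K →+* ℝ => s Δ < 0 ∧ s δ < 0).card : ZMod 2) := by
  have hrec := (hilb K).prod Δ δ hΔ hδ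
  unfold BB at hrec
  have hreal : ∑ w : K →+* ℝ, si w (sc Δ) * si w (sc δ) =
      ((Finset.univ.filter fun s : K →+* ℝ => s Δ < 0 ∧ s δ < 0).card : ZMod 2) := by
    rw [← Finset.sum_boole]
    refine Finset.sum_congr rfl fun s _ => ?_
    rw [H38T1.si_sc s hδ, H38T1.si_sc s hΔ]
    unfold sw
    by_cases h1 : s Δ < 0
    · by_cases h2 : s δ < 0
      · rw [if_pos h1, if_pos h2, if_pos ⟨h1, h2⟩, one_mul]
      · rw [if_neg h2, mul_zero, if_neg fun h => h2 h.2]
    · rw [if_neg h1, zero_mul, if_neg fun h => h1 h.1]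
  have hval : ∀ v, v ∉ Sg → hsv v Δ δ = eo v (sc δ) * la v (sc Δ) := by
    intro v hv
    rw [(hilb K).odd v (hodd v hv) _ _ hΔ hδ, Cl_tp (Cl_eo_one (hu v hv))]
  have hsupp : (Function.support fun v => hsv v Δ δ) ⊆ ↑(T ∪ Sg) := by
    intro v hv'
    by_contra h1
    apply hv'
    rw [Finset.mem_coe, Finset.mem_union, not_or] at h1
    change hsv v Δ δ = 0
    have h2 : ¬ Odd (ord (v.valuation K) δ) := fun h => h1.1 ((hT v).2 ⟨h1.2, h⟩)
    rw [Int.not_odd_iff_even] at h2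
    obtain ⟨m, hm⟩ := h2
    rw [hval v h1.2, H38T1.eo_sc hδ, hm]
    push_cast
    have h3 : ∀ t : ZMod 2, t + t = 0 := by decide
    rw [h3, zero_mul]
  have hdj : Disjoint T Sg := by
    rw [Finset.disjoint_left]
    exact fun v h4 h5 => ((hT v).1 h4).1 h5
  rw [hreal, finsum_eq_sum_of_support_subset _ hsupp, Finset.sum_union hdj] at hrec
  have h7 : ∑ v ∈ T, hsv v Δ δ = ∑ v ∈ T, la v (sc Δ) := by
    refine Finset.sum_congr rfl fun v hvT => ?_
    obtain ⟨hv, hv1⟩ := (hT v).1 hvT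
    obtain ⟨m, hm⟩ := hv1
    rw [hval v hv, H38T1.eo_sc hδ, hm]
    push_cast
    have h3 : (2 : ZMod 2) = 0 := by decide
    rw [h3, zero_mul, zero_add, one_mul]
  rw [h7] at hrec
  have h8 : ∀ x y z : ZMod 2, x + y + z = 0 → x = y + z := by decide
  exact h8 _ _ _ hrec

private theorem G1_log {ι : Type} (s : Finset ι) (f : ι → ℕ) {k : ℕ}
    (h : ∏ v ∈ s, f v = 2 ^ k) : ∑ v ∈ s, Nat.log 2 (f v) = k := by
  have h1 : ∀ v ∈ s, f v = 2 ^ Nat.log 2 (f v) := by
    intro v hv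
    have h2 : f v ∣ 2 ^ k := by
      rw [← h]
      exact Finset.dvd_prod_of_mem f hv
    obtain ⟨m, -, hm⟩ := (Nat.dvd_prime_pow Nat.prime_two).1 h2
    rw [hm, Nat.log_pow one_lt_two]
  have h3 : (2 : ℕ) ^ ∑ v ∈ s, Nat.log 2 (f v) = 2 ^ k := by
    rw [← h, ← Finset.prod_pow_eq_pow_sum]
    exact (Finset.prod_congr rfl h1).symm
  exact Nat.pow_right_injective le_rfl h3

private theorem G1_swap {A B : K} {h : Cub K L A B θ} {v : HeightOneSpectrum (𝓞 K)} {D E : K}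
    {m : ℕ} {r u : Fin m → (SC L →+ ZMod 2)} (H : LocD h v E D r u) : LocD h v D E u r :=
  ⟨H.hu, H.hr, fun c hc y hy hyc ha hb => by
    rw [H.hq c hc y hy hyc ha hb]
    exact Finset.sum_congr rfl fun i _ => mul_comm _ _⟩

theorem par_cop (S : Ext K K L a b θ) {Sg : Finset (HeightOneSpectrum (𝓞 K))}
    (h2 : ∀ v : HeightOneSpectrum (𝓞 K), v ∉ Sg → v.valuation K 2 = 1)
    (h3 : ∀ v : HeightOneSpectrum (𝓞 K), v ∉ Sg → v.valuation K 3 = 1)
    (hd : ∀ v : HeightOneSpectrum (𝓞 K), v ∉ Sg → v.valuation K (4 * a ^ 3 + 27 * b ^ 2) = 1)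
    {D E : K} (hD : D ≠ 0) (hE : E ≠ 0)
    (hco : ∀ v : HeightOneSpectrum (𝓞 K), v ∉ Sg →
      Even (ord (v.valuation K) D) ∨ Even (ord (v.valuation K) E)) :
    pr S D + pr S E = ∑ v ∈ Sg, lt S v D E +
      ((Finset.univ.filter fun s : K →+* ℝ => s D * s E < 0).card : ZMod 2) := by
  obtain ⟨A, rfl⟩ := Lt_int S.ha
  obtain ⟨B, rfl⟩ := Lt_int S.hb
  have h : Cub K L (A : K) (B : K) θ := S.cub
  have hδ0 : D * E ≠ 0 := mul_ne_zero hD hE
  obtain ⟨Δ, hΔ⟩ : ∃ Δ : K, Δ = -(4 * (A : K) ^ 3 + 27 * (B : K) ^ 2) := ⟨_, rfl⟩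
  have hΔ0 : Δ ≠ 0 := by
    rw [hΔ]
    exact neg_ne_zero.2 S.dne
  have hΔv : ∀ v : HeightOneSpectrum (𝓞 K), v ∉ Sg → v.valuation K Δ = 1 := by
    intro v hv
    rw [hΔ, Valuation.map_neg]
    exact hd v hv
  have hordm : ∀ v : HeightOneSpectrum (𝓞 K),
      ord (v.valuation K) (D * E) = ord (v.valuation K) D + ord (v.valuation K) E := fun v =>
    ord_mul hD hE
  -- the primes of odd order of `D * E`
  obtain ⟨Td, hTd⟩ : ∃ T : Finset (HeightOneSpectrum (𝓞 K)), ∀ v, v ∈ T ↔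
      v ∉ Sg ∧ Odd (ord (v.valuation K) (D * E)) := by
    have hfin : {v : HeightOneSpectrum (𝓞 K) |
        v ∉ Sg ∧ Odd (ord (v.valuation K) (D * E))}.Finite := by
      refine (H88OD.fin_supp (sc (D * E))).subset ?_
      rintro v ⟨-, m, hm⟩
      change eo v (sc (D * E)) ≠ 0
      rw [H38T1.eo_sc hδ0, hm]
      push_cast
      have h4 : (2 : ZMod 2) = 0 := by decide
      rw [h4, zero_mul, zero_add]
      exact one_ne_zero
    exact ⟨hfin.toFinset, fun v => by rw [Set.Finite.mem_toFinset]; rfl⟩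
  have hex : ∀ v : {v // v ∈ Td}, ∃ (m : ℕ) (r u : Fin m → (SC L →+ ZMod 2)),
      nb K L v.1 = m + 1 ∧ LocD h v.1 D E r u ∧ (m : ZMod 2) = la v.1 (sc Δ) := by
    intro v
    obtain ⟨hv, hv1⟩ := (hTd v.1).1 v.2
    rw [hordm] at hv1
    rw [hΔ]
    by_cases hev : Even (ord (v.1.valuation K) D)
    · exact loc_all h (h2 _ hv) (h3 _ hv) (hd _ hv) hD hev hE
        (by
          rw [add_comm] at hv1
          rcases Int.even_or_odd (ord (v.1.valuation K) E) with h5 | h5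
          · exact absurd (h5.add hev) (Int.not_even_iff_odd.2 hv1)
          · exact h5)
    · have hE1 : Even (ord (v.1.valuation K) E) := (hco _ hv).resolve_left hev
      obtain ⟨m, r, u, g1, g2, g3⟩ := loc_all h (h2 _ hv) (h3 _ hv) (hd _ hv) hE hE1 hD
        (Int.not_even_iff_odd.1 hev)
      exact ⟨m, u, r, g1, G1_swap g2, g3⟩
  choose m r u hnb hloc hla using hex
  obtain ⟨m0, hm0⟩ : ∃ m0 : HeightOneSpectrum (𝓞 K) → ℕ, ∀ v : {v // v ∈ Td}, m0 v.1 = m v :=
    ⟨fun v => if hv : v ∈ Td then m ⟨v, hv⟩ else 0, fun v => dif_pos v.2⟩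
  obtain ⟨Q, hQ⟩ : ∃ Q : Finset (K →+* ℝ), ∀ s, s ∈ Q ↔ 0 < s Δ ∧ s D * s E < 0 :=
    ⟨Finset.univ.filter fun s => 0 < s Δ ∧ s D * s E < 0, fun s => by simp⟩
  obtain ⟨p, n, k, hp, hn, hk, hev⟩ := gen_main S (D := D) (E := E) (Sg := Sg) (T0 := Td) (Q := Q)
    hD hE
    (by
      rw [Finset.disjoint_left]
      exact fun v h4 h5 => ((hTd v).1 h5).1 h4)
    h2 hd
    (by
      intro v hv hvT
      have h4 : Even (ord (v.valuation K) D + ord (v.valuation K) E) := by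
        rw [← hordm, ← Int.not_odd_iff_even]
        exact fun h5 => hvT ((hTd v).2 ⟨hv, h5⟩)
      rcases hco v hv with h5 | h5
      · exact ⟨h5, (Int.even_add.1 h4).1 h5⟩
      · exact ⟨(Int.even_add.1 h4).2 h5, h5⟩)
    (fun v hv => hco v ((hTd v).1 hv).1)
    (by
      intro s hs c hc
      rcases lt_trichotomy (s Δ) 0 with h4 | h4 | h4
      · rw [hΔ] at h4
        exact iff_of_true (Lr_one S h4 hD hc) (Lr_one S h4 hE hc)
      · exact absurd h4 ((map_ne_zero s).2 hΔ0)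
      · refine Wc_tw_real _ hD hE ?_
        have h5 : ¬ s D * s E < 0 := fun h6 => hs ((hQ s).2 ⟨h4, h6⟩)
        have h6 : s D * s E ≠ 0 := mul_ne_zero ((map_ne_zero s).2 hD) ((map_ne_zero s).2 hE)
        have h7 : 0 < s D * s E := lt_of_le_of_ne (not_lt.1 h5) h6.symm
        have h8 : 0 < s D ^ 2 := by
          have h9 := (map_ne_zero s).2 hD
          positivity
        have h9 : s (E / D) = s D * s E / s D ^ 2 := by
          have h10 := (map_ne_zero s).2 hD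
          rw [map_div₀]
          field_simp
        rw [h9]
        exact div_pos h7 h8)
    (by
      intro s hs
      obtain ⟨h4, h5⟩ := (hQ s).1 hs
      rw [hΔ] at h4
      exact ⟨h4, h5⟩) (m0 := m0)
    (by
      intro v hv
      rw [hm0 ⟨v, hv⟩]
      exact hnb ⟨v, hv⟩)
    (by
      intro v hv
      rw [hm0 ⟨v, hv⟩]
      exact ⟨_, _, hloc ⟨v, hv⟩⟩)
  have h4 := G1_sum hΔ0 hδ0 h2 hΔv hTd
  have h5 : ((∑ v ∈ Td, m0 v : ℕ) : ZMod 2) = ∑ v ∈ Td, la v (sc Δ) := by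
    push_cast
    refine Finset.sum_congr rfl fun v hv => ?_
    rw [hm0 ⟨v, hv⟩]
    exact hla ⟨v, hv⟩
  have h6 : (Finset.univ.filter fun s : K →+* ℝ => s D * s E < 0).card =
      (Finset.univ.filter fun s : K →+* ℝ => s Δ < 0 ∧ s (D * E) < 0).card + Q.card := by
    have hQe : Q = Finset.univ.filter fun s : K →+* ℝ => 0 < s Δ ∧ s (D * E) < 0 := by
      ext s
      rw [hQ, Finset.mem_filter, map_mul]
      simp
    rw [hQe, ← Finset.card_union_of_disjoint]
    · congr 1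
      ext s
      simp only [Finset.mem_filter, Finset.mem_univ, true_and, Finset.mem_union, map_mul]
      constructor
      · intro h6
        rcases lt_trichotomy (s Δ) 0 with h7 | h7 | h7
        · exact Or.inl ⟨h7, h6⟩
        · exact absurd h7 ((map_ne_zero s).2 hΔ0)
        · exact Or.inr ⟨h7, h6⟩
      · rintro (⟨-, h6⟩ | ⟨-, h6⟩) <;> exact h6
    · rw [Finset.disjoint_left]
      intro s h6 h7
      simp only [Finset.mem_filter, Finset.mem_univ, true_and] at h6 h7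
      exact lt_asymm h6.1 h7.1
  have hpD : pr S D = (p : ZMod 2) := by
    unfold pr
    rw [hp, Nat.log_pow one_lt_two]
  have hpE : pr S E = (n : ZMod 2) := by
    unfold pr
    rw [hn, Nat.log_pow one_lt_two]
  have hlt : ∑ v ∈ Sg, lt S v D E = (k : ZMod 2) + ∑ v ∈ Sg, hsv v Δ (D * E) := by
    rw [hΔ, ← G1_log Sg (fun v => tv S v D E) hk, Nat.cast_sum, ← Finset.sum_add_distrib]
    rfl
  have h8 : ((p + n + k + (∑ v ∈ Td, m0 v + Q.card) : ℕ) : ZMod 2) = 0 := by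
    rw [ZMod.natCast_eq_zero_iff]
    exact even_iff_two_dvd.1 hev
  rw [hpD, hpE, hlt, h6]
  rw [Nat.cast_add, Nat.cast_add, Nat.cast_add, Nat.cast_add, h5, h4] at h8
  rw [Nat.cast_add]
  have h9 : ∀ x y z t c q : ZMod 2, x + y + z + (t + c + q) = 0 → x + y = z + t + (c + q) := by
    decide
  exact h9 _ _ _ _ _ _ h8

end H88KF
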