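import Pool.Agent.H88.KF.G1
import Pool.Agent.H88.KF.F2

/-!
ROW G2 (MP_78d38b_KF), about 80 lines: the parity formula for arbitrary `D`, `E`.  Use only the STATEMENTS of G1, F2.

PROOF. `T` := the finite set of the primes outside `Sg` at which `D` or `E` has odd order (`H88OD.fin_supp` as in the proof of parity_sgn).  `H76GM.approx_pos (Sg ∪ T) (fun u => if u ∈ Sg then 1 else D)`: `y` positive, `y` a square at `Sg`, `y = D * r ^ 2` at `T`.
`F := D * y`: `F / D = y` is a square at `Sg` and positive at all real places, `F` has even order at `T` (`F = D ^ 2 r ^ 2`).  par_cop for `(D, F)` and `(F, E)` (outside `Sg`: a prime at which `D` or `E` has odd order is in `T`, there `F` has even order).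
`lt S v D F = lt S v D D`, `lt S v F E = lt S v D E` (lt_congr, squares: `D / D = 1`).  Real places: `s D * s F > 0`, and `s F * s E < 0 ↔ s D * s E < 0`.  Add the two formulas (`pr S F + pr S F = 0`).
-/

set_option autoImplicit false
set_option linter.unusedSectionVars false
open scoped Classical

open WithZero NumberField IsDedekindDomain H38RT
open H38T1 (SC sc scu rep rep_ne sc_rep sc_mul sc_eq_zero sc_surj eo la si Pri OddP tp unif ka)
open H76PP H36MX H76MQ H76MX H30ZO H76OD H88OD H30OD H36CY H30OR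

namespace H88KF

variable {K L : Type} [Field K] [NumberField K] [Field L] [NumberField L] [Algebra K L]
  {a b : K} {θ : L}

theorem par_all (S : Ext K K L a b θ) {Sg : Finset (HeightOneSpectrum (𝓞 K))}
    (h2 : ∀ v : HeightOneSpectrum (𝓞 K), v ∉ Sg → v.valuation K 2 = 1)
    (h3 : ∀ v : HeightOneSpectrum (𝓞 K), v ∉ Sg → v.valuation K 3 = 1)
    (hd : ∀ v : HeightOneSpectrum (𝓞 K), v ∉ Sg → v.valuation K (4 * a ^ 3 + 27 * b ^ 2) = 1)
    {D E : K} (hD : D ≠ 0) (hE : E ≠ 0) :
    pr S D + pr S E = ∑ v ∈ Sg, (lt S v D D + lt S v D E) +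
      ((Finset.univ.filter fun s : K →+* ℝ => s D * s E < 0).card : ZMod 2) := by
  have odd_ne : ∀ {x : K}, x ≠ 0 → ∀ v : HeightOneSpectrum (𝓞 K), Odd (ord (v.valuation K) x) →
      eo v (sc x) ≠ 0 := by
    rintro x hx v ⟨m, hm⟩
    rw [H38T1.eo_sc hx, hm]
    push_cast
    have h4 : (2 : ZMod 2) = 0 := by decide
    rw [h4, zero_mul, zero_add]
    exact one_ne_zero
  obtain ⟨T, hT⟩ : ∃ T : Finset (HeightOneSpectrum (𝓞 K)), ∀ v, v ∈ T ↔
      v ∉ Sg ∧ (Odd (ord (v.valuation K) D) ∨ Odd (ord (v.valuation K) E)) := by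
    have hfin : {v : HeightOneSpectrum (𝓞 K) | v ∉ Sg ∧ (Odd (ord (v.valuation K) D) ∨
        Odd (ord (v.valuation K) E))}.Finite := by
      refine ((H88OD.fin_supp (sc D)).union (H88OD.fin_supp (sc E))).subset ?_
      rintro v ⟨-, h | h⟩
      · exact Or.inl (odd_ne hD v h)
      · exact Or.inr (odd_ne hE v h)
    exact ⟨hfin.toFinset, fun v => by rw [Set.Finite.mem_toFinset]; rfl⟩
  obtain ⟨y, hy0, hy, hpos⟩ := H76GM.approx_pos (Sg ∪ T) (fun u => if u ∈ Sg then 1 else D)
    (fun u _ => by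
      split_ifs
      · exact one_ne_zero
      · exact hD)
  have hF0 : D * y ≠ 0 := mul_ne_zero hD hy0
  have hsq : ∀ v ∈ Sg, IsSquare (algebraMap K (v.adicCompletion K) (D * y / D)) := by
    intro v hv
    obtain ⟨-, r, -, hr⟩ := hy v (Finset.mem_union_left _ hv)
    rw [if_pos hv, map_one, one_mul] at hr
    rw [mul_div_cancel_left₀ _ hD, hr]
    exact ⟨r, sq r⟩
  have hsq' : ∀ v ∈ Sg, IsSquare (algebraMap K (v.adicCompletion K) (D / (D * y))) := by
    intro v hv
    have h1 := hsq v hv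
    have e : D / (D * y) = (D * y / D)⁻¹ := by rw [inv_div]
    rw [e, map_inv₀]
    exact h1.inv
  have hev : ∀ v ∈ T, Even (ord (v.valuation K) (D * y)) := by
    intro v hv
    obtain ⟨h1, -⟩ := hy v (Finset.mem_union_right _ hv)
    rw [if_neg ((hT v).1 hv).1] at h1
    have e : ord (v.valuation K) (D * y) = ord (v.valuation K) D + ord (v.valuation K) D := by
      rw [ord_mul hD hy0]
      congr 1
      unfold ord
      rw [h1]
    rw [e]
    exact ⟨_, rfl⟩
  have hco : ∀ v : HeightOneSpectrum (𝓞 K), v ∉ Sg →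
      (Even (ord (v.valuation K) D) ∧ Even (ord (v.valuation K) E)) ∨
        Even (ord (v.valuation K) (D * y)) := by
    intro v hv
    by_cases hvT : v ∈ T
    · exact Or.inr (hev v hvT)
    · left
      rw [hT] at hvT
      push Not at hvT
      obtain ⟨g1, g2⟩ := hvT hv
      rw [Int.not_odd_iff_even] at g1 g2
      exact ⟨g1, g2⟩
  have k1 := par_cop S h2 h3 hd hD hF0 fun v hv => (hco v hv).imp (fun h => h.1) id
  have k2 := par_cop S h2 h3 hd hF0 hE fun v hv => (hco v hv).symm.imp id fun h => h.2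
  have hself : ∀ (v : HeightOneSpectrum (𝓞 K)) (x : K), x ≠ 0 →
      IsSquare (algebraMap K (v.adicCompletion K) (x / x)) := by
    intro v x hx
    rw [div_self hx, map_one]
    exact IsSquare.one
  have e1 : ∑ v ∈ Sg, lt S v D (D * y) = ∑ v ∈ Sg, lt S v D D :=
    Finset.sum_congr rfl fun v hv => lt_congr S v hD hD hF0 hD (hself v D hD) (hsq' v hv)
  have e2 : ∑ v ∈ Sg, lt S v (D * y) E = ∑ v ∈ Sg, lt S v D E :=
    Finset.sum_congr rfl fun v hv => lt_congr S v hF0 hD hE hE (hsq' v hv) (hself v E hE)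
  have r1 : (Finset.univ.filter fun s : K →+* ℝ => s D * s (D * y) < 0) = ∅ := by
    refine Finset.filter_eq_empty_iff.2 fun s _ => not_lt.2 ?_
    rw [map_mul, ← mul_assoc]
    exact mul_nonneg (mul_self_nonneg _) (hpos s).le
  have r2 : (Finset.univ.filter fun s : K →+* ℝ => s (D * y) * s E < 0) =
      Finset.univ.filter fun s : K →+* ℝ => s D * s E < 0 := by
    refine Finset.filter_congr fun s _ => ?_
    have e : s (D * y) * s E = s y * (s D * s E) := by
      rw [map_mul]
      ring
    rw [e]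
    exact ⟨fun h => (pos_iff_neg_of_mul_neg h).1 (hpos s), fun h => mul_neg_of_pos_of_neg (hpos s) h⟩
  rw [e1, r1, Finset.card_empty, Nat.cast_zero, add_zero] at k1
  rw [e2, r2] at k2
  rw [Finset.sum_add_distrib, ← k1, add_assoc, ← k2]
  have hc : ∀ x y z : ZMod 2, x + z = x + y + (y + z) := by decide
  exact hc _ _ _

end H88KF
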