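import Mathlib

/-!
ROW H0 (MP_78d38b_KF), about 70 lines, pure algebra: sums over at most two square classes.

PROOF. `F` a field (the completion), `i : K →+* F`.  Let `P := Δ.filter (fun d => IsSquare (i d * c₁))`, `R := Δ \ P` (there `IsSquare (i d * c₂)`).  On `P` the function `f` is constant (`i d * i d' = (i d * c₁) (i d' * c₁) / c₁ ^ 2` is a square), on `R` too.
If `c₁ * c₂` is a square in `F` then all elements are in one class: `f` is constant on `Δ`, `Δ.card` is even.  Otherwise: the product over `Δ` is `c₁ ^ card P * c₂ ^ card R` times a square; it is a square; `card P + card R` is even; if both are odd then `c₁ * c₂` is a square, a contradiction; so both are even.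
-/

set_option autoImplicit false
open scoped Classical

namespace H88KF

private theorem H0_key {F : Type} [Field F] {x y z w : F} (hz : z ≠ 0) (hw : w ≠ 0)
    (h1 : IsSquare (x * z)) (h2 : IsSquare (y * w)) (h3 : IsSquare (z * w)) : IsSquare (x * y) := by
  obtain ⟨r, hr⟩ := h1
  obtain ⟨s, hs⟩ := h2
  obtain ⟨t, ht⟩ := h3
  refine ⟨r * s * t / (z * w), ?_⟩
  have h4 : (x * z) * (y * w) * (z * w) = (r * s * t) * (r * s * t) := by
    rw [hr, hs, ht]; ring
  field_simp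
  linear_combination h4

private theorem H0_cst {K : Type} (P : Finset K) (f : K → ZMod 2)
    (h : ∀ d ∈ P, ∀ d' ∈ P, f d = f d') :
    (Even P.card ∧ ∑ d ∈ P, f d = 0) ∨ (Odd P.card ∧ ∃ p ∈ P, ∑ d ∈ P, f d = f p) := by
  rcases P.eq_empty_or_nonempty with rfl | ⟨p, hp⟩
  · left
    simp
  · have h1 : ∑ d ∈ P, f d = P.card • f p := by
      rw [Finset.sum_congr rfl fun d hd => h d hd p hp, Finset.sum_const]
    rcases Nat.even_or_odd P.card with he | ho
    · left
      refine ⟨he, ?_⟩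
      obtain ⟨k, hk⟩ := he
      rw [h1, hk, add_smul, CharTwo.add_self_eq_zero]
    · right
      refine ⟨ho, p, hp, ?_⟩
      obtain ⟨k, hk⟩ := ho
      rw [h1, hk, two_mul, add_smul, add_smul, CharTwo.add_self_eq_zero, zero_add, one_smul]

private theorem H0_prod {K F : Type} [Field K] [Field F] (i : K →+* F) (P : Finset K) (z : F)
    (h : ∀ d ∈ P, IsSquare (i d * z)) : IsSquare (z ^ P.card * ∏ d ∈ P, i d) := by
  have h1 : IsSquare (∏ d ∈ P, (i d * z)) :=
    Finset.prod_induction _ IsSquare (fun _ _ ha hb => ha.mul hb) IsSquare.one h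
  rwa [Finset.prod_mul_distrib, Finset.prod_const, mul_comm] at h1

theorem sum_cls {K F : Type} [Field K] [Field F] (i : K →+* F) {Δ : Finset K}
    (h0 : ∀ d ∈ Δ, d ≠ 0) (he : Even Δ.card) (hsq : IsSquare (i (∏ d ∈ Δ, d)))
    (hc : ∃ c₁ c₂ : F, c₁ ≠ 0 ∧ c₂ ≠ 0 ∧ ∀ d ∈ Δ, IsSquare (i d * c₁) ∨ IsSquare (i d * c₂))
    (f : K → ZMod 2) (hf : ∀ d ∈ Δ, ∀ d' ∈ Δ, IsSquare (i d * i d') → f d = f d') :
    ∑ d ∈ Δ, f d = 0 := by
  obtain ⟨c₁, c₂, hc1, hc2, hc⟩ := hc
  set P := Δ.filter (fun d => IsSquare (i d * c₁)) with hP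
  set R := Δ.filter (fun d => ¬ IsSquare (i d * c₁)) with hR
  have hPm : ∀ d ∈ P, d ∈ Δ ∧ IsSquare (i d * c₁) := fun d hd => Finset.mem_filter.1 hd
  have hRm : ∀ d ∈ R, d ∈ Δ ∧ IsSquare (i d * c₂) := by
    intro d hd
    have h1 := Finset.mem_filter.1 hd
    exact ⟨h1.1, (hc d h1.1).resolve_left h1.2⟩
  have hPc : ∀ d ∈ P, ∀ d' ∈ P, f d = f d' := fun d hd d' hd' =>
    hf d (hPm d hd).1 d' (hPm d' hd').1 (H0_key hc1 hc1 (hPm d hd).2 (hPm d' hd').2 ⟨c₁, rfl⟩)
  have hRc : ∀ d ∈ R, ∀ d' ∈ R, f d = f d' := fun d hd d' hd' =>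
    hf d (hRm d hd).1 d' (hRm d' hd').1 (H0_key hc2 hc2 (hRm d hd).2 (hRm d' hd').2 ⟨c₂, rfl⟩)
  have hsum : ∑ d ∈ Δ, f d = ∑ d ∈ P, f d + ∑ d ∈ R, f d :=
    (Finset.sum_filter_add_sum_filter_not Δ _ f).symm
  have hcard : P.card + R.card = Δ.card := Finset.card_filter_add_card_filter_not _
  rcases H0_cst P f hPc with ⟨e1, s1⟩ | ⟨o1, p, hp, s1⟩
  · rcases H0_cst R f hRc with ⟨e2, s2⟩ | ⟨o2, r, hr, s2⟩
    · rw [hsum, s1, s2, add_zero]
    · exfalso
      rw [← hcard] at he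
      exact Nat.not_even_iff_odd.2 (e1.add_odd o2) he
  · rcases H0_cst R f hRc with ⟨e2, s2⟩ | ⟨o2, r, hr, s2⟩
    · exfalso
      rw [← hcard] at he
      exact Nat.not_even_iff_odd.2 (o1.add_even e2) he
    · have q1 := H0_prod i P c₁ fun d hd => (hPm d hd).2
      have q2 := H0_prod i R c₂ fun d hd => (hRm d hd).2
      have hne : ∀ Q : Finset K, (∀ d ∈ Q, d ∈ Δ) → ∏ d ∈ Q, i d ≠ 0 := by
        intro Q hQ
        rw [Finset.prod_ne_zero_iff]
        intro d hd
        rw [map_ne_zero]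
        exact h0 d (hQ d hd)
      have q3 : IsSquare ((∏ d ∈ P, i d) * ∏ d ∈ R, i d) := by
        rw [map_prod, ← Finset.prod_filter_mul_prod_filter_not Δ (fun d => IsSquare (i d * c₁))] at hsq
        exact hsq
      have q4 := H0_key (hne P fun d hd => (hPm d hd).1) (hne R fun d hd => (hRm d hd).1) q1 q2 q3
      have q5 : IsSquare (c₁ * c₂) := by
        obtain ⟨m, hm⟩ := o1
        obtain ⟨n, hn⟩ := o2
        obtain ⟨t, ht⟩ := q4
        rw [hm, hn] at ht
        refine ⟨t / (c₁ ^ m * c₂ ^ n), ?_⟩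
        have h1 : c₁ ^ m ≠ 0 := pow_ne_zero _ hc1
        have h2 : c₂ ^ n ≠ 0 := pow_ne_zero _ hc2
        rw [div_mul_div_comm, ← ht]
        field_simp
        ring
      have hpr : f p = f r := hf p (hPm p hp).1 r (hRm r hr).1
        (H0_key hc1 hc2 (hPm p hp).2 (hRm r hr).2 q5)
      rw [hsum, s1, s2, hpr, CharTwo.add_self_eq_zero]

end H88KF
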