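import Pool.Agent.H88.KF.G2
import Pool.Agent.H88.KF.H0

/-!
ROW H1 (MP_78d38b_KF), about 120 lines: the sum of the parities over `Δ`.  Use only the STATEMENTS of G2, F2, H0.

PROOF. `Sg` := the primes at which `2`, `3` or the discriminant is not a unit (`H38RT.fin_bad`).
sum_near: par_all for `(d * D, d * D')`, `d ∈ Δ`; sum over `d`.  The real terms: `s (d D) * s (d D') < 0 ↔ s D * s D' < 0`, the same number for every `d`, and `Δ.card` is even.  For `v ∈ Sg`: `f d := lt S v (d D) (d D) + lt S v (d D) (d D')`.  If `v ∈ S₁`: `D' / D` is a square at `v`,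
so `f d = 0` (lt_congr, `z + z = 0`).  If `v ∉ S₁`: H0 (`f d = f d'` if `d * d'` is a square at `v`: lt_congr with `d' D / (d D) = d' / d`).  So `∑ (pr (d D) + pr (d D')) = 0`.
sum_zero (`S₁ = ∅`): par_all for `(d * D, D)`; `∑ pr S D = 0` (`Δ.card` even); the terms at `v` by H0; the real terms: `s (d D) * s D < 0 ↔ s d < 0`; exchange the sums over `d` and `s`: for every `s` the number of `d ∈ Δ` with `s d < 0` is even, since the product of the `s d` is positive
(a square, nonzero; H0 with `F = ℝ`, `f d := if s d < 0 then 1 else 0`, `c₁ = 1`, `c₂ = -1` works).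
-/

set_option autoImplicit false
set_option linter.unusedSectionVars false
open scoped Classical

open WithZero NumberField IsDedekindDomain H38RT
open H38T1 (SC sc scu rep rep_ne sc_rep sc_mul sc_eq_zero sc_surj eo la si Pri OddP tp unif ka)
open H76PP H36MX H76MQ H76MX H30ZO H76OD H88OD H30OD H36CY H30OR

namespace H88KF

variable {K L : Type} [Field K] [NumberField K] [Field L] [NumberField L] [Algebra K L]
  {a b : K} {θ : L}

private theorem bad_set (S : Ext K K L a b θ) : ∃ Sg : Finset (HeightOneSpectrum (𝓞 K)),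
    (∀ v : HeightOneSpectrum (𝓞 K), v ∉ Sg → v.valuation K 2 = 1) ∧
    (∀ v : HeightOneSpectrum (𝓞 K), v ∉ Sg → v.valuation K 3 = 1) ∧
    (∀ v : HeightOneSpectrum (𝓞 K), v ∉ Sg → v.valuation K (4 * a ^ 3 + 27 * b ^ 2) = 1) := by
  have f2 := H38RT.fin_bad (K := K) (x := 2) two_ne_zero
  have f3 := H38RT.fin_bad (K := K) (x := 3) three_ne_zero
  have fd := H38RT.fin_bad S.dne
  refine ⟨f2.toFinset ∪ (f3.toFinset ∪ fd.toFinset), ?_, ?_, ?_⟩
  · intro v hv
    by_contra hne
    exact hv (Finset.mem_union_left _ (f2.mem_toFinset.2 hne))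
  · intro v hv
    by_contra hne
    exact hv (Finset.mem_union_right _ (Finset.mem_union_left _ (f3.mem_toFinset.2 hne)))
  · intro v hv
    by_contra hne
    exact hv (Finset.mem_union_right _ (Finset.mem_union_right _ (fd.mem_toFinset.2 hne)))

private theorem sq_div {F : Type} [Field F] (i : K →+* F) {d d' : K} (hd : d ≠ 0)
    (h : IsSquare (i d * i d')) : IsSquare (i (d' / d)) := by
  have e : i (d' / d) = (i d * i d') / (i d * i d) := by
    have h1 : i d ≠ 0 := (map_ne_zero i).2 hd
    rw [map_div₀]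
    field_simp
  rw [e]
  exact h.div (IsSquare.mul_self _)

private theorem sum_card_zero {Δ : Finset K} (he : Even Δ.card) (z : ZMod 2) :
    ∑ _d ∈ Δ, z = 0 := by
  rw [Finset.sum_const, nsmul_eq_mul]
  obtain ⟨m, hm⟩ := he
  have : ((Δ.card : ℕ) : ZMod 2) = 0 := by
    rw [hm, Nat.cast_add]
    exact CharTwo.add_self_eq_zero _
  rw [this, zero_mul]

theorem sum_near (S : Ext K K L a b θ) {Δ : Finset K} (h0 : ∀ d ∈ Δ, d ≠ 0) (he : Even Δ.card)
    (hsq : IsSquare (∏ d ∈ Δ, d)) {S₁ : Finset (HeightOneSpectrum (𝓞 K))}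
    (hc : ∀ v : HeightOneSpectrum (𝓞 K), v ∉ S₁ → ∃ c₁ c₂ : v.adicCompletion K, c₁ ≠ 0 ∧ c₂ ≠ 0 ∧
      ∀ d ∈ Δ, IsSquare (algebraMap K (v.adicCompletion K) d * c₁) ∨
        IsSquare (algebraMap K (v.adicCompletion K) d * c₂))
    {D D' : K} (hD : D ≠ 0) (hD' : D' ≠ 0)
    (hs : ∀ v ∈ S₁, IsSquare (algebraMap K (v.adicCompletion K) (D' / D))) :
    ∑ d ∈ Δ, pr S (d * D) = ∑ d ∈ Δ, pr S (d * D') := by
  obtain ⟨Sg, h2, h3, hdd⟩ := bad_set S
  have key : ∑ d ∈ Δ, (pr S (d * D) + pr S (d * D')) = 0 := by
    have e1 : ∑ d ∈ Δ, (pr S (d * D) + pr S (d * D')) =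
        ∑ d ∈ Δ, (∑ v ∈ Sg, (lt S v (d * D) (d * D) + lt S v (d * D) (d * D')) +
          ((Finset.univ.filter fun s : K →+* ℝ => s D * s D' < 0).card : ZMod 2)) := by
      refine Finset.sum_congr rfl fun d hd => ?_
      have hdn := h0 d hd
      rw [par_all S h2 h3 hdd (mul_ne_zero hdn hD) (mul_ne_zero hdn hD')]
      have e2 : (Finset.univ.filter fun s : K →+* ℝ => s (d * D) * s (d * D') < 0) =
          (Finset.univ.filter fun s : K →+* ℝ => s D * s D' < 0) := by
        refine Finset.filter_congr fun s _ => ?_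
        have hsd : s d ≠ 0 := (map_ne_zero s).2 hdn
        have hp : 0 < s d ^ 2 := by positivity
        have e3 : s (d * D) * s (d * D') = s d ^ 2 * (s D * s D') := by
          rw [map_mul, map_mul]; ring
        rw [e3]
        constructor
        · intro h
          by_contra hn
          push Not at hn
          nlinarith [mul_nonneg hp.le hn]
        · intro h
          exact mul_neg_of_pos_of_neg hp h
      rw [e2]
    rw [e1, Finset.sum_add_distrib, sum_card_zero he, add_zero, Finset.sum_comm]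
    refine Finset.sum_eq_zero fun v _ => ?_
    by_cases hv : v ∈ S₁
    · refine Finset.sum_eq_zero fun d hd => ?_
      have hdn := h0 d hd
      have hD1 := mul_ne_zero hdn hD
      have hD2 := mul_ne_zero hdn hD'
      have e4 : lt S v (d * D) (d * D) = lt S v (d * D) (d * D') := by
        refine lt_congr S v hD1 hD1 hD1 hD2 ?_ ?_
        · rw [div_self hD1, map_one]
          exact IsSquare.one
        · rw [mul_div_mul_left _ _ hdn]
          exact hs v hv
      rw [e4]
      exact CharTwo.add_self_eq_zero _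
    · refine sum_cls (algebraMap K (v.adicCompletion K)) h0 he (hsq.map _) (hc v hv)
        (fun d => lt S v (d * D) (d * D) + lt S v (d * D) (d * D')) ?_
      intro d hd d' hd' hq
      have hdn := h0 d hd
      have hdn' := h0 d' hd'
      have hD1 := mul_ne_zero hdn hD
      have hD2 := mul_ne_zero hdn hD'
      have hD3 := mul_ne_zero hdn' hD
      have hD4 := mul_ne_zero hdn' hD'
      have g1 := sq_div (algebraMap K (v.adicCompletion K)) hdn hq
      have g2 : IsSquare (algebraMap K (v.adicCompletion K) (d' * D / (d * D))) := by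
        rw [mul_div_mul_right _ _ hD]; exact g1
      have g3 : IsSquare (algebraMap K (v.adicCompletion K) (d' * D' / (d * D'))) := by
        rw [mul_div_mul_right _ _ hD']; exact g1
      show lt S v (d * D) (d * D) + lt S v (d * D) (d * D') =
        lt S v (d' * D) (d' * D) + lt S v (d' * D) (d' * D')
      rw [lt_congr S v hD1 hD3 hD1 hD3 g2 g2, lt_congr S v hD1 hD3 hD2 hD4 g2 g3]
  rw [Finset.sum_add_distrib] at key
  exact CharTwo.add_eq_zero.1 key

theorem sum_zero (S : Ext K K L a b θ) {Δ : Finset K} (h0 : ∀ d ∈ Δ, d ≠ 0) (he : Even Δ.card)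
    (hsq : IsSquare (∏ d ∈ Δ, d))
    (hc : ∀ v : HeightOneSpectrum (𝓞 K), ∃ c₁ c₂ : v.adicCompletion K, c₁ ≠ 0 ∧ c₂ ≠ 0 ∧
      ∀ d ∈ Δ, IsSquare (algebraMap K (v.adicCompletion K) d * c₁) ∨
        IsSquare (algebraMap K (v.adicCompletion K) d * c₂))
    {D : K} (hD : D ≠ 0) : ∑ d ∈ Δ, pr S (d * D) = 0 := by
  obtain ⟨Sg, h2, h3, hdd⟩ := bad_set S
  have key : ∑ d ∈ Δ, (pr S (d * D) + pr S D) = 0 := by
    have e1 : ∑ d ∈ Δ, (pr S (d * D) + pr S D) =
        ∑ d ∈ Δ, (∑ v ∈ Sg, (lt S v (d * D) (d * D) + lt S v (d * D) D) +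
          ∑ s : K →+* ℝ, (if s d < 0 then (1 : ZMod 2) else 0)) := by
      refine Finset.sum_congr rfl fun d hd => ?_
      have hdn := h0 d hd
      rw [par_all S h2 h3 hdd (mul_ne_zero hdn hD) hD]
      have e2 : (Finset.univ.filter fun s : K →+* ℝ => s (d * D) * s D < 0) =
          (Finset.univ.filter fun s : K →+* ℝ => s d < 0) := by
        refine Finset.filter_congr fun s _ => ?_
        have hsd : s D ≠ 0 := (map_ne_zero s).2 hD
        have hp : 0 < s D ^ 2 := by positivity
        have e3 : s (d * D) * s D = s D ^ 2 * s d := by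
          rw [map_mul]; ring
        rw [e3]
        constructor
        · intro h
          by_contra hn
          push Not at hn
          nlinarith [mul_nonneg hp.le hn]
        · intro h
          exact mul_neg_of_pos_of_neg hp h
      rw [e2, Finset.sum_boole]
    rw [e1, Finset.sum_add_distrib]
    have t1 : ∑ d ∈ Δ, ∑ v ∈ Sg, (lt S v (d * D) (d * D) + lt S v (d * D) D) = 0 := by
      rw [Finset.sum_comm]
      refine Finset.sum_eq_zero fun v _ => ?_
      refine sum_cls (algebraMap K (v.adicCompletion K)) h0 he (hsq.map _) (hc v)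
        (fun d => lt S v (d * D) (d * D) + lt S v (d * D) D) ?_
      intro d hd d' hd' hq
      have hdn := h0 d hd
      have hdn' := h0 d' hd'
      have hD1 := mul_ne_zero hdn hD
      have hD3 := mul_ne_zero hdn' hD
      have g1 := sq_div (algebraMap K (v.adicCompletion K)) hdn hq
      have g2 : IsSquare (algebraMap K (v.adicCompletion K) (d' * D / (d * D))) := by
        rw [mul_div_mul_right _ _ hD]; exact g1
      have g3 : IsSquare (algebraMap K (v.adicCompletion K) (D / D)) := by
        rw [div_self hD, map_one]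
        exact IsSquare.one
      show lt S v (d * D) (d * D) + lt S v (d * D) D =
        lt S v (d' * D) (d' * D) + lt S v (d' * D) D
      rw [lt_congr S v hD1 hD3 hD1 hD3 g2 g2, lt_congr S v hD1 hD3 hD hD g2 g3]
    have t2 : ∑ d ∈ Δ, ∑ s : K →+* ℝ, (if s d < 0 then (1 : ZMod 2) else 0) = 0 := by
      rw [Finset.sum_comm]
      refine Finset.sum_eq_zero fun s _ => ?_
      refine sum_cls s h0 he (hsq.map _) ⟨1, -1, one_ne_zero, neg_ne_zero.2 one_ne_zero, ?_⟩
        (fun d => if s d < 0 then (1 : ZMod 2) else 0) ?_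
      · intro d _
        rcases le_total 0 (s d) with h | h
        · left
          rw [mul_one]
          exact ⟨Real.sqrt (s d), (Real.mul_self_sqrt h).symm⟩
        · right
          have h' : 0 ≤ s d * -1 := by linarith
          exact ⟨Real.sqrt (s d * -1), (Real.mul_self_sqrt h').symm⟩
      · intro d hd d' hd' hq
        have n1 : s d ≠ 0 := (map_ne_zero s).2 (h0 d hd)
        have n2 : s d' ≠ 0 := (map_ne_zero s).2 (h0 d' hd')
        obtain ⟨r, hr⟩ := hq
        have hnn : 0 ≤ s d * s d' := by rw [hr]; exact mul_self_nonneg r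
        show (if s d < 0 then (1 : ZMod 2) else 0) = if s d' < 0 then (1 : ZMod 2) else 0
        rcases lt_or_gt_of_ne n1 with h | h
        · rcases lt_or_gt_of_ne n2 with h' | h'
          · rw [if_pos h, if_pos h']
          · exact absurd hnn (not_le.2 (mul_neg_of_neg_of_pos h h'))
        · rcases lt_or_gt_of_ne n2 with h' | h'
          · exact absurd hnn (not_le.2 (mul_neg_of_pos_of_neg h h'))
          · rw [if_neg (not_lt.2 h.le), if_neg (not_lt.2 h'.le)]
    rw [t1, t2, add_zero]
  rw [Finset.sum_add_distrib, sum_card_zero he, add_zero] at key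
  exact key

end H88KF
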